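import Mathlib
import Pool.Agent.Lib.Pabc10.Dir

/-!
# A common scale for the exponents

`dirichlet_fin` (simultaneous approximation): pigeonhole for `j ∈ {0, ..., Q ^ k}` on the vectors
`i ↦ ⌊Q * Int.fract (j * y i)⌋₊ ∈ {0, ..., Q - 1}`; `m i ≥ 0` because `y i ≥ 0` (the same as
Pabc10.Dir.dirichlet_sim).

`struct_approx`. Let `Λ = H / (K' X)`. Apply `dirichlet_fin` to `y i = e i / Λ`: `1 ≤ j ≤ Q ^ k`,
`|j e i / Λ - m i| ≤ 1 / Q`. `r = ⌊Λ / j⌋₊`, `Λ / (2 j) ≤ r ≤ Λ / j`. Then
`|e i - r m i| ≤ |e i - (Λ / j) m i| + m i ≤ Λ / (j Q) + j e i / Λ + 1 / Q`. Take `F p = ∑ i, m i * v_p (x i)` for a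
prime `p` not dividing `s` (there `v_p(Nn) = ∑ i, e i * v_p (x i)`), and `F p` = nearest integer to
`v_p(Nn) / r` for `p ∣ s` (error at most `r / 2`). As `∑ p, v_p (x i) log p = log (x i)` and
`∑ i, e i log (x i) ≤ log Nn ≤ 6 H`, the total error is at most
`(Λ / (j Q) + 1 / Q) X + 6 H j / Λ + (r / 2) (η / 2) X ≤ η r X` when `Q ≥ 16 / η` and
`Λ / (2 j) ≥ R0`, `Λ / (2 j) ≥ 24 K' j / η`, which follow from `H ≥ C Q^(2k) X`, `C ≥ 2 K' R0`,
`C ≥ 48 K'^2 / η`.
-/

open Finset

namespace Pool.Agent.Lib.Pabc11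

theorem dirichlet_fin (k : ℕ) (y : Fin k → ℝ) (hy : ∀ i, 0 ≤ y i) (Q : ℕ) (hQ : 1 ≤ Q) :
    ∃ j : ℕ, 1 ≤ j ∧ j ≤ Q ^ k ∧ ∃ m : Fin k → ℕ, ∀ i, |(j : ℝ) * y i - m i| ≤ 1 / Q := by
  classical
  obtain ⟨j, hj1, hj2, hj3⟩ := Pabc10.dirichlet_sim (Finset.range k)
    (fun b => if h : b < k then y ⟨b, h⟩ else 0) Q hQ
  rw [Finset.card_range] at hj2
  have h4 : ∀ i : Fin k, ∃ n : ℕ, |(j : ℝ) * y i - n| ≤ 1 / Q := by
    intro i
    obtain ⟨n, hn⟩ := hj3 i.1 (Finset.mem_range.2 i.2)
    simp only [i.2, dif_pos] at hn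
    refine ⟨n.toNat, le_trans ?_ hn⟩
    have h0 : 0 ≤ (j : ℝ) * y i := mul_nonneg (Nat.cast_nonneg _) (hy i)
    rcases le_total 0 n with h | h
    · have h5 : ((n.toNat : ℕ) : ℝ) = (n : ℝ) := by
        have h6 : ((n.toNat : ℕ) : ℤ) = n := Int.toNat_of_nonneg h
        exact_mod_cast congrArg (fun z : ℤ => (z : ℝ)) h6
      rw [h5]
    · have h5 : n.toNat = 0 := Int.toNat_of_nonpos h
      have h6 : (n : ℝ) ≤ 0 := by exact_mod_cast h
      rw [h5]
      simp only [Nat.cast_zero, sub_zero]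
      rw [abs_of_nonneg h0, abs_of_nonneg (by linarith)]
      linarith
  choose m hm using h4
  exact ⟨j, hj1, hj2, m, hm⟩

namespace StructAux

/-- Nearest natural multiple of `r`. -/
theorem near (r v : ℕ) (hr : 1 ≤ r) : ∃ f : ℕ, |(v : ℝ) - (r : ℝ) * f| ≤ (r : ℝ) / 2 := by
  have hr0 : (0 : ℝ) < r := by exact_mod_cast hr
  refine ⟨⌊(v : ℝ) / r + 1 / 2⌋₊, ?_⟩
  have h0 : (0 : ℝ) ≤ (v : ℝ) / r + 1 / 2 := by positivity
  have h1 := Nat.floor_le h0
  have h2 := Nat.lt_floor_add_one ((v : ℝ) / r + 1 / 2)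
  set f : ℝ := ((⌊(v : ℝ) / r + 1 / 2⌋₊ : ℕ) : ℝ) with hf
  have h3 : (v : ℝ) = (r : ℝ) * ((v : ℝ) / r) := by field_simp
  rw [abs_le]
  constructor
  · rw [h3]; nlinarith
  · rw [h3]; nlinarith

/-- `∑ p ∈ primeFactors, v_p log p = log`. -/
theorem log_fac (x : ℕ) (hx : 0 < x) :
    ∑ p ∈ x.primeFactors, (x.factorization p : ℝ) * Real.log p = Real.log x := by
  conv_rhs => rw [← Nat.prod_factorization_pow_eq_self hx.ne']
  rw [Finsupp.prod, Nat.support_factorization]
  push_cast
  rw [Real.log_prod]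
  · exact Finset.sum_congr rfl fun p _ => (Real.log_pow _ _).symm
  · intro p hp
    have := (Nat.prime_of_mem_primeFactors hp).pos
    positivity

theorem log_fac_sub (x : ℕ) (hx : 0 < x) (S : Finset ℕ) :
    ∑ p ∈ S, (x.factorization p : ℝ) * Real.log p ≤ Real.log x := by
  classical
  rw [← log_fac x hx]
  have h1 : ∑ p ∈ S, (x.factorization p : ℝ) * Real.log p =
      ∑ p ∈ S ∩ x.primeFactors, (x.factorization p : ℝ) * Real.log p := by
    symm
    apply Finset.sum_subset Finset.inter_subset_left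
    intro p hp hp2
    have h2 : p ∉ x.primeFactors := fun h => hp2 (Finset.mem_inter.2 ⟨hp, h⟩)
    rw [← Nat.support_factorization, Finsupp.notMem_support_iff] at h2
    rw [h2]
    simp
  rw [h1]
  apply Finset.sum_le_sum_of_subset_of_nonneg Finset.inter_subset_right
  intro p hp _
  have h3 : 1 ≤ p := (Nat.prime_of_mem_primeFactors hp).one_le
  have h4 : 0 ≤ Real.log p := Real.log_nonneg (by exact_mod_cast h3)
  positivity

end StructAux

open StructAux in
theorem struct_approx (η K' R0 : ℝ) (hη : 0 < η) (hη1 : η ≤ 1) (hK' : 1 ≤ K') (hR0 : 1 ≤ R0) :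
    ∃ (Q : ℕ) (C : ℝ), 1 ≤ Q ∧ 1 ≤ C ∧ ∀ (k : ℕ) (x e : Fin k → ℕ) (s Nn : ℕ) (X H : ℝ),
      0 < s → (∀ i, 0 < x i) → Nn = s * ∏ i, x i ^ e i → 1 ≤ X →
      ∑ i, Real.log (x i) ≤ X → Real.log ((∏ p ∈ s.primeFactors, p : ℕ) : ℝ) ≤ η / 2 * X →
      Real.log Nn ≤ 6 * H → C * (Q : ℝ) ^ (2 * k) * X ≤ H →
      ∃ j : ℕ, 1 ≤ j ∧ j ≤ Q ^ k ∧ R0 ≤ (⌊H / (K' * X * j)⌋₊ : ℝ) ∧ ∃ F : ℕ → ℕ,
        ∑ p ∈ Nn.primeFactors,
          |(Nn.factorization p : ℝ) - (⌊H / (K' * X * j)⌋₊ : ℝ) * F p| * Real.log p ≤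
            η * (⌊H / (K' * X * j)⌋₊ : ℝ) * X := by
  classical
  obtain ⟨Q, hQ⟩ := exists_nat_ge (16 / η)
  have hQ16 : 16 ≤ (Q : ℝ) * η := by
    rw [div_le_iff₀ hη] at hQ; linarith
  have hQ1' : (1 : ℝ) ≤ Q := by nlinarith
  have hQ1 : 1 ≤ Q := by exact_mod_cast hQ1'
  set C : ℝ := 2 * K' * R0 + 96 * K' ^ 2 / η with hC
  have hK0 : 0 < K' := by linarith
  have hC0 : 0 ≤ 96 * K' ^ 2 / η := by positivity
  have hC1 : 1 ≤ C := by nlinarith
  refine ⟨Q, C, hQ1, hC1, ?_⟩
  intro k x e s Nn X H hs hx hN hX hxX hsX hNH hCH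
  have hX0 : 0 < X := by linarith
  have hQk : (1 : ℝ) ≤ (Q : ℝ) ^ (2 * k) := one_le_pow₀ hQ1'
  have hH0 : 0 < H := lt_of_lt_of_le (by positivity) hCH
  set L : ℝ := H / (K' * X) with hL
  have hKX : 0 < K' * X := by positivity
  have hL0 : 0 < L := by positivity
  have hLH : L * (K' * X) = H := by rw [hL]; field_simp
  obtain ⟨j, hj1, hj2, m, hm⟩ := dirichlet_fin k (fun i => (e i : ℝ) / L)
    (fun i => by positivity) Q hQ1
  have hj1' : (1 : ℝ) ≤ j := by exact_mod_cast hj1
  have hj0 : (0 : ℝ) < j := by linarith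
  have hj2' : (j : ℝ) ≤ (Q : ℝ) ^ k := by exact_mod_cast hj2
  have hjj : (j : ℝ) * j ≤ (Q : ℝ) ^ (2 * k) := by
    rw [two_mul, pow_add]
    exact mul_le_mul hj2' hj2' hj0.le (by positivity)
  -- the lower bound for `L / j`
  have hLC : C / K' * (j * j) ≤ L := by
    rw [hL, le_div_iff₀ hKX]
    calc C / K' * (j * j) * (K' * X) = C * ((j : ℝ) * j) * X := by field_simp
      _ ≤ C * (Q : ℝ) ^ (2 * k) * X := by gcongr
      _ ≤ H := hCH
  have hCK : C / K' = 2 * R0 + 96 * K' / η := by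
    rw [hC]; field_simp
  set g : ℝ := L / j with hg
  have hgj : g * j = L := by rw [hg]; field_simp
  have hg0 : 0 < g := by positivity
  have hgC : C / K' * j ≤ g := by
    rw [hg, le_div_iff₀ hj0]; linarith
  have hgR : 2 * R0 ≤ g := by
    have h1 : 0 ≤ 96 * K' / η := by positivity
    calc 2 * R0 ≤ C / K' * 1 := by rw [hCK]; linarith
      _ ≤ C / K' * j := by
        apply mul_le_mul_of_nonneg_left hj1'
        rw [hCK]; positivity
      _ ≤ g := hgC
  have hgK : 96 * K' * j ≤ η * g := by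
    have h1 : 96 * K' / η * j ≤ g := by
      refine le_trans ?_ hgC
      rw [hCK]
      have : 0 ≤ 2 * R0 * (j : ℝ) := by positivity
      nlinarith
    have h2 : 96 * K' * j = η * (96 * K' / η * j) := by field_simp
    rw [h2]
    exact mul_le_mul_of_nonneg_left h1 hη.le
  have hgeq : H / (K' * X * j) = g := by
    rw [hg, hL]; field_simp
  refine ⟨j, hj1, hj2, ?_⟩
  rw [hgeq]
  have hr1 := Nat.floor_le hg0.le
  have hr2 := Nat.lt_floor_add_one g
  set r : ℕ := ⌊g⌋₊ with hr
  have hrR0 : R0 ≤ (r : ℝ) := by linarith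
  have hr1' : (1 : ℝ) ≤ r := by linarith
  have hrN : 1 ≤ r := by exact_mod_cast hr1'
  have hr0 : (0 : ℝ) < r := by linarith
  have hg2 : g ≤ 2 * r := by linarith
  refine ⟨hrR0, ?_⟩
  choose f hf using fun v : ℕ => near r v hrN
  refine ⟨fun p => if p ∣ s then f (Nn.factorization p) else ∑ i, m i * (x i).factorization p, ?_⟩
  -- basic facts
  have hxp : ∀ i, x i ^ e i ≠ 0 := fun i => pow_ne_zero _ (hx i).ne'
  have hprod0 : (∏ i, x i ^ e i) ≠ 0 := Finset.prod_ne_zero_iff.2 fun i _ => hxp i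
  have hN0 : 0 < Nn := by
    rw [hN]; exact Nat.pos_of_ne_zero (mul_ne_zero hs.ne' hprod0)
  have hfac : ∀ p, Nn.factorization p = s.factorization p + ∑ i, e i * (x i).factorization p := by
    intro p
    rw [hN, Nat.factorization_mul hs.ne' hprod0, Finsupp.add_apply,
      Nat.factorization_prod (fun i _ => hxp i), Finsupp.finsetSum_apply]
    congr 1
    apply Finset.sum_congr rfl
    intro i _
    rw [Nat.factorization_pow, Finsupp.smul_apply, smul_eq_mul]
  have hlogN : ∑ i, (e i : ℝ) * Real.log (x i) ≤ 6 * H := by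
    refine le_trans ?_ hNH
    rw [hN]
    push_cast
    have hp0 : (0 : ℝ) < ∏ i, (x i : ℝ) ^ e i := by
      apply Finset.prod_pos
      intro i _
      have : (0 : ℝ) < x i := by exact_mod_cast hx i
      positivity
    have hs0 : (0 : ℝ) < s := by exact_mod_cast hs
    rw [Real.log_mul hs0.ne' hp0.ne', Real.log_prod (fun i _ => by
      have : (0 : ℝ) < x i := by exact_mod_cast hx i
      positivity)]
    have h1 : 0 ≤ Real.log (s : ℝ) := Real.log_nonneg (by exact_mod_cast hs)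
    have h2 : ∑ i, Real.log ((x i : ℝ) ^ e i) = ∑ i, (e i : ℝ) * Real.log (x i) :=
      Finset.sum_congr rfl fun i _ => Real.log_pow _ _
    rw [h2]
    linarith
  -- the errors of the exponents
  have herr : ∀ i, |(e i : ℝ) - r * m i| ≤ 2 * r / Q + 1 / Q + j / L * e i := by
    intro i
    have h1 := hm i
    have h2 : |(e i : ℝ) - g * m i| ≤ g / Q := by
      have h3 : (e i : ℝ) - g * m i = g * ((j : ℝ) * ((e i : ℝ) / L) - m i) := by
        rw [← hgj]; field_simp
      rw [h3, abs_mul, abs_of_pos hg0]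
      calc g * |(j : ℝ) * ((e i : ℝ) / L) - m i| ≤ g * (1 / Q) :=
            mul_le_mul_of_nonneg_left h1 hg0.le
        _ = g / Q := by ring
    have h4 : (m i : ℝ) ≤ j / L * e i + 1 / Q := by
      have h5 := (abs_le.1 h1).1
      have h6 : (j : ℝ) * ((e i : ℝ) / L) = j / L * e i := by ring
      rw [h6] at h5
      linarith
    have h7 : |(e i : ℝ) - r * m i| ≤ |(e i : ℝ) - g * m i| + |g * m i - r * m i| := by
      have := abs_sub_le (e i : ℝ) (g * m i) (r * m i)
      exact this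
    have h8 : |g * m i - r * m i| ≤ m i := by
      rw [← sub_mul, abs_mul, abs_of_nonneg (show (0 : ℝ) ≤ m i by positivity)]
      have h9 : |g - r| ≤ 1 := by
        rw [abs_le]; constructor <;> linarith
      nlinarith [show (0 : ℝ) ≤ m i by positivity]
    have h10 : g / Q ≤ 2 * r / Q := by gcongr
    linarith
  -- splitting of the sum
  rw [← Finset.sum_filter_add_sum_filter_not Nn.primeFactors (fun p => p ∣ s)]
  have hsum1 : ∑ p ∈ Nn.primeFactors.filter (fun p => p ∣ s),
      |(Nn.factorization p : ℝ) - (r : ℝ) *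
        ((if p ∣ s then f (Nn.factorization p) else ∑ i, m i * (x i).factorization p : ℕ) : ℝ)| *
          Real.log p ≤ (r : ℝ) / 2 * (η / 2 * X) := by
    calc _ ≤ ∑ p ∈ Nn.primeFactors.filter (fun p => p ∣ s), (r : ℝ) / 2 * Real.log p := by
          apply Finset.sum_le_sum
          intro p hp
          rw [Finset.mem_filter] at hp
          rw [if_pos hp.2]
          have h1 : 1 ≤ p := (Nat.prime_of_mem_primeFactors hp.1).one_le
          apply mul_le_mul_of_nonneg_right (hf _) (Real.log_nonneg (by exact_mod_cast h1))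
      _ = (r : ℝ) / 2 * ∑ p ∈ Nn.primeFactors.filter (fun p => p ∣ s), Real.log p := by
          rw [Finset.mul_sum]
      _ ≤ (r : ℝ) / 2 * ∑ p ∈ s.primeFactors, Real.log p := by
          apply mul_le_mul_of_nonneg_left _ (by positivity)
          apply Finset.sum_le_sum_of_subset_of_nonneg
          · intro p hp
            rw [Finset.mem_filter] at hp
            exact Nat.mem_primeFactors.2 ⟨Nat.prime_of_mem_primeFactors hp.1, hp.2, hs.ne'⟩
          · intro p hp _
            have h1 : 1 ≤ p := (Nat.prime_of_mem_primeFactors hp).one_le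
            exact Real.log_nonneg (by exact_mod_cast h1)
      _ = (r : ℝ) / 2 * Real.log ((∏ p ∈ s.primeFactors, p : ℕ) : ℝ) := by
          push_cast
          rw [Real.log_prod]
          intro p hp
          have := (Nat.prime_of_mem_primeFactors hp).pos
          positivity
      _ ≤ (r : ℝ) / 2 * (η / 2 * X) := mul_le_mul_of_nonneg_left hsX (by positivity)
  have hsum2 : ∑ p ∈ Nn.primeFactors.filter (fun p => ¬ p ∣ s),
      |(Nn.factorization p : ℝ) - (r : ℝ) *
        ((if p ∣ s then f (Nn.factorization p) else ∑ i, m i * (x i).factorization p : ℕ) : ℝ)| *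
          Real.log p ≤ ∑ i, |(e i : ℝ) - r * m i| * Real.log (x i) := by
    calc _ ≤ ∑ p ∈ Nn.primeFactors.filter (fun p => ¬ p ∣ s),
            ∑ i, |(e i : ℝ) - r * m i| * (((x i).factorization p : ℝ) * Real.log p) := by
          apply Finset.sum_le_sum
          intro p hp
          rw [Finset.mem_filter] at hp
          rw [if_neg hp.2, hfac p, Nat.factorization_eq_zero_of_not_dvd hp.2]
          have h1 : 1 ≤ p := (Nat.prime_of_mem_primeFactors hp.1).one_le
          have h2 : 0 ≤ Real.log p := Real.log_nonneg (by exact_mod_cast h1)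
          have h3 : (((0 + ∑ i, e i * (x i).factorization p : ℕ) : ℝ) - (r : ℝ) *
              ((∑ i, m i * (x i).factorization p : ℕ) : ℝ)) =
              ∑ i, ((e i : ℝ) - r * m i) * ((x i).factorization p : ℝ) := by
            push_cast
            rw [zero_add, Finset.mul_sum, ← Finset.sum_sub_distrib]
            apply Finset.sum_congr rfl
            intro i _
            ring
          rw [h3]
          calc |∑ i, ((e i : ℝ) - r * m i) * ((x i).factorization p : ℝ)| * Real.log p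
              ≤ (∑ i, |((e i : ℝ) - r * m i) * ((x i).factorization p : ℝ)|) * Real.log p :=
                mul_le_mul_of_nonneg_right (Finset.abs_sum_le_sum_abs _ _) h2
            _ = ∑ i, |(e i : ℝ) - r * m i| * (((x i).factorization p : ℝ) * Real.log p) := by
                rw [Finset.sum_mul]
                apply Finset.sum_congr rfl
                intro i _
                rw [abs_mul, abs_of_nonneg (show (0 : ℝ) ≤ ((x i).factorization p : ℝ) by positivity)]
                ring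
      _ = ∑ i, |(e i : ℝ) - r * m i| *
            ∑ p ∈ Nn.primeFactors.filter (fun p => ¬ p ∣ s),
              ((x i).factorization p : ℝ) * Real.log p := by
          rw [Finset.sum_comm]
          apply Finset.sum_congr rfl
          intro i _
          rw [Finset.mul_sum]
      _ ≤ ∑ i, |(e i : ℝ) - r * m i| * Real.log (x i) := by
          apply Finset.sum_le_sum
          intro i _
          apply mul_le_mul_of_nonneg_left _ (abs_nonneg _)
          exact log_fac_sub _ (hx i) _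
  have hlx : ∀ i, 0 ≤ Real.log (x i) := fun i => Real.log_nonneg (by exact_mod_cast hx i)
  have hsum3 : ∑ i, |(e i : ℝ) - r * m i| * Real.log (x i) ≤
      (2 * r / Q + 1 / Q) * X + j / L * (6 * H) := by
    calc _ ≤ ∑ i, (2 * r / Q + 1 / Q + j / L * e i) * Real.log (x i) := by
          apply Finset.sum_le_sum
          intro i _
          exact mul_le_mul_of_nonneg_right (herr i) (hlx i)
      _ = (2 * r / Q + 1 / Q) * ∑ i, Real.log (x i) + j / L * ∑ i, (e i : ℝ) * Real.log (x i) := by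
          rw [Finset.mul_sum, Finset.mul_sum, ← Finset.sum_add_distrib]
          apply Finset.sum_congr rfl
          intro i _
          ring
      _ ≤ (2 * r / Q + 1 / Q) * X + j / L * (6 * H) := by
          gcongr
  have h1 : (2 * (r : ℝ) / Q + 1 / Q) ≤ 3 * r * η / 16 := by
    have hQ0 : (0 : ℝ) < Q := by linarith
    rw [← add_div, div_le_iff₀ hQ0]
    have : 3 * (r : ℝ) * 16 ≤ 3 * r * (Q * η) := by
      apply mul_le_mul_of_nonneg_left hQ16 (by positivity)
    nlinarith
  have h2 : (j : ℝ) / L * (6 * H) = 6 * K' * j * X := by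
    rw [← hLH]; field_simp
  have h3 : 6 * K' * j ≤ η * r / 8 := by nlinarith
  have h4 : 6 * K' * (j : ℝ) * X ≤ η * r / 8 * X := mul_le_mul_of_nonneg_right h3 hX0.le
  have h5 : (2 * (r : ℝ) / Q + 1 / Q) * X ≤ 3 * r * η / 16 * X := mul_le_mul_of_nonneg_right h1 hX0.le
  have h6 : 0 ≤ r * η * X := by positivity
  rw [h2] at hsum3
  nlinarith [hsum1, hsum2, hsum3, h4, h5, h6]

end Pool.Agent.Lib.Pabc11
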