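import Mathlib
import Pool.Agent.Lib.Pabc1.Cell

/-!
# Approximation of integers by `r`-th powers: definitions

For an integer `P` and a function `F` (the approximate exponents divided by `r`) we write
`P * Ad = An * Bf ^ r`.
-/

open Finset

namespace Pool.Agent.Lib.Pabc11

open Pool.Agent.Lib.Pabc2 Pool.Agent.Lib.Pabc1

/-- `∏ p ^ F p` over the primes of `P`. -/
def Bf (P : ℕ) (F : ℕ → ℕ) : ℕ := ∏ p ∈ P.primeFactors, p ^ F p

/-- The positive part of the error. -/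
def An (r P : ℕ) (F : ℕ → ℕ) : ℕ := ∏ p ∈ P.primeFactors, p ^ (P.factorization p - r * F p)

/-- The negative part of the error. -/
def Ad (r P : ℕ) (F : ℕ → ℕ) : ℕ := ∏ p ∈ P.primeFactors, p ^ (r * F p - P.factorization p)

/-- The total error. -/
noncomputable def err (r P : ℕ) (F : ℕ → ℕ) : ℝ :=
  ∑ p ∈ P.primeFactors, |(P.factorization p : ℝ) - r * F p| * Real.log p

/-- Distance of two exponent vectors. -/
noncomputable def dst (P P' : ℕ) : ℝ :=
  ∑ p ∈ P.primeFactors ∪ P'.primeFactors,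
    |(P.factorization p : ℝ) - P'.factorization p| * Real.log p

/-- A family of pairs `(P t, Q t)` of coprime integers which are nearly `r`-th powers. -/
structure Fam {ι : Type*} (T : Finset ι) (P Q : ι → ℕ) (F : ι → ℕ → ℕ) (r n : ℕ) (H W : ℝ) :
    Prop where
  posP : ∀ t ∈ T, 0 < P t
  posQ : ∀ t ∈ T, 0 < Q t
  cop : ∀ t ∈ T, Nat.Coprime (P t) (Q t)
  inj : ∀ t ∈ T, ∀ s ∈ T, P t = P s → Q t = Q s → t = s
  logP : ∀ t ∈ T, Real.log (P t) ≤ H
  logQ : ∀ t ∈ T, Real.log (Q t) ≤ H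
  err_le : ∀ t ∈ T, err r (P t) (F t) + err r (Q t) (F t) ≤ W
  num : ∀ t ∈ T, (P t).primeFactors.card + (Q t).primeFactors.card ≤ n

theorem Fam.mono {ι : Type*} {T T' : Finset ι} {P Q : ι → ℕ} {F : ι → ℕ → ℕ} {r n : ℕ} {H W : ℝ}
    (h : Fam T P Q F r n H W) (hT : T' ⊆ T) : Fam T' P Q F r n H W :=
  ⟨fun t ht => h.posP t (hT ht), fun t ht => h.posQ t (hT ht), fun t ht => h.cop t (hT ht),
    fun t ht s hs => h.inj t (hT ht) s (hT hs), fun t ht => h.logP t (hT ht),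
    fun t ht => h.logQ t (hT ht), fun t ht => h.err_le t (hT ht), fun t ht => h.num t (hT ht)⟩

/-- The triple is an approximate `r`-th power, with total error at most `W`. -/
def Appr (r : ℕ) (W : ℝ) (t : ℕ × ℕ) : Prop :=
  ∃ F : ℕ → ℕ, ∑ p ∈ (N t).primeFactors, |(ex t p : ℝ) - r * F p| * Real.log p ≤ W

theorem BconD_ge_one (K : ℕ) : 1 ≤ BconD K := by
  unfold BconD
  have : (1 : ℝ) ≤ 2 ^ (3 * K) := one_le_pow₀ (by norm_num)
  linarith

end Pool.Agent.Lib.Pabc11
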