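import Pool.Agent.Lib.Pabc11.ClassQ
import Pool.Agent.Lib.Pabc13.Unb
import Pool.Agent.Lib.Pabc11.Struct
import Pool.Agent.Lib.Pabc9.ThmEProof

/-!
# Tall triples: assembly
-/

open Finset Filter

namespace Pool.Agent.Lib.Pabc11

open Pool.Agent.Lib.Pabc2 Pool.Agent.Lib.Pabc1

/-- `m` is a product of `k` powers `x i ^ e i` and of a factor `s` with a small radical. -/
def Shape (n : ℕ) (η : ℝ) (k m : ℕ) : Prop :=
  ∃ (s : ℕ) (x e : Fin k → ℕ), 0 < s ∧ (∀ i, 0 < x i) ∧ m = s * ∏ i, x i ^ e i ∧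
    ((∏ p ∈ s.primeFactors, p : ℕ) : ℝ) ≤ (n : ℝ) ^ η ∧
    (∏ p ∈ s.primeFactors, p) * ∏ i, x i ≤ n

theorem rad_pos (s : ℕ) : 0 < ∏ p ∈ s.primeFactors, p :=
  Finset.prod_pos fun _ hp => (Nat.prime_of_mem_primeFactors hp).pos

theorem rd_le_of_shape {n : ℕ} {η : ℝ} {k : ℕ} {t : ℕ × ℕ} (h : Shape n η k (N t)) :
    rd t ≤ n := by
  obtain ⟨s, x, e, hs, hx, hN, _, hle⟩ := h
  refine le_trans (Nat.le_of_dvd (Nat.mul_pos (rad_pos s) (Finset.prod_pos fun i _ => hx i)) ?_) hle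
  unfold rd
  refine Finset.prod_primes_dvd _ (fun p hp => (Nat.prime_of_mem_primeFactors hp).prime) ?_
  intro p hp
  have hpp := Nat.prime_of_mem_primeFactors hp
  have hd := Nat.dvd_of_mem_primeFactors hp
  rw [hN] at hd
  rcases (hpp.dvd_mul).1 hd with h1 | h1
  · exact Dvd.dvd.mul_right (Finset.dvd_prod_of_mem (fun p => p)
      (Nat.mem_primeFactors.2 ⟨hpp, h1, hs.ne'⟩)) _
  · obtain ⟨i, _, hi⟩ := (Prime.dvd_finsetProd_iff hpp.prime _).1 h1
    exact Dvd.dvd.mul_left ((hpp.dvd_of_dvd_pow hi).trans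
      (Finset.dvd_prod_of_mem x (Finset.mem_univ i))) _

/-- The triple is unbalanced, or a member has a large divisor of radical at most `z`. -/
def Small (δ z : ℝ) (t : ℕ × ℕ) : Prop :=
  Real.log t.1 ≤ (1 - δ) * ht t ∨
    ∃ (l : Fin 3) (D : ℕ), D ∣ comp t l ∧ (∏ p ∈ D.primeFactors, (p : ℝ)) ≤ z ∧
      δ * ht t ≤ Real.log D

/-- Both kinds of triples of one class. -/
theorem count_class (δ ε : ℝ) (hδ : 0 < δ) (hδ1 : δ ≤ 1) (hε : 0 < ε) (hε1 : ε ≤ 1) :
    ∃ η K' R0 : ℝ, 0 < η ∧ η ≤ 1 ∧ 1 ≤ K' ∧ 1 ≤ R0 ∧ ∀ᶠ n : ℕ in atTop,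
      ∀ (z H : ℝ) (r : ℕ) (T : Finset (ℕ × ℕ)), 1 ≤ z → R0 ≤ r → K' * r * Real.log n ≤ H →
      (∀ t ∈ T, IsT t ∧ rd t ≤ n ∧ H ≤ ht t ∧ ht t ≤ 2 * H ∧
        Appr r (η * r * Real.log n) t ∧ Small δ z t) →
      (T.card : ℝ) ≤ 2 * (z * (n : ℝ) ^ ε) := by
  classical
  obtain ⟨q, hq⟩ : ∃ q : ℕ, q = ⌈1 / δ⌉₊ := ⟨_, rfl⟩
  have hq0 : 1 / δ ≤ q := hq ▸ Nat.le_ceil _
  have hq1 : (1 : ℝ) ≤ q := by
    refine le_trans ?_ hq0
    rw [le_div_iff₀ hδ]
    linarith
  have hq1' : 1 ≤ q := by exact_mod_cast hq1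
  have hqδ : 1 ≤ δ * q := by
    rw [div_le_iff₀ hδ] at hq0
    linarith
  obtain ⟨η1, K1, R1, hη1, hη1', hK1, hR1, h1⟩ := count_divisor q hq1' ε hε hε1
  obtain ⟨η2, K2, R2, hη2, hη2', hK2, hR2, h2⟩ := Pabc13.count_unbalanced_gen δ ε hδ hδ1 hε hε1
  refine ⟨min η1 η2, max K1 K2, max R1 R2, lt_min hη1 hη2, (min_le_left _ _).trans hη1',
    le_max_of_le_left hK1, le_max_of_le_left hR1, ?_⟩
  filter_upwards [h1, h2, eventually_ge_atTop 1] with n h1 h2 hn z H r T hz hR hK hT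
  have hn1 : (1 : ℝ) ≤ n := by exact_mod_cast hn
  have hx : 0 ≤ Real.log (n : ℝ) := Real.log_nonneg hn1
  have hr0 : (0 : ℝ) ≤ r := Nat.cast_nonneg r
  have hrx : 0 ≤ (r : ℝ) * Real.log n := mul_nonneg hr0 hx
  have hK10 : 0 ≤ max K1 K2 * r * Real.log n := by
    rw [mul_assoc]
    exact mul_nonneg (le_trans zero_le_one (le_max_of_le_left hK1)) hrx
  have hH0 : 0 ≤ H := hK10.trans hK
  have e1 := h1 z H r (T.filter (fun t => ¬ Real.log t.1 ≤ (1 - δ) * ht t)) (by linarith)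
    ((le_max_left _ _).trans hR)
    (by
      refine le_trans ?_ hK
      rw [mul_assoc, mul_assoc]
      exact mul_le_mul_of_nonneg_right (le_max_left _ _) hrx) (by
      intro t ht'
      rw [Finset.mem_filter] at ht'
      obtain ⟨a1, a2, a3, a4, ⟨F, a5⟩, a6⟩ := hT t ht'.1
      refine ⟨a1, a2, a4, ⟨F, a5.trans ?_⟩, ?_⟩
      · rw [mul_assoc, mul_assoc]
        exact mul_le_mul_of_nonneg_right (min_le_left _ _) hrx
      · rcases a6 with a6 | ⟨l, D, a6, a7, a8⟩
        · exact absurd a6 ht'.2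
        · refine ⟨l, D, a6, a7, le_trans ?_ a8⟩
          rw [div_le_iff₀ (by linarith)]
          have : H ≤ ht t * (δ * q) := by nlinarith
          linarith)
  have e2 := h2 H r (T.filter (fun t => Real.log t.1 ≤ (1 - δ) * ht t))
    ((le_max_right _ _).trans hR)
    (by
      refine le_trans ?_ hK
      rw [mul_assoc, mul_assoc]
      exact mul_le_mul_of_nonneg_right (le_max_right _ _) hrx) (by
      intro t ht'
      rw [Finset.mem_filter] at ht'
      obtain ⟨a1, a2, a3, a4, ⟨F, a5⟩, _⟩ := hT t ht'.1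
      refine ⟨a1, a3, a4, ht'.2, F, a5.trans ?_⟩
      rw [mul_assoc, mul_assoc]
      exact mul_le_mul_of_nonneg_right (min_le_right _ _) hrx)
  have hcard : (T.card : ℝ) = (T.filter (fun t => Real.log t.1 ≤ (1 - δ) * ht t)).card +
      (T.filter (fun t => ¬ Real.log t.1 ≤ (1 - δ) * ht t)).card := by
    exact_mod_cast (Finset.card_filter_add_card_filter_not (s := T)
      (fun t => Real.log t.1 ≤ (1 - δ) * ht t)).symm
  have e3 : (n : ℝ) ^ ε ≤ z * (n : ℝ) ^ ε := by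
    have h0 : 0 ≤ (n : ℝ) ^ ε := by positivity
    nlinarith
  linarith

/-- The smallest radical of the three members is at most `n ^ (1/3)`. -/
theorem small_third {n : ℕ} {t : ℕ × ℕ} {δ : ℝ} (h : IsT t) (hr : rd t ≤ n) (hδ1 : δ ≤ 1 / 2) :
    Small δ ((n : ℝ) ^ (1 / 3 : ℝ)) t := by
  unfold Small
  by_cases hb : Real.log t.1 ≤ (1 - δ) * ht t
  · exact Or.inl hb
  · right
    obtain ⟨l, hl⟩ := cb_exists_lab h hr
    refine ⟨l, comp t l, dvd_rfl, hl, ?_⟩
    have h1 := cb_log_comp_ge h l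
    have h2 : 0 ≤ ht t := by
      have := log_a_le h
      have h3 : (1 : ℝ) ≤ t.1 := by exact_mod_cast h.1
      have h4 := Real.log_nonneg h3
      linarith
    nlinarith [not_le.1 hb]

/-- `log c ≤ n ^ 3` for the triples of radical at most `n`. -/
theorem height_three : ∀ᶠ n : ℕ in atTop, ∀ t : ℕ × ℕ, IsT t → rd t ≤ n →
    ht t ≤ (n : ℝ) ^ 3 := by
  filter_upwards [Pabc9.height Pabc9.thmE 1 one_pos, eventually_ge_atTop 1] with n hn hn1 t hI hrd
  obtain ⟨R, hR⟩ := Pabc9.exists_prime hI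
  refine (hn t hI hrd R hR).trans ?_
  have hn0 : (0 : ℝ) ≤ n := Nat.cast_nonneg n
  have h1 : ∏ p ∈ (N t).primeFactors.erase R, (p : ℝ) ≤ n := by
    have h2 : ∏ p ∈ (N t).primeFactors.erase R, p ≤ rd t := by
      unfold rd
      rw [← Finset.mul_prod_erase _ (fun p => p) hR]
      exact Nat.le_mul_of_pos_left _ (Nat.prime_of_mem_primeFactors hR).pos
    have h3 := h2.trans hrd
    rw [← Nat.cast_prod]
    exact Nat.cast_le.2 h3
  have h0 : 0 ≤ ∏ p ∈ (N t).primeFactors.erase R, (p : ℝ) :=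
    Finset.prod_nonneg fun p _ => Nat.cast_nonneg p
  rw [Real.rpow_one]
  calc (∏ p ∈ (N t).primeFactors.erase R, (p : ℝ)) ^ 2 * n ≤ (n : ℝ) ^ 2 * n := by gcongr
    _ = (n : ℝ) ^ 3 := by ring

theorem log_N_le {t : ℕ × ℕ} (h : IsT t) : Real.log (N t : ℝ) ≤ 3 * ht t := by
  have ha : (t.1 : ℝ) ≠ 0 := by exact_mod_cast h.1.ne'
  have hb : (t.2 : ℝ) ≠ 0 := by exact_mod_cast h.pos2.ne'
  have hc : ((t.1 : ℝ) + t.2) ≠ 0 := by
    have h1 : (0 : ℝ) < t.1 := by exact_mod_cast h.1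
    have h2 : (0 : ℝ) < t.2 := by exact_mod_cast h.pos2
    positivity
  have e1 : Real.log (N t : ℝ) = Real.log t.1 + Real.log t.2 + ht t := by
    unfold N ht
    push_cast
    rw [Real.log_mul (mul_ne_zero ha hb) hc, Real.log_mul ha hb]
  have := log_a_le h
  have := log_b_le h
  linarith

/-- The main counting theorem. -/
theorem main_shape (ε δ0 : ℝ) (hε : 0 < ε) (hδ00 : 0 < δ0) (hδ01 : δ0 ≤ 1) :
    ∃ η C : ℝ, 0 < η ∧ 1 ≤ C ∧ ∀ᶠ n : ℕ in atTop, ∀ (z : ℝ) (T : Finset (ℕ × ℕ)), 1 ≤ z →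
      (∀ t ∈ T, IsT t ∧ Small δ0 z t ∧ ∃ k, Shape n η k (N t) ∧ C ^ (k + 1) * Real.log n ≤ ht t) →
      2 * (T.card : ℝ) ≤ z * (n : ℝ) ^ ε := by
  classical
  set δ : ℝ := min (ε / 4) 1 with hδ
  have hδ0 : 0 < δ := lt_min (by positivity) one_pos
  have hδ1 : δ ≤ 1 := min_le_right _ _
  have hδε : δ ≤ ε / 4 := min_le_left _ _
  obtain ⟨η3, K', R0, hη3, hη31, hK', hR0, hclass⟩ := count_class δ0 δ hδ00 hδ01 hδ0 hδ1
  obtain ⟨Q, C0, hQ, hC0, hstruct⟩ := struct_approx η3 K' R0 hη3 hη31 hK' hR0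
  obtain ⟨m0, hm0⟩ := exists_nat_gt (3 / δ)
  have hQ1 : (1 : ℝ) ≤ Q := by exact_mod_cast hQ
  set C : ℝ := 2 * C0 * (Q : ℝ) ^ (m0 + 2) with hC
  have hQm : (1 : ℝ) ≤ (Q : ℝ) ^ (m0 + 2) := one_le_pow₀ hQ1
  have hC1 : 1 ≤ C := by rw [hC]; nlinarith
  refine ⟨η3 / 2, C, by positivity, hC1, ?_⟩
  have hev : ∀ᶠ n : ℕ in atTop, 2 * ((5 * Real.log n + 1) * 2) ≤ (n : ℝ) ^ δ := by
    filter_upwards [Pabc9.ev_poly_log 20 1 δ hδ0,
      (Real.tendsto_log_atTop.comp tendsto_natCast_atTop_atTop).eventually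
        (eventually_ge_atTop 0)] with n hn h0
    simp only [Function.comp_apply] at h0
    refine le_trans ?_ hn
    rw [pow_one]
    linarith
  filter_upwards [hclass, height_three, hev, eventually_ge_atTop 3] with n hclass hht hev hn3 z T hz
    hT
  have hn1 : (1 : ℝ) ≤ n := by
    have : 1 ≤ n := by omega
    exact_mod_cast this
  have hn0 : (0 : ℝ) < n := by linarith
  set X : ℝ := Real.log n with hX
  have hX1 : 1 ≤ X := by
    rw [hX, Real.le_log_iff_exp_le hn0]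
    have h1 := Real.exp_one_lt_d9
    have h2 : (3 : ℝ) ≤ n := by exact_mod_cast hn3
    linarith
  have hX0 : 0 < X := by linarith
  set I : ℕ := ⌊5 * X⌋₊ + 1 with hI
  set J : ℕ := ⌊(n : ℝ) ^ δ⌋₊ with hJ
  set ρ : ℕ → ℕ → ℕ := fun i j => ⌊(2 : ℝ) ^ i / (K' * X * j)⌋₊ with hρ
  set G : ℕ × ℕ → Finset (ℕ × ℕ) := fun ij => T.filter (fun t =>
    (2 : ℝ) ^ ij.1 ≤ ht t ∧ ht t ≤ 2 * 2 ^ ij.1 ∧ R0 ≤ (ρ ij.1 ij.2 : ℝ) ∧
      Appr (ρ ij.1 ij.2) (η3 * (ρ ij.1 ij.2 : ℝ) * X) t) with hG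
  have hcov : T ⊆ (Finset.range I ×ˢ Finset.Icc 1 J).biUnion G := by
    intro t ht'
    obtain ⟨hIt, _, k, hshape, hbig⟩ := hT t ht'
    have hrd := rd_le_of_shape hshape
    have hh3 := hht t hIt hrd
    have hCk : (1 : ℝ) ≤ C ^ (k + 1) := one_le_pow₀ hC1
    have hht1 : 1 ≤ ht t := by nlinarith
    -- the dyadic class
    set f : ℕ := ⌊ht t⌋₊ with hf
    have hf1 : 1 ≤ f := by
      rw [hf, Nat.one_le_floor_iff]
      exact hht1
    set i : ℕ := Nat.log 2 f with hi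
    have hi1 : (2 : ℝ) ^ i ≤ ht t := by
      have h1 : 2 ^ i ≤ f := Nat.pow_log_le_self 2 (by omega)
      have h2 : ((2 ^ i : ℕ) : ℝ) ≤ f := by exact_mod_cast h1
      push_cast at h2
      exact h2.trans (Nat.floor_le (by linarith))
    have hi2 : ht t ≤ 2 * 2 ^ i := by
      have h1 : f < 2 ^ (i + 1) := Nat.lt_pow_succ_log_self (by norm_num) f
      have h2 : ((f + 1 : ℕ) : ℝ) ≤ ((2 ^ (i + 1) : ℕ) : ℝ) := by exact_mod_cast h1
      push_cast at h2
      have h3 := (Nat.lt_floor_add_one (ht t)).le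
      rw [← hf] at h3
      have h4 : (2 : ℝ) ^ (i + 1) = 2 * 2 ^ i := by ring
      linarith
    have hiI : i < I := by
      have h1 : (2 : ℝ) ^ i ≤ (n : ℝ) ^ 3 := hi1.trans hh3
      have h2 := Real.log_le_log (by positivity) h1
      rw [Real.log_pow, Real.log_pow, ← hX] at h2
      have h3 := Real.log_two_gt_d9
      have h4 : (i : ℝ) ≤ 5 * X := by
        push_cast at h2
        nlinarith [Nat.cast_nonneg (α := ℝ) i]
      have h5 : i ≤ ⌊5 * X⌋₊ := Nat.le_floor h4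
      omega
    obtain ⟨s, x, e, hs, hx, hN, hrads, hle⟩ := hshape
    -- apply the structure lemma
    have hradpos := rad_pos s
    have hxpos : ∀ i, (0 : ℝ) < x i := fun i => by exact_mod_cast hx i
    have hsumx : ∑ i, Real.log (x i) ≤ X := by
      have h1 : (∏ i, x i) ≤ n := (Nat.le_mul_of_pos_left _ hradpos).trans hle
      have h2 : ((∏ i, x i : ℕ) : ℝ) ≤ n := by exact_mod_cast h1
      have h3 : (0 : ℝ) < ((∏ i, x i : ℕ) : ℝ) := by
        exact_mod_cast Finset.prod_pos fun i _ => hx i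
      have h4 := Real.log_le_log h3 h2
      push_cast at h4
      rwa [Real.log_prod (fun i _ => (hxpos i).ne')] at h4
    have hradlog : Real.log ((∏ p ∈ s.primeFactors, p : ℕ) : ℝ) ≤ η3 / 2 * X := by
      have h1 := Real.log_le_log (by exact_mod_cast hradpos) hrads
      rwa [Real.log_rpow hn0] at h1
    have hlogN : Real.log (N t : ℝ) ≤ 6 * 2 ^ i := by
      have := log_N_le hIt
      linarith
    have hQk : C0 * (Q : ℝ) ^ (2 * k) * X ≤ 2 ^ i := by
      have h1 : 2 * C0 * (Q : ℝ) ^ (2 * k) ≤ C ^ (k + 1) := by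
        rw [hC, mul_pow, ← pow_mul]
        have h2 : (2 * C0) ≤ (2 * C0) ^ (k + 1) := by
          have h3 : 1 ≤ (2 * C0) ^ k := one_le_pow₀ (by linarith)
          rw [pow_succ]
          nlinarith
        have h4 : (Q : ℝ) ^ (2 * k) ≤ (Q : ℝ) ^ ((m0 + 2) * (k + 1)) := by
          apply pow_le_pow_right₀ hQ1
          nlinarith
        calc 2 * C0 * (Q : ℝ) ^ (2 * k) ≤ (2 * C0) ^ (k + 1) * (Q : ℝ) ^ (2 * k) :=
              mul_le_mul_of_nonneg_right h2 (by positivity)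
          _ ≤ (2 * C0) ^ (k + 1) * (Q : ℝ) ^ ((m0 + 2) * (k + 1)) :=
              mul_le_mul_of_nonneg_left h4 (by positivity)
      have h2 : 2 * C0 * (Q : ℝ) ^ (2 * k) * X ≤ 2 * 2 ^ i := by
        calc 2 * C0 * (Q : ℝ) ^ (2 * k) * X ≤ C ^ (k + 1) * X :=
              mul_le_mul_of_nonneg_right h1 hX0.le
          _ ≤ ht t := hbig
          _ ≤ _ := hi2
      linarith
    obtain ⟨j, hj1, hjQ, hjR, F, hF⟩ := hstruct k x e s (N t) X (2 ^ i) hs hx hN hX1 hsumx hradlog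
      hlogN hQk
    have hjJ : j ≤ J := by
      have h1 : ((Q : ℝ) ^ k) ^ m0 ≤ (n : ℝ) ^ 3 := by
        have h2 : ((Q : ℝ) ^ k) ^ m0 ≤ C ^ (k + 1) := by
          rw [hC, mul_pow, ← pow_mul, ← pow_mul]
          have h3 : (1 : ℝ) ≤ (2 * C0) ^ (k + 1) := one_le_pow₀ (by linarith)
          have h4 : (Q : ℝ) ^ (k * m0) ≤ (Q : ℝ) ^ ((m0 + 2) * (k + 1)) := by
            apply pow_le_pow_right₀ hQ1
            nlinarith
          have h5 : (0 : ℝ) ≤ (Q : ℝ) ^ ((m0 + 2) * (k + 1)) := by positivity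
          nlinarith
        have h3 : C ^ (k + 1) ≤ C ^ (k + 1) * X := by nlinarith
        linarith
      have hm0pos : (0 : ℝ) < m0 := lt_trans (by positivity) hm0
      have h2 : (Q : ℝ) ^ k ≤ (n : ℝ) ^ δ := by
        have h3 : ((Q : ℝ) ^ k) ^ m0 ≤ ((n : ℝ) ^ δ) ^ m0 := by
          refine h1.trans ?_
          rw [← Real.rpow_natCast (n : ℝ) 3, ← Real.rpow_natCast ((n : ℝ) ^ δ) m0,
            ← Real.rpow_mul hn0.le]
          apply Real.rpow_le_rpow_of_exponent_le hn1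
          rw [div_lt_iff₀ hδ0] at hm0
          push_cast
          nlinarith
        have hm0' : m0 ≠ 0 := by
          intro h
          rw [h] at hm0pos
          simp at hm0pos
        exact le_of_pow_le_pow_left₀ hm0' (by positivity) h3
      have h4 : (j : ℝ) ≤ (n : ℝ) ^ δ := by
        have h5 : (j : ℝ) ≤ (Q : ℝ) ^ k := by exact_mod_cast hjQ
        exact h5.trans h2
      exact Nat.le_floor h4
    rw [Finset.mem_biUnion]
    refine ⟨(i, j), ?_, ?_⟩
    · rw [Finset.mem_product, Finset.mem_range, Finset.mem_Icc]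
      exact ⟨hiI, hj1, hjJ⟩
    · rw [hG, Finset.mem_filter]
      exact ⟨ht', hi1, hi2, hjR, F, hF⟩
  have hGcard : ∀ ij ∈ Finset.range I ×ˢ Finset.Icc 1 J,
      ((G ij).card : ℝ) ≤ 2 * (z * (n : ℝ) ^ δ) := by
    rintro ⟨i, j⟩ hij
    rw [Finset.mem_product, Finset.mem_Icc] at hij
    by_cases hR : R0 ≤ (ρ i j : ℝ)
    · refine hclass z (2 ^ i) (ρ i j) (G (i, j)) hz hR ?_ ?_
      · have hj1 : (1 : ℝ) ≤ j := by exact_mod_cast hij.2.1
        have h1 : (ρ i j : ℝ) ≤ 2 ^ i / (K' * X * j) := Nat.floor_le (by positivity)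
        have hKX : 0 < K' * X * j := by positivity
        rw [le_div_iff₀ hKX] at h1
        have h2 : (ρ i j : ℝ) * (K' * X) ≤ (ρ i j : ℝ) * (K' * X * j) := by
          apply mul_le_mul_of_nonneg_left _ (Nat.cast_nonneg _)
          have : 0 < K' * X := by positivity
          nlinarith
        calc K' * (ρ i j : ℝ) * X = (ρ i j : ℝ) * (K' * X) := by ring
          _ ≤ 2 ^ i := h2.trans h1
      · intro t ht'
        rw [hG, Finset.mem_filter] at ht'
        obtain ⟨hIt, hsm, k, hshape, _⟩ := hT t ht'.1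
        exact ⟨hIt, rd_le_of_shape hshape, ht'.2.1, ht'.2.2.1, ht'.2.2.2.2, hsm⟩
    · have : G (i, j) = ∅ := by
        rw [hG]
        apply Finset.filter_false_of_mem
        intro t _ h
        exact hR h.2.2.1
      rw [this]
      simp only [Finset.card_empty, Nat.cast_zero]
      positivity
  have h1 : (T.card : ℝ) ≤ (I * J) * (2 * (z * (n : ℝ) ^ δ)) := by
    calc (T.card : ℝ) ≤ (((Finset.range I ×ˢ Finset.Icc 1 J).biUnion G).card : ℝ) := by
          exact_mod_cast Finset.card_le_card hcov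
      _ ≤ ∑ ij ∈ Finset.range I ×ˢ Finset.Icc 1 J, ((G ij).card : ℝ) := by
          exact_mod_cast Finset.card_biUnion_le
      _ ≤ ∑ _ij ∈ Finset.range I ×ˢ Finset.Icc 1 J, 2 * (z * (n : ℝ) ^ δ) :=
          Finset.sum_le_sum hGcard
      _ = (I * J) * (2 * (z * (n : ℝ) ^ δ)) := by
          rw [Finset.sum_const, Finset.card_product, Finset.card_range, Nat.card_Icc,
            nsmul_eq_mul]
          push_cast
          norm_num
  have hIle : (I : ℝ) ≤ 5 * X + 1 := by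
    rw [hI]
    push_cast
    have := Nat.floor_le (show 0 ≤ 5 * X by positivity)
    linarith
  have hJle : (J : ℝ) ≤ (n : ℝ) ^ δ := Nat.floor_le (by positivity)
  have hI0 : (0 : ℝ) ≤ I := Nat.cast_nonneg I
  have hJ0 : (0 : ℝ) ≤ J := Nat.cast_nonneg J
  have hz0 : 0 < z := by linarith
  calc 2 * (T.card : ℝ) ≤ 2 * ((I * J) * (2 * (z * (n : ℝ) ^ δ))) := by linarith
    _ ≤ 2 * (((5 * X + 1) * (n : ℝ) ^ δ) * (2 * (z * (n : ℝ) ^ δ))) := by gcongr
    _ = (2 * ((5 * X + 1) * 2)) * (z * ((n : ℝ) ^ δ * (n : ℝ) ^ δ)) := by ring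
    _ ≤ (n : ℝ) ^ δ * (z * ((n : ℝ) ^ δ * (n : ℝ) ^ δ)) := by gcongr
    _ = z * (n : ℝ) ^ (3 * δ) := by
        have e : (n : ℝ) ^ (3 * δ) = (n : ℝ) ^ δ * ((n : ℝ) ^ δ * (n : ℝ) ^ δ) := by
          rw [← Real.rpow_add hn0, ← Real.rpow_add hn0]
          congr 1
          ring
        rw [e]
        ring
    _ ≤ z * (n : ℝ) ^ ε := by
        apply mul_le_mul_of_nonneg_left _ hz0.le
        apply Real.rpow_le_rpow_of_exponent_le hn1
        linarith

/-- The number of prime factors. -/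
theorem ev_card : ∀ᶠ n : ℕ in atTop, ∀ S : Finset ℕ, (∀ p ∈ S, 2 ≤ p) →
    (∏ p ∈ S, (p : ℝ)) ≤ n → (S.card : ℝ) ≤ 3 * (Real.log n / Real.log (Real.log n)) := by
  have hlog : Tendsto (fun n : ℕ => Real.log (n : ℝ)) atTop atTop :=
    Real.tendsto_log_atTop.comp tendsto_natCast_atTop_atTop
  have hll : Tendsto (fun n : ℕ => Real.log (Real.log (n : ℝ))) atTop atTop :=
    Real.tendsto_log_atTop.comp hlog
  have hL : ∀ᶠ x : ℝ in atTop, Real.log x ^ 2 ≤ x / 4 := by
    have h1 := (Real.isLittleO_pow_log_id_atTop (n := 2)).bound (show (0 : ℝ) < 1 / 4 by norm_num)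
    filter_upwards [h1, eventually_ge_atTop 1] with x hx hx1
    have h2 : 0 ≤ Real.log x := Real.log_nonneg hx1
    simp only [id, Real.norm_eq_abs] at hx
    rw [abs_of_nonneg (by positivity), abs_of_nonneg (by linarith)] at hx
    linarith
  filter_upwards [hlog.eventually hL, hlog.eventually (eventually_ge_atTop 16),
    hll.eventually (eventually_ge_atTop 1), eventually_ge_atTop 1] with n h1 h2 h3 hn1 S hS hprod
  set x : ℝ := Real.log n with hx
  set y : ℝ := Real.sqrt x with hy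
  have hx0 : 0 < x := by linarith
  have hy0 : 0 < y := Real.sqrt_pos.2 hx0
  have hyy : y * y = x := Real.mul_self_sqrt hx0.le
  have hlogy : Real.log y = Real.log x / 2 := by
    rw [hy, Real.log_sqrt hx0.le]
  have hl0 : 0 < Real.log x := by linarith
  -- large primes
  have hbig : ((S.filter (fun p : ℕ => y ≤ p)).card : ℝ) ≤ 2 * (x / Real.log x) := by
    have e1 : ((S.filter (fun p : ℕ => y ≤ p)).card : ℝ) * Real.log y ≤ x := by
      calc ((S.filter (fun p : ℕ => y ≤ p)).card : ℝ) * Real.log y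
          = ∑ _p ∈ S.filter (fun p : ℕ => y ≤ p), Real.log y := by
            rw [Finset.sum_const, nsmul_eq_mul]
        _ ≤ ∑ p ∈ S.filter (fun p : ℕ => y ≤ p), Real.log (p : ℝ) := by
            apply Finset.sum_le_sum
            intro p hp
            exact Real.log_le_log hy0 (Finset.mem_filter.1 hp).2
        _ ≤ ∑ p ∈ S, Real.log (p : ℝ) := by
            apply Finset.sum_le_sum_of_subset_of_nonneg (Finset.filter_subset _ _)
            intro p _ _
            exact Real.log_natCast_nonneg p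
        _ = Real.log (∏ p ∈ S, (p : ℝ)) := by
            rw [Real.log_prod]
            intro p hp
            have := hS p hp
            have h4 : (2 : ℝ) ≤ p := by exact_mod_cast this
            linarith
        _ ≤ x := by
            apply Real.log_le_log _ hprod
            apply Finset.prod_pos
            intro p hp
            have := hS p hp
            have h4 : (2 : ℝ) ≤ p := by exact_mod_cast this
            linarith
    rw [hlogy] at e1
    rw [← mul_div_assoc, le_div_iff₀ hl0]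
    linarith
  -- small primes
  have hsmall : ((S.filter (fun p : ℕ => ¬ y ≤ p)).card : ℝ) ≤ y + 1 := by
    have e1 : S.filter (fun p : ℕ => ¬ y ≤ p) ⊆ Finset.range (⌊y⌋₊ + 1) := by
      intro p hp
      have h4 := not_le.1 (Finset.mem_filter.1 hp).2
      rw [Finset.mem_range]
      have h5 : p ≤ ⌊y⌋₊ := Nat.le_floor h4.le
      omega
    have e2 := Finset.card_le_card e1
    rw [Finset.card_range] at e2
    have e3 : ((S.filter (fun p : ℕ => ¬ y ≤ p)).card : ℝ) ≤ ((⌊y⌋₊ + 1 : ℕ) : ℝ) := by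
      exact_mod_cast e2
    push_cast at e3
    have := Nat.floor_le hy0.le
    linarith
  have hy1 : y + 1 ≤ x / Real.log x := by
    rw [le_div_iff₀ hl0]
    -- log x ≤ y / 2
    have h4 : Real.log x ≤ y / 2 := by
      have h5 : Real.log x ^ 2 ≤ (y / 2) ^ 2 := by
        calc Real.log x ^ 2 ≤ x / 4 := h1
          _ = (y / 2) ^ 2 := by rw [div_pow, pow_two y, hyy]; norm_num
      exact (abs_le_of_sq_le_sq' h5 (by positivity)).2
    have h6 : 1 ≤ y := by nlinarith
    nlinarith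
  have hcard : (S.card : ℝ) = (S.filter (fun p : ℕ => y ≤ p)).card +
      (S.filter (fun p : ℕ => ¬ y ≤ p)).card := by
    exact_mod_cast (Finset.card_filter_add_card_filter_not (s := S) (fun p : ℕ => y ≤ p)).symm
  linarith

/-- Tall triples: the structure condition holds automatically with `k` = number of primes. -/
theorem shape_of_tall (η C : ℝ) (hη : 0 < η) (hC : 1 ≤ C) :
    ∃ K : ℝ, 0 < K ∧ ∀ᶠ n : ℕ in atTop, ∀ t : ℕ × ℕ, IsT t → rd t ≤ n →
      (n : ℝ) ^ (K / Real.log (Real.log n)) ≤ ht t →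
      ∃ k, Shape n η k (N t) ∧ C ^ (k + 1) * Real.log n ≤ ht t := by
  have hlC : 0 ≤ Real.log C := Real.log_nonneg hC
  refine ⟨4 * Real.log C + 1, by linarith, ?_⟩
  have hlog : Tendsto (fun n : ℕ => Real.log (n : ℝ)) atTop atTop :=
    Real.tendsto_log_atTop.comp tendsto_natCast_atTop_atTop
  have hll : Tendsto (fun n : ℕ => Real.log (Real.log (n : ℝ))) atTop atTop :=
    Real.tendsto_log_atTop.comp hlog
  have hL : ∀ᶠ x : ℝ in atTop, Real.log x ^ 2 ≤ x := by
    have h1 := (Real.isLittleO_pow_log_id_atTop (n := 2)).bound (show (0 : ℝ) < 1 by norm_num)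
    filter_upwards [h1, eventually_ge_atTop 1] with x hx hx1
    have h2 : 0 ≤ Real.log x := Real.log_nonneg hx1
    simp only [id, Real.norm_eq_abs] at hx
    rw [abs_of_nonneg (by positivity), abs_of_nonneg (by linarith)] at hx
    linarith
  filter_upwards [ev_card, hlog.eventually hL, hlog.eventually (eventually_ge_atTop 1),
    hll.eventually (eventually_ge_atTop 1), eventually_ge_atTop 1]
    with n hcard h1 h2 h3 hn1 t hI hrd hht
  have hn1' : (1 : ℝ) ≤ n := by exact_mod_cast hn1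
  have hn0 : (0 : ℝ) < n := by linarith
  set S := (N t).primeFactors with hS
  have hp2 : ∀ p ∈ S, 2 ≤ p := fun p hp => (Nat.prime_of_mem_primeFactors hp).two_le
  refine ⟨S.card, ?_, ?_⟩
  · set φ := S.equivFin with hφ
    refine ⟨1, fun i => (φ.symm i : ℕ), fun i => (N t).factorization (φ.symm i : ℕ), one_pos,
      fun i => (Nat.prime_of_mem_primeFactors (φ.symm i).2).pos, ?_, ?_, ?_⟩
    · rw [one_mul]
      have h1 : ∏ i, (φ.symm i : ℕ) ^ (N t).factorization (φ.symm i : ℕ) =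
          ∏ p : S, (p : ℕ) ^ (N t).factorization (p : ℕ) :=
        Equiv.prod_comp φ.symm (fun p : S => (p : ℕ) ^ (N t).factorization (p : ℕ))
      rw [h1, Finset.prod_coe_sort S (fun p => p ^ (N t).factorization p)]
      have h2 := Nat.prod_factorization_pow_eq_self hI.N_ne
      rw [Finsupp.prod, Nat.support_factorization] at h2
      exact h2.symm
    · simp only [Nat.primeFactors_one, Finset.prod_empty, Nat.cast_one]
      exact Real.one_le_rpow hn1' hη.le
    · simp only [Nat.primeFactors_one, Finset.prod_empty, one_mul]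
      have h1 : ∏ i, (φ.symm i : ℕ) = ∏ p : S, (p : ℕ) :=
        Equiv.prod_comp φ.symm (fun p : S => (p : ℕ))
      rw [h1, Finset.prod_coe_sort S (fun p => p)]
      exact hrd
  · have h4 : ∏ p ∈ S, (p : ℝ) ≤ n := by
      unfold rd at hrd
      rw [← Nat.cast_prod]
      exact Nat.cast_le.2 hrd
    have h5 := hcard S hp2 h4
    refine le_trans ?_ hht
    set x : ℝ := Real.log n with hx
    have hx0 : 0 < x := by linarith
    have hl0 : 0 < Real.log x := by linarith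
    have hCpos : 0 < C := by linarith
    rw [Real.rpow_def_of_pos hn0, ← hx]
    have e1 : C ^ (S.card + 1) * x = Real.exp ((S.card + 1 : ℝ) * Real.log C + Real.log x) := by
      rw [Real.exp_add, Real.exp_log hx0, mul_comm ((S.card : ℝ) + 1), ← Real.rpow_def_of_pos hCpos]
      congr 1
      rw [← Real.rpow_natCast]
      push_cast
      rfl
    rw [e1]
    apply Real.exp_le_exp.2
    have e2 : x * ((4 * Real.log C + 1) / Real.log x) =
        (4 * Real.log C + 1) * (x / Real.log x) := by ring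
    rw [e2]
    have e3 : Real.log x ≤ x / Real.log x := by
      rw [le_div_iff₀ hl0]
      nlinarith
    have e4 : 1 ≤ x / Real.log x := h3.trans e3
    have e5 : ((S.card : ℝ) + 1) * Real.log C ≤ 4 * (x / Real.log x) * Real.log C :=
      mul_le_mul_of_nonneg_right (by linarith) hlC
    nlinarith

end Pool.Agent.Lib.Pabc11
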