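import Pool.Agent.Lib.Pabc11.Setup

/-!
# Approximation by `r`-th powers: elementary properties
-/

open Finset

namespace Pool.Agent.Lib.Pabc11

theorem Bf_pos (P : ℕ) (F : ℕ → ℕ) : 0 < Bf P F :=
  Finset.prod_pos fun _ hp => pow_pos (Nat.prime_of_mem_primeFactors hp).pos _

theorem An_pos (r P : ℕ) (F : ℕ → ℕ) : 0 < An r P F :=
  Finset.prod_pos fun _ hp => pow_pos (Nat.prime_of_mem_primeFactors hp).pos _

theorem Ad_pos (r P : ℕ) (F : ℕ → ℕ) : 0 < Ad r P F :=
  Finset.prod_pos fun _ hp => pow_pos (Nat.prime_of_mem_primeFactors hp).pos _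

theorem err_nonneg (r P : ℕ) (F : ℕ → ℕ) : 0 ≤ err r P F :=
  Finset.sum_nonneg fun _ _ => mul_nonneg (abs_nonneg _) (Real.log_natCast_nonneg _)

/-- The factorisation `P * Ad = An * Bf ^ r`. -/
theorem mul_Ad (r P : ℕ) (F : ℕ → ℕ) (hP : P ≠ 0) : P * Ad r P F = An r P F * Bf P F ^ r := by
  unfold Ad An Bf
  conv_lhs => rw [← Nat.prod_factorization_pow_eq_self hP]
  rw [Finsupp.prod, Nat.support_factorization]
  have e : (∏ a ∈ P.primeFactors, a ^ P.factorization a).primeFactors = P.primeFactors := by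
    have := Nat.prod_factorization_pow_eq_self hP
    rw [Finsupp.prod, Nat.support_factorization] at this
    rw [this]
  have e2 : (∏ a ∈ P.primeFactors, a ^ P.factorization a).factorization = P.factorization := by
    have := Nat.prod_factorization_pow_eq_self hP
    rw [Finsupp.prod, Nat.support_factorization] at this
    rw [this]
  rw [e, e2, ← Finset.prod_pow, ← Finset.prod_mul_distrib, ← Finset.prod_mul_distrib]
  refine Finset.prod_congr rfl ?_
  intro p _
  rw [← pow_mul, ← pow_add, ← pow_add]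
  congr 1
  rw [mul_comm (F p) r]
  omega

theorem log_An_add_log_Ad (r P : ℕ) (F : ℕ → ℕ) :
    Real.log (An r P F) + Real.log (Ad r P F) = err r P F := by
  unfold An Ad err
  push_cast
  rw [Real.log_prod, Real.log_prod, ← Finset.sum_add_distrib]
  · refine Finset.sum_congr rfl ?_
    intro p _
    rw [Real.log_pow, Real.log_pow, ← add_mul]
    congr 1
    rcases le_total (P.factorization p) (r * F p) with h | h
    · rw [Nat.sub_eq_zero_of_le h, Nat.cast_zero, zero_add, Nat.cast_sub h, abs_of_nonpos]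
      · push_cast; ring
      · have : (P.factorization p : ℝ) ≤ ((r * F p : ℕ) : ℝ) := by exact_mod_cast h
        push_cast at this
        linarith
    · rw [Nat.sub_eq_zero_of_le h, Nat.cast_zero, add_zero, Nat.cast_sub h, abs_of_nonneg]
      · push_cast; ring
      · have : ((r * F p : ℕ) : ℝ) ≤ (P.factorization p : ℝ) := by exact_mod_cast h
        push_cast at this
        linarith
  · intro p hp
    exact pow_ne_zero _ (by exact_mod_cast (Nat.prime_of_mem_primeFactors hp).ne_zero)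
  · intro p hp
    exact pow_ne_zero _ (by exact_mod_cast (Nat.prime_of_mem_primeFactors hp).ne_zero)

theorem log_An_nonneg (r P : ℕ) (F : ℕ → ℕ) : 0 ≤ Real.log (An r P F) :=
  Real.log_natCast_nonneg _

theorem log_Ad_nonneg (r P : ℕ) (F : ℕ → ℕ) : 0 ≤ Real.log (Ad r P F) :=
  Real.log_natCast_nonneg _

theorem log_An_le (r P : ℕ) (F : ℕ → ℕ) : Real.log (An r P F) ≤ err r P F := by
  have h1 := log_An_add_log_Ad r P F
  have h2 := log_Ad_nonneg r P F
  linarith

theorem log_Ad_le (r P : ℕ) (F : ℕ → ℕ) : Real.log (Ad r P F) ≤ err r P F := by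
  have h1 := log_An_add_log_Ad r P F
  have h2 := log_An_nonneg r P F
  linarith

/-- logarithmic form of the factorisation. -/
theorem log_mul_Ad (r P : ℕ) (F : ℕ → ℕ) (hP : P ≠ 0) :
    Real.log P + Real.log (Ad r P F) = Real.log (An r P F) + r * Real.log (Bf P F) := by
  have h := mul_Ad r P F hP
  have hP0 : (P : ℝ) ≠ 0 := by exact_mod_cast hP
  have h1 : (Ad r P F : ℝ) ≠ 0 := by exact_mod_cast (Ad_pos r P F).ne'
  have h2 : (An r P F : ℝ) ≠ 0 := by exact_mod_cast (An_pos r P F).ne'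
  have h3 : (Bf P F : ℝ) ≠ 0 := by exact_mod_cast (Bf_pos P F).ne'
  have h4 : (P : ℝ) * Ad r P F = An r P F * (Bf P F : ℝ) ^ r := by exact_mod_cast h
  have h5 := congrArg Real.log h4
  rwa [Real.log_mul hP0 h1, Real.log_mul h2 (pow_ne_zero _ h3), Real.log_pow] at h5

theorem log_Bf_le (r P : ℕ) (F : ℕ → ℕ) (hP : P ≠ 0) :
    r * Real.log (Bf P F) ≤ Real.log P + err r P F := by
  have h1 := log_mul_Ad r P F hP
  have h2 := log_Ad_le r P F
  have h3 := log_An_nonneg r P F
  linarith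

theorem log_Bf_nonneg (P : ℕ) (F : ℕ → ℕ) : 0 ≤ Real.log (Bf P F) :=
  Real.log_natCast_nonneg _

theorem Bf_coprime {P m : ℕ} (h : Nat.Coprime P m) (F : ℕ → ℕ) : Nat.Coprime (Bf P F) m :=
  Nat.Coprime.prod_left fun _ hp =>
    Nat.Coprime.pow_left _ (Nat.Coprime.coprime_dvd_left (Nat.dvd_of_mem_primeFactors hp) h)

theorem An_coprime {P m : ℕ} (h : Nat.Coprime P m) (r : ℕ) (F : ℕ → ℕ) :
    Nat.Coprime (An r P F) m :=
  Nat.Coprime.prod_left fun _ hp =>
    Nat.Coprime.pow_left _ (Nat.Coprime.coprime_dvd_left (Nat.dvd_of_mem_primeFactors hp) h)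

theorem Ad_coprime {P m : ℕ} (h : Nat.Coprime P m) (r : ℕ) (F : ℕ → ℕ) :
    Nat.Coprime (Ad r P F) m :=
  Nat.Coprime.prod_left fun _ hp =>
    Nat.Coprime.pow_left _ (Nat.Coprime.coprime_dvd_left (Nat.dvd_of_mem_primeFactors hp) h)

theorem primeFactors_Bf (P : ℕ) (F : ℕ → ℕ) :
    (Bf P F).primeFactors = P.primeFactors.filter (fun p => F p ≠ 0) := by
  have hne := (Bf_pos P F).ne'
  unfold Bf at hne ⊢
  ext q
  rw [Nat.mem_primeFactors_of_ne_zero hne, Finset.mem_filter]
  constructor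
  · rintro ⟨hq, hd⟩
    obtain ⟨p, hp, hqp⟩ := (Prime.dvd_finsetProd_iff hq.prime _).1 hd
    have h1 := hq.dvd_of_dvd_pow hqp
    have h2 := (Nat.prime_dvd_prime_iff_eq hq (Nat.prime_of_mem_primeFactors hp)).1 h1
    subst h2
    refine ⟨hp, fun h0 => ?_⟩
    rw [h0, pow_zero] at hqp
    exact hq.one_lt.ne' (Nat.dvd_one.1 hqp)
  · rintro ⟨hp, h0⟩
    exact ⟨Nat.prime_of_mem_primeFactors hp,
      (dvd_pow_self q h0).trans (Finset.dvd_prod_of_mem (fun p => p ^ F p) hp)⟩

end Pool.Agent.Lib.Pabc11
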