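import Pool.Agent.Lib.Pabc11.Setup

/-!
# Few moduli for all integers with given primes

For `S = ∅` take `{1}`. Otherwise `κ = K * S.card / H`; code of `C`: `c p = ⌊v_p(C) * log p * κ⌋₊` with
`∑ c p ≤ 3 H κ = 3 K S.card` (`card_codesD_le`, first components `0`), modulus of a code:
`∏ p ∈ S, p ^ ⌈c p / (κ log p)⌉₊`. It divides `C`, and
`log M ≥ ∑ c p / κ ≥ ∑ (v_p log p - 1 / κ) = log C - H / K`. `𝓜` is the image of the finite set of codes with
sum at most `3 K S.card`; to have a `Finset` of codes take the image of the finite set of all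
`C ≤ exp (3 H)` with prime factors `S`.
-/

open Finset

namespace Pool.Agent.Lib.Pabc11

open Pool.Agent.Lib.Pabc2 Pool.Agent.Lib.Pabc1

/-- The code of `C`. -/
noncomputable def mcode (κ : ℝ) (S : Finset ℕ) (C : ℕ) : (p : ℕ) → p ∈ S → Fin 3 × ℕ :=
  fun p _ => (0, ⌊(C.factorization p : ℝ) * Real.log p * κ⌋₊)

/-- The modulus of a code. -/
noncomputable def mmod (κ : ℝ) (S : Finset ℕ) (f : (p : ℕ) → p ∈ S → Fin 3 × ℕ) : ℕ :=
  ∏ x ∈ S.attach, x.1 ^ ⌈((f x.1 x.2).2 : ℝ) / (κ * Real.log x.1)⌉₊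

theorem mmod_pos (κ : ℝ) {S : Finset ℕ} (hS : ∀ p ∈ S, p.Prime)
    (f : (p : ℕ) → p ∈ S → Fin 3 × ℕ) : 0 < mmod κ S f :=
  Finset.prod_pos fun x _ => pow_pos (hS x.1 x.2).pos _

theorem mmod_primeFactors (κ : ℝ) {S : Finset ℕ} (hS : ∀ p ∈ S, p.Prime)
    (f : (p : ℕ) → p ∈ S → Fin 3 × ℕ) : (mmod κ S f).primeFactors ⊆ S := by
  intro q hq
  have hq1 := Nat.prime_of_mem_primeFactors hq
  have hq2 := Nat.dvd_of_mem_primeFactors hq
  unfold mmod at hq2
  obtain ⟨x, _, hx⟩ := (Prime.dvd_finsetProd_iff hq1.prime _).1 hq2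
  have h1 := hq1.dvd_of_dvd_pow hx
  have h2 := (Nat.prime_dvd_prime_iff_eq hq1 (hS x.1 x.2)).1 h1
  rw [h2]
  exact x.2

theorem md_log_eq_sum {C : ℕ} (hC : C ≠ 0) {S : Finset ℕ} (hS : C.primeFactors = S) :
    Real.log C = ∑ x ∈ S.attach, (C.factorization x.1 : ℝ) * Real.log x.1 := by
  rw [Finset.sum_attach S (fun p => (C.factorization p : ℝ) * Real.log p), ← hS]
  conv_lhs => rw [← Nat.prod_factorization_pow_eq_self hC]
  rw [Finsupp.prod, Nat.cast_prod, Real.log_prod]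
  · rw [Nat.support_factorization]
    apply Finset.sum_congr rfl
    intro p _
    push_cast
    rw [Real.log_pow]
  · intro p hp
    rw [Nat.support_factorization] at hp
    exact Nat.cast_ne_zero.mpr (pow_ne_zero _ (Nat.prime_of_mem_primeFactors hp).ne_zero)

theorem mcode_le {κ : ℝ} (hκ : 0 < κ) {S : Finset ℕ} {C : ℕ} {p : ℕ} (hp : p ∈ S) :
    ((mcode κ S C p hp).2 : ℝ) ≤ (C.factorization p : ℝ) * Real.log p * κ := by
  show ((⌊(C.factorization p : ℝ) * Real.log p * κ⌋₊ : ℕ) : ℝ) ≤ _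
  apply Nat.floor_le
  have := Real.log_natCast_nonneg p
  positivity

theorem mmod_dvd {κ : ℝ} (hκ : 0 < κ) {S : Finset ℕ} {C : ℕ} (hC : C ≠ 0)
    (hS : C.primeFactors = S) : mmod κ S (mcode κ S C) ∣ C := by
  have e : C = ∏ x ∈ S.attach, x.1 ^ C.factorization x.1 := by
    rw [Finset.prod_attach S (fun p => p ^ C.factorization p)]
    conv_lhs => rw [← Nat.prod_factorization_pow_eq_self hC]
    rw [Finsupp.prod, Nat.support_factorization, hS]
  conv_rhs => rw [e]
  apply Finset.prod_dvd_prod_of_dvd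
  intro x _
  apply pow_dvd_pow
  apply Nat.ceil_le.mpr
  have hx : x.1.Prime := Nat.prime_of_mem_primeFactors (hS.symm.subset x.2)
  have hl : 0 < Real.log x.1 := Real.log_pos (by exact_mod_cast hx.one_lt)
  rw [div_le_iff₀ (by positivity)]
  have := mcode_le hκ (C := C) x.2
  calc ((mcode κ S C x.1 x.2).2 : ℝ) ≤ (C.factorization x.1 : ℝ) * Real.log x.1 * κ := this
    _ = _ := by ring

theorem log_mmod_ge {κ : ℝ} (hκ : 0 < κ) {S : Finset ℕ} {C : ℕ} (hC : C ≠ 0)
    (hS : C.primeFactors = S) :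
    Real.log C - S.card / κ ≤ Real.log (mmod κ S (mcode κ S C)) := by
  have hp : ∀ x : {x // x ∈ S}, x.1.Prime := fun x =>
    Nat.prime_of_mem_primeFactors (hS.symm.subset x.2)
  have e : Real.log (mmod κ S (mcode κ S C)) =
      ∑ x ∈ S.attach, (⌈((mcode κ S C x.1 x.2).2 : ℝ) / (κ * Real.log x.1)⌉₊ : ℝ) *
        Real.log x.1 := by
    unfold mmod
    rw [Nat.cast_prod, Real.log_prod]
    · apply Finset.sum_congr rfl
      intro x _
      rw [Nat.cast_pow, Real.log_pow]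
    · intro x _
      exact Nat.cast_ne_zero.mpr (pow_ne_zero _ (hp x).ne_zero)
  rw [e, md_log_eq_sum hC hS]
  have e2 : (S.card : ℝ) / κ = ∑ _x ∈ S.attach, 1 / κ := by
    rw [Finset.sum_const, Finset.card_attach, nsmul_eq_mul]
    ring
  rw [e2, ← Finset.sum_sub_distrib]
  apply Finset.sum_le_sum
  intro x _
  have hl : 0 < Real.log x.1 := Real.log_pos (by exact_mod_cast (hp x).one_lt)
  have h1 := Nat.le_ceil (((mcode κ S C x.1 x.2).2 : ℝ) / (κ * Real.log x.1))
  have h2 : (C.factorization x.1 : ℝ) * Real.log x.1 * κ <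
      ((mcode κ S C x.1 x.2).2 : ℝ) + 1 := Nat.lt_floor_add_one _
  calc (C.factorization x.1 : ℝ) * Real.log x.1 - 1 / κ
      = ((C.factorization x.1 : ℝ) * Real.log x.1 * κ - 1) / κ := by
        field_simp
    _ ≤ ((mcode κ S C x.1 x.2).2 : ℝ) / κ := by
        apply div_le_div_of_nonneg_right _ hκ.le
        linarith
    _ = ((mcode κ S C x.1 x.2).2 : ℝ) / (κ * Real.log x.1) * Real.log x.1 := by
        field_simp
    _ ≤ _ := mul_le_mul_of_nonneg_right h1 hl.le

theorem exists_moduli (K : ℕ) (hK : 1 ≤ K) (H : ℝ) (hH : 0 < H) (S : Finset ℕ)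
    (hS : ∀ p ∈ S, p.Prime) :
    ∃ MM : Finset ℕ, (MM.card : ℝ) ≤ BconD K ^ S.card ∧
      (∀ M ∈ MM, 0 < M ∧ M.primeFactors ⊆ S) ∧
      ∀ C : ℕ, C ≠ 0 → C.primeFactors = S → Real.log C ≤ 3 * H →
        ∃ M ∈ MM, M ∣ C ∧ Real.log C - H / K ≤ Real.log M := by
  classical
  have hK0 : (0 : ℝ) < K := by exact_mod_cast hK
  rcases S.eq_empty_or_nonempty with hSe | hne
  · subst hSe
    refine ⟨{1}, ?_, ?_, ?_⟩
    · simp
    · intro M hM
      rw [Finset.mem_singleton] at hM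
      subst hM
      simp
    · intro C hC hCS _
      refine ⟨1, Finset.mem_singleton_self 1, one_dvd _, ?_⟩
      have h1 : C = 1 := by
        rcases Nat.primeFactors_eq_empty.1 hCS with h | h
        · exact absurd h hC
        · exact h
      subst h1
      have : 0 < H / K := by positivity
      simp only [Nat.cast_one, Real.log_one]
      linarith
  have hs0 : (0 : ℝ) < S.card := by exact_mod_cast hne.card_pos
  set κ : ℝ := K * S.card / H with hκ
  have hκ0 : 0 < κ := by positivity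
  set CC : Finset ℕ := (Finset.range (⌊Real.exp (3 * H)⌋₊ + 1)).filter
    (fun C => C ≠ 0 ∧ C.primeFactors = S) with hCC
  set codes : Finset ((p : ℕ) → p ∈ S → Fin 3 × ℕ) := CC.image (mcode κ S) with hcodes
  have hmem : ∀ C ∈ CC, C ≠ 0 ∧ C.primeFactors = S ∧ Real.log C ≤ 3 * H := by
    intro C hC
    rw [hCC, Finset.mem_filter, Finset.mem_range] at hC
    obtain ⟨h1, h2, h3⟩ := hC
    refine ⟨h2, h3, ?_⟩
    have h4 : (C : ℝ) ≤ Real.exp (3 * H) :=
      (Nat.le_floor_iff (Real.exp_pos _).le).1 (Nat.lt_succ_iff.1 h1)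
    have h5 : (0 : ℝ) < C := by exact_mod_cast Nat.pos_of_ne_zero h2
    calc Real.log C ≤ Real.log (Real.exp (3 * H)) := Real.log_le_log h5 h4
      _ = 3 * H := Real.log_exp _
  have hcard : (codes.card : ℝ) ≤ BconD K ^ S.card := by
    apply card_codesD_le
    intro f hf
    rw [hcodes, Finset.mem_image] at hf
    obtain ⟨C, hC, rfl⟩ := hf
    obtain ⟨h1, h2, h3⟩ := hmem C hC
    have h4 : ((∑ x ∈ S.attach, (mcode κ S C x.1 x.2).2 : ℕ) : ℝ) ≤ ((3 * K * S.card : ℕ) : ℝ) := by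
      rw [Nat.cast_sum]
      calc ∑ x ∈ S.attach, ((mcode κ S C x.1 x.2).2 : ℝ)
          ≤ ∑ x ∈ S.attach, (C.factorization x.1 : ℝ) * Real.log x.1 * κ :=
            Finset.sum_le_sum fun x _ => mcode_le hκ0 x.2
        _ = Real.log C * κ := by rw [md_log_eq_sum h1 h2, Finset.sum_mul]
        _ ≤ 3 * H * κ := mul_le_mul_of_nonneg_right h3 hκ0.le
        _ = ((3 * K * S.card : ℕ) : ℝ) := by
            rw [hκ]
            push_cast
            field_simp
    exact_mod_cast h4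
  refine ⟨codes.image (mmod κ S), ?_, ?_, ?_⟩
  · refine le_trans ?_ hcard
    exact_mod_cast Finset.card_image_le
  · intro M hM
    obtain ⟨f, _, rfl⟩ := Finset.mem_image.1 hM
    exact ⟨mmod_pos κ hS f, mmod_primeFactors κ hS f⟩
  · intro C hC hCS hCH
    have hCC' : C ∈ CC := by
      rw [hCC, Finset.mem_filter, Finset.mem_range]
      refine ⟨Nat.lt_succ_of_le (Nat.le_floor ?_), hC, hCS⟩
      have h5 : (0 : ℝ) < C := by exact_mod_cast Nat.pos_of_ne_zero hC
      calc (C : ℝ) = Real.exp (Real.log C) := (Real.exp_log h5).symm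
        _ ≤ Real.exp (3 * H) := Real.exp_le_exp.mpr hCH
    refine ⟨mmod κ S (mcode κ S C), Finset.mem_image_of_mem _ (Finset.mem_image_of_mem _ hCC'),
      mmod_dvd hκ0 hC hCS, ?_⟩
    have h1 := log_mmod_ge hκ0 hC hCS
    have h2 : (S.card : ℝ) / κ = H / K := by
      rw [hκ]
      field_simp
    rw [h2] at h1
    exact h1

end Pool.Agent.Lib.Pabc11
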