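import Pool.Agent.Lib.Pabc11.FamP
import Pool.Agent.Lib.Pabc11.Moduli
import Pool.Agent.Lib.Pabc1.SClass
import Pool.Agent.Lib.Pabc2.Count
import Pool.Agent.Lib.Pabc8.PolyR
import Pool.Agent.Lib.Pabc9.RadLemma

/-!
# Balanced triples of one class

Parameters: `w = ⌈16 / ε⌉₊`, `η = ε / (4 * 10 ^ 6 * w ^ 2)` (at most `1`), `R0 = 6000 w`, `K' = 1000 w`.
`x = log n`, `W = η r x`, `K = 32` in `family_padic` (`8 * 2H ≤ 32 * H / 2`).

For `t ∈ T` some label `l` has `∏ p ∈ (comp t l).primeFactors, p ≤ n ^ (1/3)` (the product over the three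
labels is `rd t ≤ n`, components pairwise coprime). `log (comp t l) ≥ log t.1 ≥ 3/4 H`. With
`S = (comp t l).primeFactors` and `exists_moduli 4 H S`: `M ∣ comp t l`, `log M ≥ 3/4 H - H/4 = H/2`.
For fixed `l, S, M` the set of these `t` is bounded by `family_padic` with `P t = comp t l1`,
`Q t = comp t l2` (`l1, l2` the two other labels, `comp_rel3` in Pabc1.SClass gives the divisibility with
`σ = sg3 l`), `F t` from `Appr`, `H := 2 H`, `a = 2 w W`, `b = 2 w (2 H + W) / r` (so `b ≤ 6 w H / r`), `n` := the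
maximal number of primes of `N t`, `t ∈ T`. `36864 a b / log M ≤ 36864 * 24 w^2 η x ≤ ε x`.
`(2^(w+1) BconD 32)^n`, `BconD 4 ^ S.card ≤ K1 n^(ε/16)` : a constant to the number of primes of `N t`,
`∏ p ≤ n` (`B ^ S.card ≤ ∏ (B / log 2 * log p)`, `Pabc9.prod_const_log_le`, or Pabc10.SmallH.card_pow_le).
Number of `S`: at most `n^(1/3)` (`S ↦ ∏ p ∈ S, p` is injective on sets of primes).
Total `≤ 3 n^(1/3) K1^2 n^(ε/8) n^((1 + ε)/w) ≤ n^(1/3 + ε)`.
-/

open Finset Filter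

namespace Pool.Agent.Lib.Pabc11

open Pool.Agent.Lib.Pabc2 Pool.Agent.Lib.Pabc1

theorem cb_pow_card_le (B ε : ℝ) (hB : 1 ≤ B) (hε : 0 < ε) :
    ∃ K : ℝ, 1 ≤ K ∧ ∀ S : Finset ℕ, (∀ p ∈ S, 2 ≤ p) →
      B ^ S.card ≤ K * (∏ p ∈ S, (p : ℝ)) ^ ε := by
  have hl2 : 0 < Real.log 2 := Real.log_pos (by norm_num)
  obtain ⟨K, hK1, hK⟩ := Pool.Agent.Lib.Pabc9.prod_const_log_le (max 1 (B / Real.log 2)) ε
    (le_max_left _ _) hε
  refine ⟨K, hK1, fun S hS => ?_⟩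
  refine le_trans ?_ (hK S hS)
  rw [← Finset.prod_const]
  apply Finset.prod_le_prod (fun _ _ => by linarith)
  intro p hp
  have h2 : Real.log 2 ≤ Real.log p := Real.log_le_log (by norm_num) (by exact_mod_cast hS p hp)
  have h3 : B / Real.log 2 ≤ max 1 (B / Real.log 2) := le_max_right _ _
  have h4 : 0 ≤ B / Real.log 2 := by positivity
  calc B = B / Real.log 2 * Real.log 2 := by field_simp
    _ ≤ max 1 (B / Real.log 2) * Real.log p := mul_le_mul h3 h2 hl2.le (h4.trans h3)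

theorem cb_coprime {t : ℕ × ℕ} (h : IsT t) {l l' : Fin 3} (hl : l ≠ l') :
    Nat.Coprime (comp t l) (comp t l') := by
  by_contra hc
  obtain ⟨p, hp, h1, h2⟩ := Nat.Prime.not_coprime_iff_dvd.1 hc
  exact hl ((lab_of_dvd h hp h1).symm.trans (lab_of_dvd h hp h2))

theorem cb_disjoint {t : ℕ × ℕ} (h : IsT t) {l l' : Fin 3} (hl : l ≠ l') :
    Disjoint (comp t l).primeFactors (comp t l').primeFactors :=
  (cb_coprime h hl).disjoint_primeFactors

theorem cb_sub {t : ℕ × ℕ} (h : IsT t) (l l' : Fin 3) :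
    (comp t l).primeFactors ∪ (comp t l').primeFactors ⊆ (N t).primeFactors := by
  rw [comp_primeFactors h l, comp_primeFactors h l']
  exact Finset.union_subset (Finset.filter_subset _ _) (Finset.filter_subset _ _)

theorem cb_err {t : ℕ × ℕ} (h : IsT t) {l l' : Fin 3} (hl : l ≠ l') (r : ℕ) (F : ℕ → ℕ) :
    err r (comp t l) F + err r (comp t l') F ≤
      ∑ p ∈ (N t).primeFactors, |(ex t p : ℝ) - r * F p| * Real.log p := by
  have e : ∀ l : Fin 3, err r (comp t l) F =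
      ∑ p ∈ (comp t l).primeFactors, |(ex t p : ℝ) - r * F p| * Real.log p := by
    intro l
    unfold err
    apply Finset.sum_congr rfl
    intro p hp
    rw [comp_factorization h (Nat.prime_of_mem_primeFactors hp)
      (Nat.dvd_of_mem_primeFactors hp)]
  rw [e, e, ← Finset.sum_union (cb_disjoint h hl)]
  apply Finset.sum_le_sum_of_subset_of_nonneg (cb_sub h l l')
  intro p _ _
  exact mul_nonneg (abs_nonneg _) (Real.log_natCast_nonneg p)

theorem cb_num {t : ℕ × ℕ} (h : IsT t) {l l' : Fin 3} (hl : l ≠ l') :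
    (comp t l).primeFactors.card + (comp t l').primeFactors.card ≤ (N t).primeFactors.card := by
  rw [← Finset.card_union_of_disjoint (cb_disjoint h hl)]
  exact Finset.card_le_card (cb_sub h l l')

theorem cb_log_comp_ge {t : ℕ × ℕ} (h : IsT t) (l : Fin 3) :
    Real.log t.1 ≤ Real.log (comp t l) := by
  apply Real.log_le_log (by exact_mod_cast h.1)
  have h1 := h.2.1
  unfold comp
  split_ifs
  · exact le_rfl
  · exact_mod_cast h1
  · push_cast
    have : (0 : ℝ) ≤ t.2 := Nat.cast_nonneg _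
    linarith

theorem cb_rd {t : ℕ × ℕ} (h : IsT t) :
    (rd t : ℝ) = (∏ p ∈ (comp t 0).primeFactors, (p : ℝ)) *
      (∏ p ∈ (comp t 1).primeFactors, (p : ℝ)) * ∏ p ∈ (comp t 2).primeFactors, (p : ℝ) := by
  unfold rd
  push_cast
  rw [comp_primeFactors h 0, comp_primeFactors h 1, comp_primeFactors h 2,
    ← Finset.prod_fiberwise (N t).primeFactors (lab t) (fun p => (p : ℝ)), Fin.prod_univ_three]

theorem cb_exists_lab {t : ℕ × ℕ} (h : IsT t) {n : ℕ} (hn : rd t ≤ n) :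
    ∃ l : Fin 3, (∏ p ∈ (comp t l).primeFactors, (p : ℝ)) ≤ (n : ℝ) ^ (1 / 3 : ℝ) := by
  by_contra hc
  push Not at hc
  have h0 := hc 0
  have h1 := hc 1
  have h2 := hc 2
  have hn0 : (0 : ℝ) ≤ n := Nat.cast_nonneg n
  have hr0 : 0 ≤ (n : ℝ) ^ (1 / 3 : ℝ) := by positivity
  have h3 : (n : ℝ) = (n : ℝ) ^ (1 / 3 : ℝ) * (n : ℝ) ^ (1 / 3 : ℝ) * (n : ℝ) ^ (1 / 3 : ℝ) := by
    have e : (n : ℝ) ^ (1 / 3 : ℝ) * (n : ℝ) ^ (1 / 3 : ℝ) * (n : ℝ) ^ (1 / 3 : ℝ) =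
        ((n : ℝ) ^ (1 / 3 : ℝ)) ^ (3 : ℕ) := by ring
    rw [e, ← Real.rpow_natCast, ← Real.rpow_mul hn0]
    norm_num
  have h4 := cb_rd h
  have h5 : (rd t : ℝ) ≤ n := by exact_mod_cast hn
  have h6 : (n : ℝ) < rd t := by
    rw [h4]
    conv_lhs => rw [h3]
    apply mul_lt_mul'' (mul_lt_mul'' h0 h1 hr0 hr0) h2 (mul_nonneg hr0 hr0) hr0
  linarith

/-- One class: fixed label and fixed modulus. -/
theorem cb_class {w r nn M : ℕ} {H W x : ℝ} (l : Fin 3) (T : Finset (ℕ × ℕ))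
    (hw : 1 ≤ w) (hx : 1 ≤ x) (hr : 6000 * (w : ℝ) ≤ r) (hH : 1000 * w * r * x ≤ H)
    (hWr : (r : ℝ) ≤ 2 * w * W) (hW1 : W ≤ r * x) (hW2 : 884736 * (w : ℝ) ^ 2 * W ≤ r * x)
    (hM0 : 0 < M) (hrad : Real.log ((∏ q ∈ M.primeFactors, q : ℕ) : ℝ) ≤ x)
    (hT : ∀ t ∈ T, IsT t ∧ H ≤ ht t ∧ ht t ≤ 2 * H ∧ 3 / 4 * ht t ≤ Real.log t.1 ∧
      Appr r W t ∧ (N t).primeFactors.card ≤ nn ∧ M ∣ comp t l ∧
      Real.log (comp t l) - H / 4 ≤ Real.log M) :
    (T.card : ℝ) ≤ (2 ^ (w + 1) * BconD 32) ^ nn * Real.exp (2 * x / w) := by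
  classical
  have hB := BconD_ge_one 32
  have h2w : (1 : ℝ) ≤ 2 ^ (w + 1) := one_le_pow₀ (by norm_num)
  have hB1 : (1 : ℝ) ≤ 2 ^ (w + 1) * BconD 32 := by nlinarith
  rcases T.eq_empty_or_nonempty with rfl | ⟨t0, ht0⟩
  · simp only [Finset.card_empty, Nat.cast_zero]
    positivity
  have hw' : (1 : ℝ) ≤ w := by exact_mod_cast hw
  have hr0 : (0 : ℝ) < r := by linarith
  have hW0 : 0 < W := by
    by_contra hc
    push Not at hc
    nlinarith
  have hrx : (r : ℝ) ≤ r * x := by nlinarith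
  have hHrx : 1000 * (r * x) ≤ H := by
    have : (0 : ℝ) ≤ r * x := by linarith
    nlinarith
  have hH0 : 0 < H := by linarith
  have hWH : 1000 * W ≤ H := by linarith
  -- the logarithm of the modulus
  obtain ⟨c1, c2, c3, c4, c5, c6, c7, c8⟩ := hT t0 ht0
  have hMlow : H / 2 ≤ Real.log M := by
    have := cb_log_comp_ge c1 l
    linarith
  have hMup : Real.log M ≤ 2 * H := by
    refine le_trans ?_ ((log_comp_le c1 l).trans c3)
    apply Real.log_le_log (by exact_mod_cast hM0)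
    exact_mod_cast Nat.le_of_dvd (comp_pos c1 l) c7
  choose! F hF using fun t (ht : t ∈ T) => (hT t ht).2.2.2.2.1
  obtain ⟨hl1, hl2, hl12⟩ := labels l
  have fam : Fam T (fun t => comp t (lM l)) (fun t => comp t (lZ l)) F r nn (2 * H) W := by
    refine ⟨fun t ht => comp_pos (hT t ht).1 _, fun t ht => comp_pos (hT t ht).1 _,
      fun t ht => cb_coprime (hT t ht).1 hl12, ?_, ?_, ?_, ?_, ?_⟩
    · intro t _ s _ h1 h2
      exact Pabc8.comp_inj hl12 (Prod.ext h1 h2)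
    · intro t ht
      exact (log_comp_le (hT t ht).1 _).trans (hT t ht).2.2.1
    · intro t ht
      exact (log_comp_le (hT t ht).1 _).trans (hT t ht).2.2.1
    · intro t ht
      exact (cb_err (hT t ht).1 hl12 r (F t)).trans (hF t ht)
    · intro t ht
      exact (cb_num (hT t ht).1 hl12).trans (hT t ht).2.2.2.2.2.1
  have hwW : (0 : ℝ) < w * W := by positivity
  have hbr : 2 * (w : ℝ) * (2 * H + W) / r * r = 2 * w * (2 * H + W) := by
    field_simp
  have hb6 : 2 * (w : ℝ) * (2 * H + W) / r ≤ 6 * w * H / r := by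
    apply div_le_div_of_nonneg_right _ hr0.le
    nlinarith
  have hb5 : 5760 * w / r ≤ (1 : ℝ) := by
    rw [div_le_one hr0]
    linarith
  have h480 : 480 * (6 * (w : ℝ) * H / r) ≤ H / 2 := by
    have e : 480 * (6 * (w : ℝ) * H / r) = (5760 * w / r) * (H / 2) := by ring
    rw [e]
    have : 0 ≤ H / 2 := by linarith
    nlinarith
  have key := family_padic fam M (sg3 l) (sg3_sq l)
    (fun t ht => (cb_coprime (hT t ht).1 hl1).coprime_dvd_right (hT t ht).2.2.2.2.2.2.1)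
    (fun t ht => (cb_coprime (hT t ht).1 hl2).coprime_dvd_right (hT t ht).2.2.2.2.2.2.1)
    (fun t ht => (Int.natCast_dvd_natCast.2 (hT t ht).2.2.2.2.2.2.1).trans
      (comp_rel3 hl12 hl1 hl2)) w 32 hw (2 * w * W) (2 * w * (2 * H + W) / r)
    hbr.symm.le le_rfl (by linarith) (by nlinarith) hWr
    (by
      rw [mul_assoc, hbr]
      nlinarith) (by linarith) (by
      rw [le_div_iff₀ hr0]
      nlinarith) (by linarith) (by push_cast; linarith)
  refine key.trans ?_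
  apply mul_le_mul_of_nonneg_left _ (by positivity)
  apply Real.exp_le_exp.2
  apply div_le_div_of_nonneg_right _ (by linarith)
  have hlM : 0 < Real.log M := by linarith
  have h1 : 36864 * (2 * w * W) * (2 * w * (2 * H + W) / r) / Real.log M ≤ x := by
    rw [div_le_iff₀ hlM]
    have s1 : 36864 * (2 * w * W) * (2 * w * (2 * H + W) / r) ≤
        36864 * (2 * w * W) * (6 * w * H / r) := by
      apply mul_le_mul_of_nonneg_left hb6 (by positivity)
    have s2 : 36864 * (2 * w * W) * (6 * w * H / r) =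
        (884736 * (w : ℝ) ^ 2 * W) / r * (H / 2) := by ring
    have s3 : (884736 * (w : ℝ) ^ 2 * W) / r ≤ x := by
      rw [div_le_iff₀ hr0]
      linarith
    have s4 : 0 ≤ H / 2 := by linarith
    calc _ ≤ _ := s1
      _ = _ := s2
      _ ≤ x * (H / 2) := mul_le_mul_of_nonneg_right s3 s4
      _ ≤ x * Real.log M := mul_le_mul_of_nonneg_left hMlow (by linarith)
  linarith

theorem cb_prod_primes {S : Finset ℕ} (hS : ∀ p ∈ S, p.Prime) :
    (∏ p ∈ S, p).primeFactors = S := Nat.primeFactors_prod hS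

/-- The number of sets of primes with small product. -/
theorem cb_card_sets {y : ℝ} (hy : 0 ≤ y) (SS : Finset (Finset ℕ))
    (h : ∀ S ∈ SS, (∀ p ∈ S, p.Prime) ∧ (∏ p ∈ S, (p : ℝ)) ≤ y) : (SS.card : ℝ) ≤ y := by
  have h1 : SS.card ≤ (Finset.Icc 1 ⌊y⌋₊).card := by
    apply Finset.card_le_card_of_injOn (fun S => ∏ p ∈ S, p)
    · intro S hS
      obtain ⟨a, b⟩ := h S hS
      have h2 : 0 < ∏ p ∈ S, p := Finset.prod_pos fun p hp => (a p hp).pos
      have h3 : ∏ p ∈ S, p ≤ ⌊y⌋₊ := by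
        apply Nat.le_floor
        push_cast
        exact b
      simp only [Finset.coe_Icc, Set.mem_Icc]
      exact ⟨h2, h3⟩
    · intro S hS S' hS' hSS
      have e1 := cb_prod_primes (h S hS).1
      have e2 := cb_prod_primes (h S' hS').1
      rw [← e1, ← e2]
      exact congrArg Nat.primeFactors hSS
  rw [Nat.card_Icc, Nat.add_sub_cancel] at h1
  calc (SS.card : ℝ) ≤ (⌊y⌋₊ : ℝ) := by exact_mod_cast h1
    _ ≤ y := Nat.floor_le hy

/-- One label. -/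
theorem cb_label {w r nn n : ℕ} {H W x B' KB : ℝ} (l : Fin 3) (T : Finset (ℕ × ℕ))
    (hw : 1 ≤ w) (hx : 1 ≤ x) (hr : 6000 * (w : ℝ) ≤ r) (hH : 1000 * w * r * x ≤ H)
    (hWr : (r : ℝ) ≤ 2 * w * W) (hW1 : W ≤ r * x) (hW2 : 884736 * (w : ℝ) ^ 2 * W ≤ r * x)
    (hn : x = Real.log n) (hn1 : 1 ≤ n)
    (hB' : (2 ^ (w + 1) * BconD 32) ^ nn * Real.exp (2 * x / w) ≤ B')
    (hKB : ∀ S : Finset ℕ, (∀ p ∈ S, p.Prime) → (∏ p ∈ S, (p : ℝ)) ≤ (n : ℝ) ^ (1 / 3 : ℝ) →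
      BconD 4 ^ S.card ≤ KB)
    (hT : ∀ t ∈ T, IsT t ∧ H ≤ ht t ∧ ht t ≤ 2 * H ∧ 3 / 4 * ht t ≤ Real.log t.1 ∧
      Appr r W t ∧ (N t).primeFactors.card ≤ nn ∧
      (∏ p ∈ (comp t l).primeFactors, (p : ℝ)) ≤ (n : ℝ) ^ (1 / 3 : ℝ)) :
    (T.card : ℝ) ≤ (n : ℝ) ^ (1 / 3 : ℝ) * (KB * B') := by
  classical
  have hn1' : (1 : ℝ) ≤ n := by exact_mod_cast hn1
  have hB := BconD_ge_one 32
  have hB'0 : 0 ≤ B' := le_trans (by positivity) hB'
  have hw' : (1 : ℝ) ≤ w := by exact_mod_cast hw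
  have hr0 : (0 : ℝ) < r := by linarith
  have hrx : (r : ℝ) ≤ r * x := by nlinarith
  have hHrx : 1000 * (r * x) ≤ H := by
    have : (0 : ℝ) ≤ r * x := by linarith
    nlinarith
  have hH0 : 0 < H := by linarith
  have hKB0 : 0 ≤ KB := le_trans (pow_nonneg (BconD_pos 4).le _)
    (hKB ∅ (by simp) (by
      simp only [Finset.prod_empty]
      exact Real.one_le_rpow hn1' (by norm_num)))
  have hSS : ∀ S ∈ T.image (fun t => (comp t l).primeFactors),
      (∀ p ∈ S, p.Prime) ∧ (∏ p ∈ S, (p : ℝ)) ≤ (n : ℝ) ^ (1 / 3 : ℝ) := by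
    intro S hS
    obtain ⟨t, ht, rfl⟩ := Finset.mem_image.1 hS
    exact ⟨fun p hp => Nat.prime_of_mem_primeFactors hp, (hT t ht).2.2.2.2.2.2⟩
  have hcount := cb_card_sets (by positivity) _ hSS
  have hfib : ∀ S ∈ T.image (fun t => (comp t l).primeFactors),
      ((T.filter (fun t => (comp t l).primeFactors = S)).card : ℝ) ≤ KB * B' := by
    intro S hS
    obtain ⟨hp, hprod⟩ := hSS S hS
    obtain ⟨MM, m1, m2, m3⟩ := exists_moduli 4 (by norm_num) H hH0 S hp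
    have hsub : T.filter (fun t => (comp t l).primeFactors = S) ⊆ MM.biUnion (fun M =>
        T.filter (fun t => M ∣ comp t l ∧ Real.log (comp t l) - H / 4 ≤ Real.log M)) := by
      intro t ht
      obtain ⟨ht1, ht2⟩ := Finset.mem_filter.1 ht
      obtain ⟨a1, a2, a3, a4, a5, a6, a7⟩ := hT t ht1
      obtain ⟨M, b1, b2, b3⟩ := m3 (comp t l) (comp_pos a1 l).ne' ht2
        (by have := log_comp_le a1 l; linarith)
      exact Finset.mem_biUnion.2 ⟨M, b1, Finset.mem_filter.2 ⟨ht1, b2, by push_cast at b3; exact b3⟩⟩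
    have hone : ∀ M ∈ MM, ((T.filter (fun t => M ∣ comp t l ∧
        Real.log (comp t l) - H / 4 ≤ Real.log M)).card : ℝ) ≤ B' := by
      intro M hM
      refine le_trans (cb_class l _ hw hx hr hH hWr hW1 hW2 (m2 M hM).1 ?_ ?_) hB'
      · rw [hn]
        apply Real.log_le_log
        · exact_mod_cast Finset.prod_pos fun p hp => (Nat.prime_of_mem_primeFactors hp).pos
        · push_cast
          have hN : (∏ p ∈ M.primeFactors, p) ≤ ∏ p ∈ S, p :=
            Finset.prod_le_prod_of_subset_of_one_le' (m2 M hM).2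
              (fun p hp' _ => (hp p hp').one_le)
          have hN' : (((∏ p ∈ M.primeFactors, p : ℕ)) : ℝ) ≤ ((∏ p ∈ S, p : ℕ) : ℝ) := by
            exact_mod_cast hN
          push_cast at hN'
          calc (∏ p ∈ M.primeFactors, (p : ℝ)) ≤ ∏ p ∈ S, (p : ℝ) := hN'
            _ ≤ (n : ℝ) ^ (1 / 3 : ℝ) := hprod
            _ ≤ (n : ℝ) ^ (1 : ℝ) := Real.rpow_le_rpow_of_exponent_le hn1' (by norm_num)
            _ = n := Real.rpow_one _
      · intro t ht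
        obtain ⟨ht1, ht2, ht3⟩ := Finset.mem_filter.1 ht
        obtain ⟨a1, a2, a3, a4, a5, a6, a7⟩ := hT t ht1
        exact ⟨a1, a2, a3, a4, a5, a6, ht2, ht3⟩
    calc ((T.filter (fun t => (comp t l).primeFactors = S)).card : ℝ)
        ≤ ((MM.biUnion (fun M => T.filter (fun t => M ∣ comp t l ∧
            Real.log (comp t l) - H / 4 ≤ Real.log M))).card : ℝ) := by
          exact_mod_cast Finset.card_le_card hsub
      _ ≤ ∑ M ∈ MM, ((T.filter (fun t => M ∣ comp t l ∧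
            Real.log (comp t l) - H / 4 ≤ Real.log M)).card : ℝ) := by
          exact_mod_cast Finset.card_biUnion_le
      _ ≤ ∑ _M ∈ MM, B' := Finset.sum_le_sum hone
      _ = MM.card * B' := by rw [Finset.sum_const, nsmul_eq_mul]
      _ ≤ KB * B' := mul_le_mul_of_nonneg_right (m1.trans (hKB S hp hprod)) hB'0
  calc (T.card : ℝ) = ∑ S ∈ T.image (fun t => (comp t l).primeFactors),
        ((T.filter (fun t => (comp t l).primeFactors = S)).card : ℝ) := by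
        rw [Finset.card_eq_sum_card_image (fun t => (comp t l).primeFactors) T]
        push_cast
        rfl
    _ ≤ ∑ _S ∈ T.image (fun t => (comp t l).primeFactors), KB * B' := Finset.sum_le_sum hfib
    _ = ((T.image (fun t => (comp t l).primeFactors)).card : ℝ) * (KB * B') := by
        rw [Finset.sum_const, nsmul_eq_mul]
    _ ≤ (n : ℝ) ^ (1 / 3 : ℝ) * (KB * B') :=
        mul_le_mul_of_nonneg_right hcount (mul_nonneg hKB0 hB'0)

theorem count_balanced (ε : ℝ) (hε : 0 < ε) (hε1 : ε ≤ 1) :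
    ∃ η K' R0 : ℝ, 0 < η ∧ η ≤ 1 ∧ 1 ≤ K' ∧ 1 ≤ R0 ∧ ∀ᶠ n : ℕ in atTop,
      ∀ (H : ℝ) (r : ℕ) (T : Finset (ℕ × ℕ)), R0 ≤ r → K' * r * Real.log n ≤ H →
      (∀ t ∈ T, IsT t ∧ rd t ≤ n ∧ H ≤ ht t ∧ ht t ≤ 2 * H ∧ 3 / 4 * ht t ≤ Real.log t.1 ∧
        Appr r (η * r * Real.log n) t) →
      (T.card : ℝ) ≤ (n : ℝ) ^ (1 / 3 + ε) := by
  classical
  obtain ⟨w, hw⟩ : ∃ w : ℕ, w = ⌈16 / ε⌉₊ := ⟨_, rfl⟩
  have hw16 : 16 / ε ≤ w := hw ▸ Nat.le_ceil _
  have hw1 : (1 : ℝ) ≤ w := by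
    refine le_trans ?_ hw16
    rw [le_div_iff₀ hε]
    linarith
  have hw1' : 1 ≤ w := by exact_mod_cast hw1
  have hwε : 16 ≤ (w : ℝ) * ε := by
    rwa [div_le_iff₀ hε] at hw16
  have hw2 : (1 : ℝ) ≤ (w : ℝ) ^ 2 := one_le_pow₀ hw1
  obtain ⟨η, hη⟩ : ∃ η : ℝ, η = ε / (4 * 10 ^ 6 * w ^ 2) := ⟨_, rfl⟩
  have hη0 : 0 < η := by rw [hη]; positivity
  have hηw : η * (4 * 10 ^ 6 * w ^ 2) = ε := by rw [hη]; field_simp
  have hη1 : η ≤ 1 := by nlinarith
  have hηw2 : 884736 * (w : ℝ) ^ 2 * η ≤ 1 := by nlinarith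
  have hB32 := BconD_ge_one 32
  have h2w : (1 : ℝ) ≤ 2 ^ (w + 1) := one_le_pow₀ (by norm_num)
  have hB1 : (1 : ℝ) ≤ 2 ^ (w + 1) * BconD 32 := by nlinarith
  obtain ⟨K1, hK11, hK1⟩ := cb_pow_card_le (2 ^ (w + 1) * BconD 32) (ε / 16) hB1 (by positivity)
  obtain ⟨K2, hK21, hK2⟩ := cb_pow_card_le (BconD 4) (ε / 16) (BconD_ge_one 4) (by positivity)
  refine ⟨η, 1000 * w, 6000 * w, hη0, hη1, by linarith, by linarith, ?_⟩
  have hlog : Tendsto (fun n : ℕ => Real.log n) atTop atTop :=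
    Real.tendsto_log_atTop.comp tendsto_natCast_atTop_atTop
  have hpow : Tendsto (fun n : ℕ => (n : ℝ) ^ (3 * ε / 4)) atTop atTop :=
    (tendsto_rpow_atTop (by positivity)).comp tendsto_natCast_atTop_atTop
  filter_upwards [eventually_ge_atTop 1, hlog.eventually (eventually_ge_atTop 1),
    hlog.eventually (eventually_ge_atTop (1 / (2 * w * η))),
    hpow.eventually (eventually_ge_atTop (3 * (K1 * K2)))] with n hn1 hx1 hx2 hn3 H r T hr hH hT
  have hn1' : (1 : ℝ) ≤ n := by exact_mod_cast hn1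
  have hn0 : (0 : ℝ) < n := by linarith
  have hr0 : (0 : ℝ) < r := by linarith
  obtain ⟨x, hx⟩ : ∃ x : ℝ, x = Real.log n := ⟨_, rfl⟩
  rw [← hx] at hx1 hx2 hH
  have hx0 : 0 < x := by linarith
  have hwη : 1 ≤ 2 * w * η * x := by
    rwa [div_le_iff₀ (by positivity), mul_comm] at hx2
  have hrx0 : 0 < r * x := by positivity
  have hW1 : η * r * x ≤ r * x := by nlinarith
  have hWr : (r : ℝ) ≤ 2 * w * (η * r * x) := by nlinarith
  have hW2 : 884736 * (w : ℝ) ^ 2 * (η * r * x) ≤ r * x := by nlinarith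
  have hexp : Real.exp (2 * x / w) ≤ (n : ℝ) ^ (ε / 8) := by
    rw [Real.rpow_def_of_pos hn0, ← hx]
    apply Real.exp_le_exp.2
    rw [div_le_iff₀ (by linarith)]
    nlinarith
  obtain ⟨nn, hnn⟩ : ∃ nn : ℕ, nn = T.sup (fun t => (N t).primeFactors.card) := ⟨_, rfl⟩
  have hnnT : ∀ t ∈ T, (N t).primeFactors.card ≤ nn := fun t ht => by
    rw [hnn]; exact Finset.le_sup (f := fun t => (N t).primeFactors.card) ht
  have hKn : (2 ^ (w + 1) * BconD 32) ^ nn ≤ K1 * (n : ℝ) ^ (ε / 16) := by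
    rcases T.eq_empty_or_nonempty with rfl | hne
    · rw [Finset.sup_empty] at hnn
      subst hnn
      have h1 : (1 : ℝ) ≤ (n : ℝ) ^ (ε / 16) := Real.one_le_rpow hn1' (by positivity)
      simp only [Nat.bot_eq_zero, pow_zero]
      nlinarith
    · obtain ⟨t, ht, hte⟩ := Finset.exists_mem_eq_sup T hne (fun t => (N t).primeFactors.card)
      rw [hnn, hte]
      refine (hK1 _ fun p hp => (Nat.prime_of_mem_primeFactors hp).two_le).trans ?_
      apply mul_le_mul_of_nonneg_left _ (by linarith)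
      apply Real.rpow_le_rpow (Finset.prod_nonneg fun _ _ => Nat.cast_nonneg _) _ (by positivity)
      have h1 : ((rd t : ℕ) : ℝ) ≤ n := by exact_mod_cast (hT t ht).2.1
      unfold rd at h1
      push_cast at h1
      exact h1
  have hKB : ∀ S : Finset ℕ, (∀ p ∈ S, p.Prime) → (∏ p ∈ S, (p : ℝ)) ≤ (n : ℝ) ^ (1 / 3 : ℝ) →
      BconD 4 ^ S.card ≤ K2 * (n : ℝ) ^ (ε / 16) := by
    intro S hS hprod
    refine (hK2 S fun p hp => (hS p hp).two_le).trans ?_
    apply mul_le_mul_of_nonneg_left _ (by linarith)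
    apply Real.rpow_le_rpow (Finset.prod_nonneg fun _ _ => Nat.cast_nonneg _) _ (by positivity)
    calc (∏ p ∈ S, (p : ℝ)) ≤ (n : ℝ) ^ (1 / 3 : ℝ) := hprod
      _ ≤ (n : ℝ) ^ (1 : ℝ) := Real.rpow_le_rpow_of_exponent_le hn1' (by norm_num)
      _ = n := Real.rpow_one _
  have hB' : (2 ^ (w + 1) * BconD 32) ^ nn * Real.exp (2 * x / w) ≤
      K1 * (n : ℝ) ^ (ε / 16) * (n : ℝ) ^ (ε / 8) :=
    mul_le_mul hKn hexp (Real.exp_pos _).le (by positivity)
  have hlab : ∀ l : Fin 3, ((T.filter (fun t => (∏ p ∈ (comp t l).primeFactors, (p : ℝ)) ≤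
      (n : ℝ) ^ (1 / 3 : ℝ))).card : ℝ) ≤ (n : ℝ) ^ (1 / 3 : ℝ) *
      (K2 * (n : ℝ) ^ (ε / 16) * (K1 * (n : ℝ) ^ (ε / 16) * (n : ℝ) ^ (ε / 8))) := by
    intro l
    refine cb_label (H := H) (W := η * r * x) l _ hw1' hx1 hr hH hWr hW1 hW2 hx hn1 hB' hKB ?_
    intro t ht
    obtain ⟨ht1, ht2⟩ := Finset.mem_filter.1 ht
    obtain ⟨a1, a2, a3, a4, a5, a6⟩ := hT t ht1
    exact ⟨a1, a3, a4, a5, hx ▸ a6, hnnT t ht1, ht2⟩
  have hcov : T ⊆ (Finset.univ : Finset (Fin 3)).biUnion (fun l =>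
      T.filter (fun t => (∏ p ∈ (comp t l).primeFactors, (p : ℝ)) ≤ (n : ℝ) ^ (1 / 3 : ℝ))) := by
    intro t ht
    obtain ⟨l, hl⟩ := cb_exists_lab (hT t ht).1 (hT t ht).2.1
    exact Finset.mem_biUnion.2 ⟨l, Finset.mem_univ l, Finset.mem_filter.2 ⟨ht, hl⟩⟩
  have hfin : (T.card : ℝ) ≤ 3 * ((n : ℝ) ^ (1 / 3 : ℝ) *
      (K2 * (n : ℝ) ^ (ε / 16) * (K1 * (n : ℝ) ^ (ε / 16) * (n : ℝ) ^ (ε / 8)))) := by
    calc (T.card : ℝ) ≤ (((Finset.univ : Finset (Fin 3)).biUnion (fun l =>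
          T.filter (fun t => (∏ p ∈ (comp t l).primeFactors, (p : ℝ)) ≤
            (n : ℝ) ^ (1 / 3 : ℝ)))).card : ℝ) := by exact_mod_cast Finset.card_le_card hcov
      _ ≤ ∑ l : Fin 3, ((T.filter (fun t => (∏ p ∈ (comp t l).primeFactors, (p : ℝ)) ≤
            (n : ℝ) ^ (1 / 3 : ℝ))).card : ℝ) := by exact_mod_cast Finset.card_biUnion_le
      _ ≤ ∑ _l : Fin 3, ((n : ℝ) ^ (1 / 3 : ℝ) *
          (K2 * (n : ℝ) ^ (ε / 16) * (K1 * (n : ℝ) ^ (ε / 16) * (n : ℝ) ^ (ε / 8)))) :=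
          Finset.sum_le_sum fun l _ => hlab l
      _ = _ := by
          rw [Finset.sum_const, Finset.card_univ, Fintype.card_fin, nsmul_eq_mul]
          norm_num
  refine hfin.trans ?_
  have e1 : 3 * ((n : ℝ) ^ (1 / 3 : ℝ) *
      (K2 * (n : ℝ) ^ (ε / 16) * (K1 * (n : ℝ) ^ (ε / 16) * (n : ℝ) ^ (ε / 8)))) =
      3 * (K1 * K2) * (n : ℝ) ^ (1 / 3 + ε / 4) := by
    have e : (1 / 3 + ε / 4 : ℝ) = 1 / 3 + (ε / 16 + (ε / 16 + ε / 8)) := by ring
    rw [e, Real.rpow_add hn0, Real.rpow_add hn0, Real.rpow_add hn0]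
    ring
  rw [e1]
  calc 3 * (K1 * K2) * (n : ℝ) ^ (1 / 3 + ε / 4)
      ≤ (n : ℝ) ^ (3 * ε / 4) * (n : ℝ) ^ (1 / 3 + ε / 4) :=
        mul_le_mul_of_nonneg_right hn3 (by positivity)
    _ = (n : ℝ) ^ (1 / 3 + ε) := by
        rw [← Real.rpow_add hn0]
        congr 1
        ring

end Pool.Agent.Lib.Pabc11
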