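import Pool.Agent.Lib.Pabc11.ClassB

/-!
# Triples of one class with a large divisor of small radical

The same as `count_balanced`, but only a divisor `D` of one member is used, with
`log D ≥ H / q` and radical at most `z`.
-/

open Finset Filter

namespace Pool.Agent.Lib.Pabc11

open Pool.Agent.Lib.Pabc2 Pool.Agent.Lib.Pabc1

theorem cq_rad_le {t : ℕ × ℕ} (h : IsT t) (l : Fin 3) {D : ℕ} (hD : D ∣ comp t l) :
    (∏ p ∈ D.primeFactors, (p : ℝ)) ≤ rd t := by
  unfold rd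
  have h1 : D.primeFactors ⊆ (N t).primeFactors :=
    (Nat.primeFactors_mono hD (comp_pos h l).ne').trans
      (Finset.subset_union_left.trans (cb_sub h l l))
  have h2 : (∏ p ∈ D.primeFactors, p) ≤ ∏ p ∈ (N t).primeFactors, p :=
    Finset.prod_le_prod_of_subset_of_one_le' h1
      (fun p hp' _ => (Nat.prime_of_mem_primeFactors hp').one_le)
  rw [← Nat.cast_prod]
  exact_mod_cast h2

/-- One class: fixed label and fixed modulus. -/
theorem cq_class {w r nn M q : ℕ} {H W x : ℝ} (l : Fin 3) (T : Finset (ℕ × ℕ))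
    (hw : 1 ≤ w) (hq : 1 ≤ q) (hx : 1 ≤ x) (hr : 6000 * (w * q : ℝ) ≤ r)
    (hH : 1000 * (w * q) * (r * x) ≤ H)
    (hWr : (r : ℝ) ≤ 2 * w * W) (hW1 : W ≤ r * x)
    (hW2 : 884736 * ((w : ℝ) ^ 2 * q) * W ≤ r * x)
    (hM0 : 0 < M) (hMlow : H / (2 * q) ≤ Real.log M)
    (hT : ∀ t ∈ T, IsT t ∧ Real.log (rd t) ≤ x ∧ ht t ≤ 2 * H ∧
      Appr r W t ∧ (N t).primeFactors.card ≤ nn ∧ M ∣ comp t l) :
    (T.card : ℝ) ≤ (2 ^ (w + 1) * BconD (32 * q)) ^ nn * Real.exp (2 * x / w) := by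
  classical
  have hB := BconD_ge_one (32 * q)
  have h2w : (1 : ℝ) ≤ 2 ^ (w + 1) := one_le_pow₀ (by norm_num)
  have hB1 : (1 : ℝ) ≤ 2 ^ (w + 1) * BconD (32 * q) := by nlinarith
  rcases T.eq_empty_or_nonempty with rfl | ⟨t0, ht0⟩
  · simp only [Finset.card_empty, Nat.cast_zero]
    positivity
  have hw' : (1 : ℝ) ≤ w := by exact_mod_cast hw
  have hq' : (1 : ℝ) ≤ q := by exact_mod_cast hq
  have hwq : (1 : ℝ) ≤ w * q := by nlinarith
  have hwqw : (w : ℝ) ≤ w * q := by nlinarith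
  have hwqq : (q : ℝ) ≤ w * q := by nlinarith
  have hr0 : (0 : ℝ) < r := by linarith
  have hW0 : 0 < W := by
    by_contra hc
    push Not at hc
    nlinarith
  have hrx : (r : ℝ) ≤ r * x := by nlinarith
  have hrx0 : (0 : ℝ) < r * x := by positivity
  have hHq : 1000 * (q * (r * x)) ≤ H := by
    have : (0 : ℝ) ≤ (w * q - q) * (r * x) := mul_nonneg (by linarith) hrx0.le
    nlinarith
  have hHrx : 1000 * (r * x) ≤ H := by nlinarith
  have hH0 : 0 < H := by linarith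
  have hWH : 1000 * W ≤ H := by linarith
  have hHr : 1000 * (w * q) * r ≤ H := by
    have : (0 : ℝ) ≤ (w * q) * (r * x - r) := mul_nonneg (by linarith) (by linarith)
    nlinarith
  have hHq0 : 0 < H / (2 * q) := by positivity
  -- bounds for H / (2 q)
  have hHq1 : 500 * (w * (r * x)) ≤ H / (2 * q) := by
    rw [le_div_iff₀ (by positivity)]
    nlinarith
  -- the logarithm of the modulus
  obtain ⟨c1, c2, c3, c4, c5, c6⟩ := hT t0 ht0
  have hMup : Real.log M ≤ 2 * H := by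
    refine le_trans ?_ ((log_comp_le c1 l).trans c3)
    apply Real.log_le_log (by exact_mod_cast hM0)
    exact_mod_cast Nat.le_of_dvd (comp_pos c1 l) c6
  have hrad : Real.log ((∏ p ∈ M.primeFactors, p : ℕ) : ℝ) ≤ x := by
    refine le_trans ?_ c2
    apply Real.log_le_log
    · exact_mod_cast Finset.prod_pos fun p hp => (Nat.prime_of_mem_primeFactors hp).pos
    · rw [Nat.cast_prod]
      exact cq_rad_le c1 l c6
  choose! F hF using fun t (ht : t ∈ T) => (hT t ht).2.2.2.1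
  obtain ⟨hl1, hl2, hl12⟩ := labels l
  have fam : Fam T (fun t => comp t (lM l)) (fun t => comp t (lZ l)) F r nn (2 * H) W := by
    refine ⟨fun t ht => comp_pos (hT t ht).1 _, fun t ht => comp_pos (hT t ht).1 _,
      fun t ht => cb_coprime (hT t ht).1 hl12, ?_, ?_, ?_, ?_, ?_⟩
    · intro t _ s _ h1 h2
      exact Pabc8.comp_inj hl12 (Prod.ext h1 h2)
    · intro t ht
      exact (log_comp_le (hT t ht).1 _).trans (hT t ht).2.2.1
    · intro t ht
      exact (log_comp_le (hT t ht).1 _).trans (hT t ht).2.2.1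
    · intro t ht
      exact (cb_err (hT t ht).1 hl12 r (F t)).trans (hF t ht)
    · intro t ht
      exact (cb_num (hT t ht).1 hl12).trans (hT t ht).2.2.2.2.1
  have hwW : (0 : ℝ) < w * W := by positivity
  have hwWle : w * W ≤ w * (r * x) := mul_le_mul_of_nonneg_left hW1 (by linarith)
  have hbr : 2 * (w : ℝ) * (2 * H + W) / r * r = 2 * w * (2 * H + W) := by
    field_simp
  have hb6 : 2 * (w : ℝ) * (2 * H + W) / r ≤ 6 * w * H / r := by
    apply div_le_div_of_nonneg_right _ hr0.le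
    nlinarith
  have h480 : 480 * (6 * (w : ℝ) * H / r) ≤ H / (2 * q) := by
    rw [← mul_div_assoc, div_le_div_iff₀ hr0 (by positivity)]
    have h0 : 0 ≤ H * (r - 6000 * (w * q)) := mul_nonneg hH0.le (by linarith)
    nlinarith
  have hcast : ((32 * q : ℕ) : ℝ) = 32 * q := by push_cast; ring
  have key := family_padic fam M (sg3 l) (sg3_sq l)
    (fun t ht => (cb_coprime (hT t ht).1 hl1).coprime_dvd_right (hT t ht).2.2.2.2.2)
    (fun t ht => (cb_coprime (hT t ht).1 hl2).coprime_dvd_right (hT t ht).2.2.2.2.2)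
    (fun t ht => (Int.natCast_dvd_natCast.2 (hT t ht).2.2.2.2.2).trans
      (comp_rel3 hl12 hl1 hl2)) w (32 * q) hw (2 * w * W) (2 * w * (2 * H + W) / r)
    hbr.symm.le le_rfl (by linarith) (by nlinarith) hWr
    (by
      rw [mul_assoc, hbr]
      nlinarith) (by nlinarith) (by
      rw [le_div_iff₀ hr0]
      nlinarith) (by nlinarith) (by
      rw [hcast]
      rw [div_le_iff₀ (by positivity)] at hMlow
      nlinarith)
  refine key.trans ?_
  apply mul_le_mul_of_nonneg_left _ (by positivity)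
  apply Real.exp_le_exp.2
  apply div_le_div_of_nonneg_right _ (by linarith)
  have hlM : 0 < Real.log M := by linarith
  have h1 : 36864 * (2 * w * W) * (2 * w * (2 * H + W) / r) / Real.log M ≤ x := by
    rw [div_le_iff₀ hlM]
    have s1 : 36864 * (2 * w * W) * (2 * w * (2 * H + W) / r) ≤
        36864 * (2 * w * W) * (6 * w * H / r) := by
      apply mul_le_mul_of_nonneg_left hb6 (by positivity)
    have s2 : 36864 * (2 * w * W) * (6 * w * H / r) =
        (884736 * ((w : ℝ) ^ 2 * q) * W) / r * (H / (2 * q)) := by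
      field_simp
      ring
    have s3 : (884736 * ((w : ℝ) ^ 2 * q) * W) / r ≤ x := by
      rw [div_le_iff₀ hr0]
      linarith
    calc _ ≤ _ := s1
      _ = _ := s2
      _ ≤ x * (H / (2 * q)) := mul_le_mul_of_nonneg_right s3 hHq0.le
      _ ≤ x * Real.log M := mul_le_mul_of_nonneg_left hMlow (by linarith)
  linarith

/-- One label. -/
theorem cq_label {w r nn n q : ℕ} {H W x B' KB z : ℝ} (l : Fin 3) (T : Finset (ℕ × ℕ))
    (hw : 1 ≤ w) (hq : 1 ≤ q) (hx : 1 ≤ x) (hr : 6000 * (w * q : ℝ) ≤ r)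
    (hH : 1000 * (w * q) * (r * x) ≤ H)
    (hWr : (r : ℝ) ≤ 2 * w * W) (hW1 : W ≤ r * x)
    (hW2 : 884736 * ((w : ℝ) ^ 2 * q) * W ≤ r * x)
    (hn : x = Real.log n) (hn1 : 1 ≤ n) (hz : 0 ≤ z)
    (hB' : (2 ^ (w + 1) * BconD (32 * q)) ^ nn * Real.exp (2 * x / w) ≤ B')
    (hKB : ∀ S : Finset ℕ, (∀ p ∈ S, p.Prime) → (∏ p ∈ S, (p : ℝ)) ≤ n →
      BconD (2 * q) ^ S.card ≤ KB)
    (hT : ∀ t ∈ T, IsT t ∧ rd t ≤ n ∧ ht t ≤ 2 * H ∧
      Appr r W t ∧ (N t).primeFactors.card ≤ nn ∧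
      ∃ D, D ∣ comp t l ∧ (∏ p ∈ D.primeFactors, (p : ℝ)) ≤ z ∧ H / q ≤ Real.log D) :
    (T.card : ℝ) ≤ z * (KB * B') := by
  classical
  have hn1' : (1 : ℝ) ≤ n := by exact_mod_cast hn1
  have hB := BconD_ge_one (32 * q)
  have hB'0 : 0 ≤ B' := le_trans (by positivity) hB'
  have hw' : (1 : ℝ) ≤ w := by exact_mod_cast hw
  have hq' : (1 : ℝ) ≤ q := by exact_mod_cast hq
  have hwq : (1 : ℝ) ≤ w * q := by nlinarith
  have hr0 : (0 : ℝ) < r := by linarith
  have hrx0 : (0 : ℝ) < r * x := by positivity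
  have hH0 : 0 < H := by
    have : 0 < 1000 * (w * q) * (r * x) := by positivity
    linarith
  have hKB0 : 0 ≤ KB := le_trans (pow_nonneg (BconD_pos (2 * q)).le _)
    (hKB ∅ (by simp) (by
      simp only [Finset.prod_empty]
      exact hn1'))
  choose! D hD using fun t (ht : t ∈ T) => (hT t ht).2.2.2.2.2
  have hSS : ∀ S ∈ T.image (fun t => (D t).primeFactors),
      (∀ p ∈ S, p.Prime) ∧ (∏ p ∈ S, (p : ℝ)) ≤ z := by
    intro S hS
    obtain ⟨t, ht, rfl⟩ := Finset.mem_image.1 hS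
    exact ⟨fun p hp => Nat.prime_of_mem_primeFactors hp, (hD t ht).2.1⟩
  have hcount := cb_card_sets hz _ hSS
  have hfib : ∀ S ∈ T.image (fun t => (D t).primeFactors),
      ((T.filter (fun t => (D t).primeFactors = S)).card : ℝ) ≤ KB * B' := by
    intro S hS
    obtain ⟨hp, hprod⟩ := hSS S hS
    have hprodn : (∏ p ∈ S, (p : ℝ)) ≤ n := by
      obtain ⟨t, ht, rfl⟩ := Finset.mem_image.1 hS
      refine (cq_rad_le (hT t ht).1 l (hD t ht).1).trans ?_
      exact_mod_cast (hT t ht).2.1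
    obtain ⟨MM, m1, m2, m3⟩ := exists_moduli (2 * q) (by omega) H hH0 S hp
    have hsub : T.filter (fun t => (D t).primeFactors = S) ⊆
        (MM.filter (fun M : ℕ => H / (2 * q) ≤ Real.log M)).biUnion (fun M : ℕ =>
          T.filter (fun t => M ∣ comp t l)) := by
      intro t ht
      obtain ⟨ht1, ht2⟩ := Finset.mem_filter.1 ht
      obtain ⟨a1, a2, a3, a4, a5, a6⟩ := hT t ht1
      obtain ⟨d1, d2, d3⟩ := hD t ht1
      have hD0 : 0 < D t := Nat.pos_of_dvd_of_pos d1 (comp_pos a1 l)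
      have hDle : Real.log (D t) ≤ 3 * H := by
        have h1 : Real.log (D t) ≤ Real.log (comp t l) :=
          Real.log_le_log (by exact_mod_cast hD0)
            (by exact_mod_cast Nat.le_of_dvd (comp_pos a1 l) d1)
        have h2 := log_comp_le a1 l
        linarith
      obtain ⟨M, b1, b2, b3⟩ := m3 (D t) hD0.ne' ht2 hDle
      push_cast at b3
      refine Finset.mem_biUnion.2 ⟨M, Finset.mem_filter.2 ⟨b1, ?_⟩,
        Finset.mem_filter.2 ⟨ht1, b2.trans d1⟩⟩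
      have e : H / q - H / (2 * q) = H / (2 * q) := by
        field_simp
        ring
      linarith
    have hone : ∀ M ∈ MM.filter (fun M : ℕ => H / (2 * q) ≤ Real.log M),
        ((T.filter (fun t => M ∣ comp t l)).card : ℝ) ≤ B' := by
      intro M hM
      obtain ⟨hM1, hM2⟩ := Finset.mem_filter.1 hM
      refine le_trans (cq_class l _ hw hq hx hr hH hWr hW1 hW2 (m2 M hM1).1 hM2 ?_) hB'
      intro t ht
      obtain ⟨ht1, ht2⟩ := Finset.mem_filter.1 ht
      obtain ⟨a1, a2, a3, a4, a5, a6⟩ := hT t ht1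
      refine ⟨a1, ?_, a3, a4, a5, ht2⟩
      rw [hn]
      apply Real.log_le_log
      · unfold rd
        exact_mod_cast Finset.prod_pos fun p hp => (Nat.prime_of_mem_primeFactors hp).pos
      · exact_mod_cast a2
    calc ((T.filter (fun t => (D t).primeFactors = S)).card : ℝ)
        ≤ (((MM.filter (fun M : ℕ => H / (2 * q) ≤ Real.log M)).biUnion (fun M : ℕ =>
            T.filter (fun t => M ∣ comp t l))).card : ℝ) := by
          exact_mod_cast Finset.card_le_card hsub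
      _ ≤ ∑ M ∈ MM.filter (fun M : ℕ => H / (2 * q) ≤ Real.log M),
            ((T.filter (fun t => M ∣ comp t l)).card : ℝ) := by
          exact_mod_cast Finset.card_biUnion_le
      _ ≤ ∑ _M ∈ MM.filter (fun M : ℕ => H / (2 * q) ≤ Real.log M), B' := Finset.sum_le_sum hone
      _ = (MM.filter (fun M : ℕ => H / (2 * q) ≤ Real.log M)).card * B' := by
          rw [Finset.sum_const, nsmul_eq_mul]
      _ ≤ MM.card * B' := by
          apply mul_le_mul_of_nonneg_right _ hB'0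
          exact_mod_cast Finset.card_filter_le _ _
      _ ≤ KB * B' := mul_le_mul_of_nonneg_right (m1.trans (hKB S hp hprodn)) hB'0
  calc (T.card : ℝ) = ∑ S ∈ T.image (fun t => (D t).primeFactors),
        ((T.filter (fun t => (D t).primeFactors = S)).card : ℝ) := by
        rw [Finset.card_eq_sum_card_image (fun t => (D t).primeFactors) T]
        push_cast
        rfl
    _ ≤ ∑ _S ∈ T.image (fun t => (D t).primeFactors), KB * B' := Finset.sum_le_sum hfib
    _ = ((T.image (fun t => (D t).primeFactors)).card : ℝ) * (KB * B') := by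
        rw [Finset.sum_const, nsmul_eq_mul]
    _ ≤ z * (KB * B') :=
        mul_le_mul_of_nonneg_right hcount (mul_nonneg hKB0 hB'0)

/-- Triples of one class with a large divisor of small radical. -/
theorem count_divisor (q : ℕ) (hq : 1 ≤ q) (ε : ℝ) (hε : 0 < ε) (hε1 : ε ≤ 1) :
    ∃ η K' R0 : ℝ, 0 < η ∧ η ≤ 1 ∧ 1 ≤ K' ∧ 1 ≤ R0 ∧ ∀ᶠ n : ℕ in atTop,
      ∀ (z H : ℝ) (r : ℕ) (T : Finset (ℕ × ℕ)), 0 ≤ z → R0 ≤ r → K' * r * Real.log n ≤ H →
      (∀ t ∈ T, IsT t ∧ rd t ≤ n ∧ ht t ≤ 2 * H ∧ Appr r (η * r * Real.log n) t ∧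
        ∃ (l : Fin 3) (D : ℕ), D ∣ comp t l ∧ (∏ p ∈ D.primeFactors, (p : ℝ)) ≤ z ∧
          H / q ≤ Real.log D) →
      (T.card : ℝ) ≤ z * (n : ℝ) ^ ε := by
  classical
  have hq' : (1 : ℝ) ≤ q := by exact_mod_cast hq
  obtain ⟨w, hw⟩ : ∃ w : ℕ, w = ⌈16 / ε⌉₊ := ⟨_, rfl⟩
  have hw16 : 16 / ε ≤ w := hw ▸ Nat.le_ceil _
  have hw1 : (1 : ℝ) ≤ w := by
    refine le_trans ?_ hw16
    rw [le_div_iff₀ hε]
    linarith
  have hw1' : 1 ≤ w := by exact_mod_cast hw1
  have hwε : 16 ≤ (w : ℝ) * ε := by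
    rwa [div_le_iff₀ hε] at hw16
  have hw2 : (1 : ℝ) ≤ (w : ℝ) ^ 2 := one_le_pow₀ hw1
  have hw2q : (1 : ℝ) ≤ (w : ℝ) ^ 2 * q := by nlinarith
  obtain ⟨η, hη⟩ : ∃ η : ℝ, η = ε / (4 * 10 ^ 6 * (w ^ 2 * q)) := ⟨_, rfl⟩
  have hη0 : 0 < η := by rw [hη]; positivity
  have hηw : η * (4 * 10 ^ 6 * (w ^ 2 * q)) = ε := by rw [hη]; field_simp
  have hη1 : η ≤ 1 := by nlinarith
  have hηw2 : 884736 * ((w : ℝ) ^ 2 * q) * η ≤ 1 := by nlinarith
  have hB32 := BconD_ge_one (32 * q)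
  have h2w : (1 : ℝ) ≤ 2 ^ (w + 1) := one_le_pow₀ (by norm_num)
  have hB1 : (1 : ℝ) ≤ 2 ^ (w + 1) * BconD (32 * q) := by nlinarith
  obtain ⟨K1, hK11, hK1⟩ := cb_pow_card_le (2 ^ (w + 1) * BconD (32 * q)) (ε / 16) hB1
    (by positivity)
  obtain ⟨K2, hK21, hK2⟩ := cb_pow_card_le (BconD (2 * q)) (ε / 16) (BconD_ge_one _)
    (by positivity)
  have hwq : (1 : ℝ) ≤ w * q := by nlinarith
  refine ⟨η, 1000 * (w * q), 6000 * (w * q), hη0, hη1, by linarith, by linarith, ?_⟩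
  have hlog : Tendsto (fun n : ℕ => Real.log n) atTop atTop :=
    Real.tendsto_log_atTop.comp tendsto_natCast_atTop_atTop
  have hpow : Tendsto (fun n : ℕ => (n : ℝ) ^ (3 * ε / 4)) atTop atTop :=
    (tendsto_rpow_atTop (by positivity)).comp tendsto_natCast_atTop_atTop
  filter_upwards [eventually_ge_atTop 1, hlog.eventually (eventually_ge_atTop 1),
    hlog.eventually (eventually_ge_atTop (1 / (2 * w * η))),
    hpow.eventually (eventually_ge_atTop (3 * (K1 * K2)))] with n hn1 hx1 hx2 hn3 z H r T hz hr hH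
    hT
  have hn1' : (1 : ℝ) ≤ n := by exact_mod_cast hn1
  have hn0 : (0 : ℝ) < n := by linarith
  have hr0 : (0 : ℝ) < r := by linarith
  obtain ⟨x, hx⟩ : ∃ x : ℝ, x = Real.log n := ⟨_, rfl⟩
  rw [← hx] at hx1 hx2 hH
  have hx0 : 0 < x := by linarith
  have hwη : 1 ≤ 2 * w * η * x := by
    rwa [div_le_iff₀ (by positivity), mul_comm] at hx2
  have hrx0 : 0 < r * x := by positivity
  have hW1 : η * r * x ≤ r * x := by nlinarith
  have hWr : (r : ℝ) ≤ 2 * w * (η * r * x) := by nlinarith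
  have hW2 : 884736 * ((w : ℝ) ^ 2 * q) * (η * r * x) ≤ r * x := by
    calc 884736 * ((w : ℝ) ^ 2 * q) * (η * r * x) =
        (884736 * ((w : ℝ) ^ 2 * q) * η) * (r * x) := by ring
      _ ≤ 1 * (r * x) := mul_le_mul_of_nonneg_right hηw2 hrx0.le
      _ = r * x := one_mul _
  have hexp : Real.exp (2 * x / w) ≤ (n : ℝ) ^ (ε / 8) := by
    rw [Real.rpow_def_of_pos hn0, ← hx]
    apply Real.exp_le_exp.2
    rw [div_le_iff₀ (by linarith)]
    nlinarith
  obtain ⟨nn, hnn⟩ : ∃ nn : ℕ, nn = T.sup (fun t => (N t).primeFactors.card) := ⟨_, rfl⟩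
  have hnnT : ∀ t ∈ T, (N t).primeFactors.card ≤ nn := fun t ht => by
    rw [hnn]; exact Finset.le_sup (f := fun t => (N t).primeFactors.card) ht
  have hKn : (2 ^ (w + 1) * BconD (32 * q)) ^ nn ≤ K1 * (n : ℝ) ^ (ε / 16) := by
    rcases T.eq_empty_or_nonempty with rfl | hne
    · rw [Finset.sup_empty] at hnn
      subst hnn
      have h1 : (1 : ℝ) ≤ (n : ℝ) ^ (ε / 16) := Real.one_le_rpow hn1' (by positivity)
      simp only [Nat.bot_eq_zero, pow_zero]
      nlinarith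
    · obtain ⟨t, ht, hte⟩ := Finset.exists_mem_eq_sup T hne (fun t => (N t).primeFactors.card)
      rw [hnn, hte]
      refine (hK1 _ fun p hp => (Nat.prime_of_mem_primeFactors hp).two_le).trans ?_
      apply mul_le_mul_of_nonneg_left _ (by linarith)
      apply Real.rpow_le_rpow (Finset.prod_nonneg fun _ _ => Nat.cast_nonneg _) _ (by positivity)
      have h1 : ((rd t : ℕ) : ℝ) ≤ n := by exact_mod_cast (hT t ht).2.1
      unfold rd at h1
      push_cast at h1
      exact h1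
  have hKB : ∀ S : Finset ℕ, (∀ p ∈ S, p.Prime) → (∏ p ∈ S, (p : ℝ)) ≤ n →
      BconD (2 * q) ^ S.card ≤ K2 * (n : ℝ) ^ (ε / 16) := by
    intro S hS hprod
    refine (hK2 S fun p hp => (hS p hp).two_le).trans ?_
    apply mul_le_mul_of_nonneg_left _ (by linarith)
    exact Real.rpow_le_rpow (Finset.prod_nonneg fun _ _ => Nat.cast_nonneg _) hprod (by positivity)
  have hB' : (2 ^ (w + 1) * BconD (32 * q)) ^ nn * Real.exp (2 * x / w) ≤
      K1 * (n : ℝ) ^ (ε / 16) * (n : ℝ) ^ (ε / 8) :=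
    mul_le_mul hKn hexp (Real.exp_pos _).le (by positivity)
  have hlab : ∀ l : Fin 3, ((T.filter (fun t => ∃ D : ℕ, D ∣ comp t l ∧
      (∏ p ∈ D.primeFactors, (p : ℝ)) ≤ z ∧ H / q ≤ Real.log D)).card : ℝ) ≤ z *
      (K2 * (n : ℝ) ^ (ε / 16) * (K1 * (n : ℝ) ^ (ε / 16) * (n : ℝ) ^ (ε / 8))) := by
    intro l
    refine cq_label (H := H) (W := η * r * x) l _ hw1' hq hx1 hr ?_ hWr hW1 hW2 hx hn1 hz hB' hKB ?_
    · calc 1000 * (w * q) * (r * x) = 1000 * (w * q) * r * x := by ring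
        _ ≤ H := hH
    intro t ht
    obtain ⟨ht1, ht2⟩ := Finset.mem_filter.1 ht
    obtain ⟨a1, a2, a3, a4, a5⟩ := hT t ht1
    exact ⟨a1, a2, a3, hx ▸ a4, hnnT t ht1, ht2⟩
  have hcov : T ⊆ (Finset.univ : Finset (Fin 3)).biUnion (fun l =>
      T.filter (fun t => ∃ D : ℕ, D ∣ comp t l ∧
      (∏ p ∈ D.primeFactors, (p : ℝ)) ≤ z ∧ H / q ≤ Real.log D)) := by
    intro t ht
    obtain ⟨_, _, _, _, l, hl⟩ := hT t ht
    exact Finset.mem_biUnion.2 ⟨l, Finset.mem_univ l, Finset.mem_filter.2 ⟨ht, hl⟩⟩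
  have hfin : (T.card : ℝ) ≤ 3 * (z *
      (K2 * (n : ℝ) ^ (ε / 16) * (K1 * (n : ℝ) ^ (ε / 16) * (n : ℝ) ^ (ε / 8)))) := by
    calc (T.card : ℝ) ≤ (((Finset.univ : Finset (Fin 3)).biUnion (fun l =>
          T.filter (fun t => ∃ D : ℕ, D ∣ comp t l ∧
            (∏ p ∈ D.primeFactors, (p : ℝ)) ≤ z ∧ H / q ≤ Real.log D))).card : ℝ) := by
          exact_mod_cast Finset.card_le_card hcov
      _ ≤ ∑ l : Fin 3, ((T.filter (fun t => ∃ D : ℕ, D ∣ comp t l ∧
            (∏ p ∈ D.primeFactors, (p : ℝ)) ≤ z ∧ H / q ≤ Real.log D)).card : ℝ) := by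
          exact_mod_cast Finset.card_biUnion_le
      _ ≤ ∑ _l : Fin 3, (z *
          (K2 * (n : ℝ) ^ (ε / 16) * (K1 * (n : ℝ) ^ (ε / 16) * (n : ℝ) ^ (ε / 8)))) :=
          Finset.sum_le_sum fun l _ => hlab l
      _ = _ := by
          rw [Finset.sum_const, Finset.card_univ, Fintype.card_fin, nsmul_eq_mul]
          norm_num
  refine hfin.trans ?_
  have e1 : 3 * (z *
      (K2 * (n : ℝ) ^ (ε / 16) * (K1 * (n : ℝ) ^ (ε / 16) * (n : ℝ) ^ (ε / 8)))) =
      z * (3 * (K1 * K2) * (n : ℝ) ^ (ε / 4)) := by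
    have e : (ε / 4 : ℝ) = ε / 16 + (ε / 16 + ε / 8) := by ring
    rw [e, Real.rpow_add hn0, Real.rpow_add hn0]
    ring
  rw [e1]
  apply mul_le_mul_of_nonneg_left _ hz
  calc 3 * (K1 * K2) * (n : ℝ) ^ (ε / 4)
      ≤ (n : ℝ) ^ (3 * ε / 4) * (n : ℝ) ^ (ε / 4) :=
        mul_le_mul_of_nonneg_right hn3 (by positivity)
    _ = (n : ℝ) ^ ε := by
        rw [← Real.rpow_add hn0]
        congr 1
        ring

end Pool.Agent.Lib.Pabc11
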