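import Pool.Agent.Lib.Pabc11.FamR
import Pool.Agent.Lib.Pabc1.SClass
import Pool.Agent.Lib.Pabc2.Count
import Pool.Agent.Lib.Pabc8.PolyR
import Pool.Agent.Lib.Pabc9.RadLemma

/-!
# Unbalanced triples of one class

`family_real` with `P t = comp t 2 = t.1 + t.2`, `Q t = comp t 1 = t.2`, `F t` from `Appr`, `H := 2 H`,
`m = H / 8`, `K = 128`, `W = η r x`, `x = log n`, `a = 2 W`, `b = 2 (2 H + W) / r` (`4 H / r ≤ b ≤ 6 H / r`).
Relation: `0 ≤ log (a + b) - log b ≤ a / b ≤ 2 a / c ≤ 2 exp (-ht t / 4) ≤ 2 exp (-H / 4) ≤ exp (-H/8) / 2`.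
`η = ε / 10 ^ 7`, `R0 = 24000`, `K' = 1`; `36864 a b / m ≤ 36864 * 96 η x ≤ ε x / 2`;
`(W + 1) / r ≤ η x + 1`; `BconD 128 ^ (number of primes) ≤ K1 n^(ε/8)` (a constant to the number of primes of
`N t`, `∏ p ≤ n`); the `n` of `Fam` is the maximal number of primes of `N t`, `t ∈ T`.
-/

open Finset Filter

namespace Pool.Agent.Lib.Pabc11

open Pool.Agent.Lib.Pabc2 Pool.Agent.Lib.Pabc1

/-- A constant to the number of primes is a small power of the product of the primes. -/
theorem cu_card_pow_le (B ε : ℝ) (hB : 1 ≤ B) (hε : 0 < ε) :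
    ∃ K : ℝ, 1 ≤ K ∧ ∀ S : Finset ℕ, (∀ p ∈ S, 2 ≤ p) →
      B ^ S.card ≤ K * (∏ p ∈ S, (p : ℝ)) ^ ε := by
  have hl2 : 0 < Real.log 2 := Real.log_pos (by norm_num)
  obtain ⟨K, hK1, hK⟩ := Pool.Agent.Lib.Pabc9.prod_const_log_le (max 1 (B / Real.log 2)) ε
    (le_max_left _ _) hε
  refine ⟨K, hK1, fun S hS => ?_⟩
  refine le_trans ?_ (hK S hS)
  rw [← Finset.prod_const]
  apply Finset.prod_le_prod (fun _ _ => by linarith)
  intro p hp
  have h2 : Real.log 2 ≤ Real.log p := Real.log_le_log (by norm_num) (by exact_mod_cast hS p hp)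
  have h3 : B / Real.log 2 ≤ max 1 (B / Real.log 2) := le_max_right _ _
  have h4 : 0 ≤ B / Real.log 2 := by positivity
  calc B = B / Real.log 2 * Real.log 2 := by field_simp
    _ ≤ max 1 (B / Real.log 2) * Real.log p := mul_le_mul h3 h2 hl2.le (h4.trans h3)

theorem cu_ex_eq_sum {t : ℕ × ℕ} (h : IsT t) (p : ℕ) :
    ex t p = t.1.factorization p + t.2.factorization p + (t.1 + t.2).factorization p := by
  have ha : t.1 ≠ 0 := h.1.ne'
  have hb : t.2 ≠ 0 := h.pos2.ne'
  have hc : t.1 + t.2 ≠ 0 := by omega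
  unfold ex N
  rw [Nat.factorization_mul (mul_ne_zero ha hb) hc, Nat.factorization_mul ha hb]
  rfl

/-- The two larger members of a triple of small total error have small total error. -/
theorem cu_err_two_le {t : ℕ × ℕ} (h : IsT t) {r : ℕ} {W : ℝ} {F : ℕ → ℕ}
    (hF : ∑ p ∈ (N t).primeFactors, |(ex t p : ℝ) - r * F p| * Real.log p ≤ W) :
    err r (t.1 + t.2) F + err r t.2 F ≤ W ∧
      (t.1 + t.2).primeFactors.card + t.2.primeFactors.card ≤ (N t).primeFactors.card := by
  classical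
  have ha : t.1 ≠ 0 := h.1.ne'
  have hb : t.2 ≠ 0 := h.pos2.ne'
  have hc : t.1 + t.2 ≠ 0 := by omega
  have hcop := h.2.2
  have hcop2 : Nat.Coprime (t.1 + t.2) t.2 := by
    rw [Nat.coprime_add_self_left]
    exact hcop
  have hcop1 : Nat.Coprime (t.1 + t.2) t.1 := by
    rw [add_comm, Nat.coprime_add_self_left]
    exact hcop.symm
  have hdisj : Disjoint (t.1 + t.2).primeFactors t.2.primeFactors := hcop2.disjoint_primeFactors
  have hsub : (t.1 + t.2).primeFactors ∪ t.2.primeFactors ⊆ (N t).primeFactors := by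
    apply Finset.union_subset
    · exact Nat.primeFactors_mono (Dvd.intro_left _ rfl) h.N_ne
    · exact Nat.primeFactors_mono ⟨t.1 * (t.1 + t.2), by unfold N; ring⟩ h.N_ne
  have hz : ∀ p : ℕ, ∀ x y : ℕ, Nat.Coprime x y → p ∈ x.primeFactors → y.factorization p = 0 := by
    intro p x y hxy hp
    apply Nat.factorization_eq_zero_of_not_dvd
    intro hd
    have h1 := Nat.dvd_gcd (Nat.dvd_of_mem_primeFactors hp) hd
    rw [hxy] at h1
    exact (Nat.prime_of_mem_primeFactors hp).not_dvd_one h1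
  constructor
  · refine le_trans ?_ hF
    have e : err r (t.1 + t.2) F + err r t.2 F =
        ∑ p ∈ (t.1 + t.2).primeFactors ∪ t.2.primeFactors,
          |(ex t p : ℝ) - r * F p| * Real.log p := by
      rw [Finset.sum_union hdisj]
      unfold err
      congr 1
      · refine Finset.sum_congr rfl fun p hp => ?_
        have : ex t p = (t.1 + t.2).factorization p := by
          rw [cu_ex_eq_sum h, hz p _ _ hcop1 hp, hz p _ _ hcop2 hp]
          simp
        rw [this]
      · refine Finset.sum_congr rfl fun p hp => ?_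
        have : ex t p = t.2.factorization p := by
          rw [cu_ex_eq_sum h, hz p _ _ hcop.symm hp, hz p _ _ hcop2.symm hp]
          simp
        rw [this]
    rw [e]
    exact Finset.sum_le_sum_of_subset_of_nonneg hsub
      fun p _ _ => mul_nonneg (abs_nonneg _) (Real.log_natCast_nonneg _)
  · rw [← Finset.card_union_of_disjoint hdisj]
    exact Finset.card_le_card hsub

/-- The archimedean relation of an unbalanced triple. -/
theorem cu_rel {t : ℕ × ℕ} (h : IsT t) {H : ℝ} (hH : H ≤ ht t)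
    (ha : Real.log t.1 < 3 / 4 * ht t) (h8 : 1000 ≤ H / 8) :
    |Real.log ((t.1 + t.2 : ℕ) : ℝ) - Real.log (t.2 : ℝ)| ≤ Real.exp (-(H / 8)) / 2 := by
  have pa : (0 : ℝ) < t.1 := by exact_mod_cast h.1
  have pb : (0 : ℝ) < t.2 := by exact_mod_cast h.pos2
  have hab : (t.1 : ℝ) ≤ t.2 := by exact_mod_cast h.2.1
  have pc : (0 : ℝ) < (t.1 : ℝ) + t.2 := by positivity
  push_cast
  rw [← Real.log_div pc.ne' pb.ne']
  have e : ((t.1 : ℝ) + t.2) / t.2 = 1 + t.1 / t.2 := by
    field_simp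
    ring
  rw [e]
  have hq : 0 < (t.1 : ℝ) / t.2 := by positivity
  have h0 : 0 ≤ Real.log (1 + (t.1 : ℝ) / t.2) := Real.log_nonneg (by linarith)
  rw [abs_of_nonneg h0]
  have h1 : Real.log (1 + (t.1 : ℝ) / t.2) ≤ (t.1 : ℝ) / t.2 := by
    have := Real.log_le_sub_one_of_pos (show (0 : ℝ) < 1 + t.1 / t.2 by positivity)
    linarith
  have h2 : (t.1 : ℝ) / t.2 ≤ 2 * (t.1 / ((t.1 : ℝ) + t.2)) := by
    rw [← mul_div_assoc, div_le_div_iff₀ pb pc]
    nlinarith
  have h3 : (t.1 : ℝ) / ((t.1 : ℝ) + t.2) ≤ Real.exp (-(H / 4)) := by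
    have e1 : (t.1 : ℝ) / ((t.1 : ℝ) + t.2) = Real.exp (Real.log t.1 - ht t) := by
      rw [Real.exp_sub, Real.exp_log pa]
      unfold ht
      rw [Real.exp_log pc]
    rw [e1]
    apply Real.exp_le_exp.mpr
    linarith
  have h4 : Real.exp (-(H / 4)) = Real.exp (-(H / 8)) * Real.exp (-(H / 8)) := by
    rw [← Real.exp_add]
    congr 1
    ring
  have h5 : Real.exp (-(H / 8)) ≤ 1 / 4 := by
    rw [Real.exp_neg, inv_eq_one_div]
    apply one_div_le_one_div_of_le (by norm_num)
    have := Real.add_one_le_exp (H / 8)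
    linarith
  have h6 := Real.exp_pos (-(H / 8))
  nlinarith

theorem count_unbalanced (ε : ℝ) (hε : 0 < ε) (hε1 : ε ≤ 1) :
    ∃ η K' R0 : ℝ, 0 < η ∧ η ≤ 1 ∧ 1 ≤ K' ∧ 1 ≤ R0 ∧ ∀ᶠ n : ℕ in atTop,
      ∀ (H : ℝ) (r : ℕ) (T : Finset (ℕ × ℕ)), R0 ≤ r → K' * r * Real.log n ≤ H →
      (∀ t ∈ T, IsT t ∧ rd t ≤ n ∧ H ≤ ht t ∧ ht t ≤ 2 * H ∧ Real.log t.1 < 3 / 4 * ht t ∧
        Appr r (η * r * Real.log n) t) →
      (T.card : ℝ) ≤ (n : ℝ) ^ ε := by
  classical
  obtain ⟨K1, hK11, hK1⟩ := cu_card_pow_le (BconD 128) (ε / 8) (BconD_ge_one 128) (by positivity)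
  refine ⟨ε / 10 ^ 7, 1, 24000, by positivity, ?_, le_rfl, by norm_num, ?_⟩
  · rw [div_le_one (by norm_num)]
    linarith
  set η : ℝ := ε / 10 ^ 7 with hη
  have hη0 : 0 < η := by positivity
  have hη1 : η ≤ 1 / 10 ^ 7 := by
    rw [hη]
    apply div_le_div_of_nonneg_right hε1 (by norm_num)
  have hlog : Tendsto (fun n : ℕ => Real.log (n : ℝ)) atTop atTop :=
    Real.tendsto_log_atTop.comp tendsto_natCast_atTop_atTop
  filter_upwards [hlog.eventually_ge_atTop (1 / (2 * η)), hlog.eventually_ge_atTop 1,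
    hlog.eventually_ge_atTop (K1 * 97 * 128 / (9 * ε ^ 2)), eventually_ge_atTop 1]
    with n hx1 hx2 hx3 hn1
  intro H r T hr hH hT
  set x : ℝ := Real.log n with hx
  have hn0 : (0 : ℝ) < n := by exact_mod_cast hn1
  have hn1' : (1 : ℝ) ≤ n := by exact_mod_cast hn1
  have hnpow : (1 : ℝ) ≤ (n : ℝ) ^ ε := Real.one_le_rpow hn1' hε.le
  rcases T.eq_empty_or_nonempty with rfl | hne
  · rw [Finset.card_empty]
    push_cast
    linarith
  have hr0 : (0 : ℝ) < r := by linarith
  have hr1 : (1 : ℝ) ≤ r := by linarith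
  have hrx : (r : ℝ) * x ≤ H := by linarith
  have hrx24 : 24000 * x ≤ (r : ℝ) * x := mul_le_mul_of_nonneg_right hr (by linarith)
  have hHbig : 24000 ≤ H := by linarith
  -- the functions F
  have hex : ∀ t : ℕ × ℕ, ∃ F : ℕ → ℕ, t ∈ T →
      ∑ p ∈ (N t).primeFactors, |(ex t p : ℝ) - r * F p| * Real.log p ≤ η * r * x := by
    intro t
    by_cases ht' : t ∈ T
    · obtain ⟨F, hF⟩ := (hT t ht').2.2.2.2.2
      exact ⟨F, fun _ => hF⟩
    · exact ⟨fun _ => 0, fun h => absurd h ht'⟩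
  choose F hF using hex
  set W : ℝ := η * r * x with hW
  have hW0 : 0 < W := by positivity
  have hWH : W ≤ η * H := by
    rw [hW, mul_assoc]
    exact mul_le_mul_of_nonneg_left hrx hη0.le
  have hWH' : W ≤ 1 / 10 ^ 7 * H := hWH.trans (mul_le_mul_of_nonneg_right hη1 (by linarith))
  obtain ⟨t1, ht1, hsup⟩ := Finset.exists_mem_eq_sup T hne (fun t => (N t).primeFactors.card)
  set nn : ℕ := T.sup (fun t => (N t).primeFactors.card) with hnn
  have hFam : Fam T (fun t => t.1 + t.2) (fun t => t.2) F r nn (2 * H) W := by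
    refine ⟨?_, ?_, ?_, ?_, ?_, ?_, ?_, ?_⟩
    · intro t ht'
      have := (hT t ht').1.1
      show 0 < t.1 + t.2
      omega
    · intro t ht'
      exact (hT t ht').1.pos2
    · intro t ht'
      show Nat.Coprime (t.1 + t.2) t.2
      rw [Nat.coprime_add_self_left]
      exact (hT t ht').1.2.2
    · intro t _ s _ h1 h2
      have h1' : t.1 + t.2 = s.1 + s.2 := h1
      have h2' : t.2 = s.2 := h2
      exact Prod.ext (by omega) h2'
    · intro t ht'
      have := (hT t ht').2.2.2.1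
      unfold ht at this
      show Real.log ((t.1 + t.2 : ℕ) : ℝ) ≤ 2 * H
      push_cast
      exact this
    · intro t ht'
      exact (log_b_le (hT t ht').1).trans (hT t ht').2.2.2.1
    · intro t ht'
      exact (cu_err_two_le (hT t ht').1 (hF t ht')).1
    · intro t ht'
      exact ((cu_err_two_le (hT t ht').1 (hF t ht')).2).trans
        (Finset.le_sup (f := fun t => (N t).primeFactors.card) ht')
  set b : ℝ := 2 * (2 * H + W) / r with hb
  have hbr : b * r = 2 * (2 * H + W) := by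
    rw [hb]
    field_simp
  have hb6 : b ≤ 6 * (H / r) := by
    rw [hb, ← mul_div_assoc]
    apply div_le_div_of_nonneg_right _ hr0.le
    linarith
  have hb4 : 4 * (H / r) ≤ b := by
    rw [hb, ← mul_div_assoc]
    apply div_le_div_of_nonneg_right _ hr0.le
    linarith
  have hHr : x ≤ H / r := by
    rw [le_div_iff₀ hr0]
    linarith
  have hHr2 : H / r ≤ H / 24000 := by
    apply div_le_div_of_nonneg_left (by linarith) (by norm_num) hr
  have key := family_real hFam (H / 8) ?_ 128 (2 * W) b ?_ le_rfl ?_ ?_ ?_ ?_ ?_ ?_ ?_ ?_ hW0.le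
  · -- conclusion
    have hB : BconD 128 ^ nn ≤ K1 * (n : ℝ) ^ (ε / 8) := by
      have h1 := hK1 (N t1).primeFactors (fun p hp => (Nat.prime_of_mem_primeFactors hp).two_le)
      have h2 : (∏ p ∈ (N t1).primeFactors, (p : ℝ)) ≤ n := by
        have h0 : ((∏ p ∈ (N t1).primeFactors, p : ℕ) : ℝ) ≤ n := by
          exact_mod_cast (hT t1 ht1).2.1
        rwa [Nat.cast_prod] at h0
      have h3 : (∏ p ∈ (N t1).primeFactors, (p : ℝ)) ^ (ε / 8) ≤ (n : ℝ) ^ (ε / 8) := by
        apply Real.rpow_le_rpow _ h2 (by positivity)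
        exact Finset.prod_nonneg fun p _ => Nat.cast_nonneg p
      rw [hsup]
      exact h1.trans (mul_le_mul_of_nonneg_left h3 (by linarith))
    have hexp : 36864 * (2 * W) * b / (H / 8) ≤ ε * x / 2 := by
      have hH0 : 0 < H / 8 := by linarith
      rw [div_le_iff₀ hH0]
      have h1 : 36864 * (2 * W) * b ≤ 36864 * (2 * W) * (6 * (H / r)) :=
        mul_le_mul_of_nonneg_left hb6 (by positivity)
      have h2 : 36864 * (2 * W) * (6 * (H / r)) = 442368 * η * x * H := by
        rw [hW]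
        field_simp
        ring
      have h3 : 442368 * η * x * H ≤ ε * x / 2 * (H / 8) := by
        rw [hη]
        have : 0 ≤ ε * x * H := by
          have : 0 < H := by linarith
          positivity
        nlinarith
      linarith
    have hexp2 : Real.exp (36864 * (2 * W) * b / (H / 8)) ≤ (n : ℝ) ^ (ε / 2) := by
      rw [Real.rpow_def_of_pos hn0]
      apply Real.exp_le_exp.mpr
      rw [← hx]
      linarith
    have hWr : (W + 1) / r ≤ x + 1 := by
      rw [div_le_iff₀ hr0, hW]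
      have h1 : η * r * x ≤ x * r := by
        have : η ≤ 1 := hη1.trans (by norm_num)
        have h2 : 0 ≤ r * x := by positivity
        nlinarith
      nlinarith
    have hWr0 : 0 ≤ (W + 1) / r := by positivity
    have hn2 : (1 : ℝ) ≤ (n : ℝ) ^ (ε / 2) := Real.one_le_rpow hn1' (by positivity)
    have hfin : K1 * (48 * (x + 1) + 1) ≤ (n : ℝ) ^ (3 * ε / 8) := by
      rw [Real.rpow_def_of_pos hn0, ← hx]
      have h1 := Real.quadratic_le_exp_of_nonneg (show 0 ≤ x * (3 * ε / 8) by positivity)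
      refine le_trans ?_ h1
      have h2 : K1 * 97 * 128 ≤ x * (9 * ε ^ 2) := by
        rw [div_le_iff₀ (by positivity)] at hx3
        exact hx3
      have h3 : K1 * 97 * 128 * x ≤ x * (9 * ε ^ 2) * x :=
        mul_le_mul_of_nonneg_right h2 (by linarith)
      have h4 : K1 * (48 * (x + 1) + 1) ≤ K1 * (97 * x) :=
        mul_le_mul_of_nonneg_left (by linarith) (by linarith)
      have h5 : 0 ≤ x * (3 * ε / 8) := by positivity
      nlinarith
    calc (T.card : ℝ) ≤ BconD 128 ^ nn *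
          (48 * ((W + 1) / r) * Real.exp (36864 * (2 * W) * b / (H / 8)) + 1) := key
      _ ≤ K1 * (n : ℝ) ^ (ε / 8) * (48 * (x + 1) * (n : ℝ) ^ (ε / 2) + (n : ℝ) ^ (ε / 2)) := by
          apply mul_le_mul hB _ (by positivity) (by positivity)
          apply add_le_add _ hn2
          apply mul_le_mul _ hexp2 (Real.exp_pos _).le (by positivity)
          linarith
      _ = K1 * (48 * (x + 1) + 1) * ((n : ℝ) ^ (ε / 8) * (n : ℝ) ^ (ε / 2)) := by ring
      _ ≤ (n : ℝ) ^ (3 * ε / 8) * ((n : ℝ) ^ (ε / 8) * (n : ℝ) ^ (ε / 2)) :=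
          mul_le_mul_of_nonneg_right hfin (by positivity)
      _ = (n : ℝ) ^ ε := by
          rw [← Real.rpow_add hn0, ← Real.rpow_add hn0]
          congr 1
          ring
  · intro t ht'
    obtain ⟨h1, _, h3, _, h5, _⟩ := hT t ht'
    exact cu_rel h1 h3 h5 (by linarith)
  · rw [hbr]
  · linarith
  · linarith
  · rw [hW]
    have h1 : 1 ≤ 2 * η * x := by
      rw [div_le_iff₀ (by positivity)] at hx1
      linarith
    nlinarith
  · rw [mul_assoc, hbr]
    linarith
  · linarith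
  · linarith
  · linarith
  · norm_num
    linarith

end Pool.Agent.Lib.Pabc11
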