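import Mathlib

/-!
# Random splitting of the primes and collisions of products

`exists_free`: double counting. Let `U = T.biUnion (fun t => A t ∪ B t)`. For `t ∈ T` the subsets
`V ⊆ U` with `A t ⊆ V` and `Disjoint (B t) V` number `2 ^ (U.card - (A t).card - (B t).card)`, at least
`2 ^ U.card / 2 ^ n` (inject `(U \ (A t ∪ B t)).powerset` by `V ↦ V ∪ A t`). Sum over `t`, exchange the
sums: some `V` is good for at least `T.card / 2 ^ n` of the `t`; `T'` = these `t`.

`exists_rep`: choose one element of each fibre of `f` (`Finset.card_le_mul_card_image` bounds `T.card` by the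
maximal fibre times the number of values).

`exists_collision`: for `τ ∈ Fintype.piFinset (fun _ : Fin w => T)` let
`Φ τ = (∏ i, u (τ i), ∏ i, v (τ i))`. Fibres of `Φ` have at most `(2 ^ (w * n)) ^ w` elements: every
`τ i` is determined (`hinj`) by the pair of sets `((u (τ i)).primeFactors, (v (τ i)).primeFactors)`, a
pair of subsets of the prime factors of `∏ u (τ i)` and `∏ v (τ i)`, which have together at most `w n`
elements. So the image of `Φ` has more than `M0` elements, and two of its elements, `Φ τ ≠ Φ τ'`, have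
the same value of `(∏ u) * (∏ v)⁻¹` in the units of `ZMod M0` (`hM0`; for `M0 = 1` everything is
congruent). `(∏ u (τ i)) (∏ v (τ' i)) = (∏ v (τ i)) (∏ u (τ' i))` would give `Φ τ = Φ τ'`, the products of
the `u` being coprime to the products of the `v` (`hcop`).
-/

open Finset

namespace Pool.Agent.Lib.Pabc11

theorem exists_free {ι : Type*} [DecidableEq ι] (T : Finset ι) (A B : ι → Finset ℕ) (n : ℕ)
    (hd : ∀ t ∈ T, Disjoint (A t) (B t)) (hn : ∀ t ∈ T, (A t).card + (B t).card ≤ n) :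
    ∃ T' ⊆ T, T.card ≤ 2 ^ n * T'.card ∧ ∀ t ∈ T', ∀ s ∈ T', Disjoint (A t) (B s) := by
  classical
  set U := T.biUnion (fun t => A t ∪ B t) with hU
  have hAU : ∀ t ∈ T, A t ⊆ U := fun t ht =>
    (Finset.subset_union_left).trans (Finset.subset_biUnion_of_mem (fun t => A t ∪ B t) ht)
  have hBU : ∀ t ∈ T, B t ⊆ U := fun t ht =>
    (Finset.subset_union_right).trans (Finset.subset_biUnion_of_mem (fun t => A t ∪ B t) ht)
  -- the number of good sets
  have hN : ∀ t ∈ T, 2 ^ U.card ≤
      2 ^ n * (U.powerset.filter (fun V => A t ⊆ V ∧ Disjoint (B t) V)).card := by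
    intro t ht
    have h1 : (U \ (A t ∪ B t)).powerset.card ≤
        (U.powerset.filter (fun V => A t ⊆ V ∧ Disjoint (B t) V)).card := by
      refine Finset.card_le_card_of_injOn (fun V => V ∪ A t) ?_ ?_
      · intro V hV
        rw [Finset.mem_coe, Finset.mem_powerset] at hV
        rw [Finset.mem_coe, Finset.mem_filter, Finset.mem_powerset]
        refine ⟨Finset.union_subset (hV.trans Finset.sdiff_subset) (hAU t ht),
          Finset.subset_union_right, ?_⟩
        rw [Finset.disjoint_union_right]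
        refine ⟨?_, (hd t ht).symm⟩
        rw [Finset.disjoint_left]
        intro x hx hxV
        have := hV hxV
        rw [Finset.mem_sdiff] at this
        exact this.2 (Finset.mem_union_right _ hx)
      · intro V hV V' hV' hVV
        rw [Finset.mem_coe, Finset.mem_powerset] at hV hV'
        have h2 : ∀ W ⊆ U \ (A t ∪ B t), (W ∪ A t) \ A t = W := by
          intro W hW
          ext x
          rw [Finset.mem_sdiff, Finset.mem_union]
          constructor
          · rintro ⟨h | h, h'⟩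
            · exact h
            · exact absurd h h'
          · intro h
            refine ⟨Or.inl h, fun h' => ?_⟩
            have := hW h
            rw [Finset.mem_sdiff] at this
            exact this.2 (Finset.mem_union_left _ h')
        have h3 : (V ∪ A t) \ A t = (V' ∪ A t) \ A t := by
          have : V ∪ A t = V' ∪ A t := hVV
          rw [this]
        rwa [h2 V hV, h2 V' hV'] at h3
    rw [Finset.card_powerset] at h1
    have h2 : U.card ≤ n + (U \ (A t ∪ B t)).card := by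
      have h3 : (A t ∪ B t).card ≤ n := (Finset.card_union_le _ _).trans (hn t ht)
      have h4 : (U \ (A t ∪ B t)).card + (A t ∪ B t).card = U.card :=
        Finset.card_sdiff_add_card_eq_card (Finset.union_subset (hAU t ht) (hBU t ht))
      omega
    calc 2 ^ U.card ≤ 2 ^ (n + (U \ (A t ∪ B t)).card) := Nat.pow_le_pow_right (by norm_num) h2
      _ = 2 ^ n * 2 ^ (U \ (A t ∪ B t)).card := pow_add _ _ _
      _ ≤ _ := Nat.mul_le_mul_left _ h1
  -- double counting
  have hex : ∃ V ∈ U.powerset, T.card ≤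
      2 ^ n * (T.filter (fun t => A t ⊆ V ∧ Disjoint (B t) V)).card := by
    by_contra hcon
    push Not at hcon
    have h1 : ∑ V ∈ U.powerset, 2 ^ n * (T.filter (fun t => A t ⊆ V ∧ Disjoint (B t) V)).card <
        ∑ V ∈ U.powerset, T.card :=
      Finset.sum_lt_sum_of_nonempty ⟨∅, Finset.empty_mem_powerset _⟩ fun V hV => hcon V hV
    rw [Finset.sum_const, Finset.card_powerset, smul_eq_mul, ← Finset.mul_sum] at h1
    have h2 : ∑ V ∈ U.powerset, (T.filter (fun t => A t ⊆ V ∧ Disjoint (B t) V)).card =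
        ∑ t ∈ T, (U.powerset.filter (fun V => A t ⊆ V ∧ Disjoint (B t) V)).card := by
      simp only [Finset.card_filter]
      exact Finset.sum_comm
    rw [h2] at h1
    have h3 : T.card * 2 ^ U.card ≤
        2 ^ n * ∑ t ∈ T, (U.powerset.filter (fun V => A t ⊆ V ∧ Disjoint (B t) V)).card := by
      rw [Finset.mul_sum, ← smul_eq_mul, ← Finset.sum_const]
      exact Finset.sum_le_sum fun t ht => hN t ht
    rw [mul_comm (2 ^ U.card)] at h1
    exact absurd h1 (not_lt.2 h3)
  obtain ⟨V, _, hV⟩ := hex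
  refine ⟨T.filter (fun t => A t ⊆ V ∧ Disjoint (B t) V), Finset.filter_subset _ _, hV, ?_⟩
  intro t ht s hs
  exact (Finset.disjoint_of_subset_right (Finset.mem_filter.1 ht).2.1
    (Finset.mem_filter.1 hs).2.2).symm

private theorem card_primeFactors_prod_le {κ : Type*} (s : Finset κ) (f : κ → ℕ)
    (hf : ∀ i ∈ s, 0 < f i) :
    (∏ i ∈ s, f i).primeFactors.card ≤ ∑ i ∈ s, (f i).primeFactors.card := by
  classical
  refine le_trans (Finset.card_le_card ?_) Finset.card_biUnion_le
  intro p hp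
  have hpp := Nat.prime_of_mem_primeFactors hp
  obtain ⟨i, hi, hd⟩ := (hpp.prime.dvd_finsetProd_iff f).1 (Nat.dvd_of_mem_primeFactors hp)
  exact Finset.mem_biUnion.2 ⟨i, hi, Nat.mem_primeFactors.2 ⟨hpp, hd, (hf i hi).ne'⟩⟩

theorem exists_rep {ι β : Type*} [DecidableEq ι] [DecidableEq β] (T : Finset ι) (f : ι → β) (G : ℝ)
    (hG : ∀ b, ((T.filter (fun t => f t = b)).card : ℝ) ≤ G) :
    ∃ T' ⊆ T, (T.card : ℝ) ≤ G * T'.card ∧ Set.InjOn f T' := by
  classical
  rcases T.eq_empty_or_nonempty with rfl | ⟨t0, _⟩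
  · exact ⟨∅, Finset.Subset.refl _, by simp, by simp⟩
  have : Nonempty ι := ⟨t0⟩
  have hch : ∀ b ∈ T.image f, ∃ t ∈ T, f t = b := fun b hb => Finset.mem_image.1 hb
  choose! g hg1 hg2 using hch
  have hinj : Set.InjOn g ((T.image f : Finset β) : Set β) := by
    intro b hb b' hb' h
    rw [Finset.mem_coe] at hb hb'
    rw [← hg2 b hb, ← hg2 b' hb', h]
  refine ⟨(T.image f).image g, ?_, ?_, ?_⟩
  · intro t ht
    obtain ⟨b, hb, rfl⟩ := Finset.mem_image.1 ht
    exact hg1 b hb
  · rw [Finset.card_image_of_injOn hinj]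
    have h1 : T.card = ∑ b ∈ T.image f, (T.filter (fun t => f t = b)).card :=
      Finset.card_eq_sum_card_image f T
    rw [h1]
    push_cast
    calc ∑ b ∈ T.image f, ((T.filter (fun t => f t = b)).card : ℝ) ≤ ∑ b ∈ T.image f, G :=
          Finset.sum_le_sum fun b _ => hG b
      _ = G * (T.image f).card := by rw [Finset.sum_const, nsmul_eq_mul, mul_comm]
  · intro t ht s hs h
    rw [Finset.mem_coe] at ht hs
    obtain ⟨b, hb, rfl⟩ := Finset.mem_image.1 ht
    obtain ⟨b', hb', rfl⟩ := Finset.mem_image.1 hs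
    rw [hg2 b hb, hg2 b' hb'] at h
    rw [h]

theorem exists_collision {ι : Type*} [DecidableEq ι] (T : Finset ι) (u v : ι → ℕ) (n w M0 : ℕ)
    (hM : 0 < M0) (hu : ∀ t ∈ T, 0 < u t) (hv : ∀ t ∈ T, 0 < v t)
    (hn : ∀ t ∈ T, (u t).primeFactors.card + (v t).primeFactors.card ≤ n)
    (hcop : ∀ t ∈ T, ∀ s ∈ T, Nat.Coprime (u t) (v s))
    (hinj : ∀ t ∈ T, ∀ s ∈ T, (u t).primeFactors = (u s).primeFactors →
      (v t).primeFactors = (v s).primeFactors → t = s)
    (hM0 : ∀ t ∈ T, Nat.Coprime (u t) M0 ∧ Nat.Coprime (v t) M0)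
    (hcard : M0 * (2 ^ (w * n)) ^ w < T.card ^ w) :
    ∃ τ τ' : Fin w → ι, (∀ i, τ i ∈ T) ∧ (∀ i, τ' i ∈ T) ∧
      (∏ i, u (τ i)) * (∏ i, v (τ' i)) ≠ (∏ i, v (τ i)) * (∏ i, u (τ' i)) ∧
      (M0 : ℤ) ∣ (((∏ i, u (τ i)) * (∏ i, v (τ' i)) : ℕ) : ℤ) -
        (((∏ i, v (τ i)) * (∏ i, u (τ' i)) : ℕ) : ℤ) := by
  classical
  have : NeZero M0 := ⟨hM.ne'⟩
  set P : Finset (Fin w → ι) := Fintype.piFinset (fun _ : Fin w => T) with hP
  have hPc : P.card = T.card ^ w := by
    rw [hP, Fintype.card_piFinset_const]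
  set Φ : (Fin w → ι) → ℕ × ℕ := fun τ => (∏ i, u (τ i), ∏ i, v (τ i)) with hΦ
  have hmem : ∀ τ ∈ P, ∀ i, τ i ∈ T := fun τ hτ i => Fintype.mem_piFinset.1 hτ i
  -- fibres
  have hfib : ∀ b ∈ P.image Φ, (P.filter (fun τ => Φ τ = b)).card ≤ (2 ^ (w * n)) ^ w := by
    intro b hb
    obtain ⟨τ0, hτ0, hb0⟩ := Finset.mem_image.1 hb
    obtain ⟨b1, b2⟩ := b
    have hb1 : ∏ i, u (τ0 i) = b1 := congrArg Prod.fst hb0
    have hb2 : ∏ i, v (τ0 i) = b2 := congrArg Prod.snd hb0
    set X := b1.primeFactors.powerset ×ˢ b2.primeFactors.powerset with hX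
    have hXc : X.card ≤ 2 ^ (w * n) := by
      rw [hX, Finset.card_product, Finset.card_powerset, Finset.card_powerset, ← pow_add]
      refine Nat.pow_le_pow_right (by norm_num) ?_
      have h1 : b1.primeFactors.card ≤ ∑ i, (u (τ0 i)).primeFactors.card := by
        rw [← hb1]
        exact card_primeFactors_prod_le _ _ fun i _ => hu _ (hmem τ0 hτ0 i)
      have h2 : b2.primeFactors.card ≤ ∑ i, (v (τ0 i)).primeFactors.card := by
        rw [← hb2]
        exact card_primeFactors_prod_le _ _ fun i _ => hv _ (hmem τ0 hτ0 i)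
      calc b1.primeFactors.card + b2.primeFactors.card ≤
          ∑ i, ((u (τ0 i)).primeFactors.card + (v (τ0 i)).primeFactors.card) := by
            rw [Finset.sum_add_distrib]
            exact Nat.add_le_add h1 h2
        _ ≤ ∑ _i : Fin w, n := Finset.sum_le_sum fun i _ => hn _ (hmem τ0 hτ0 i)
        _ = w * n := by simp
    have h3 : (P.filter (fun τ => Φ τ = (b1, b2))).card ≤
        (Fintype.piFinset (fun _ : Fin w => X)).card := by
      refine Finset.card_le_card_of_injOn
        (fun τ i => ((u (τ i)).primeFactors, (v (τ i)).primeFactors)) ?_ ?_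
      · intro τ hτ
        rw [Finset.mem_coe, Finset.mem_filter] at hτ
        rw [Finset.mem_coe, Fintype.mem_piFinset]
        intro i
        rw [hX, Finset.mem_product, Finset.mem_powerset, Finset.mem_powerset]
        have e1 : ∏ i, u (τ i) = b1 := congrArg Prod.fst hτ.2
        have e2 : ∏ i, v (τ i) = b2 := congrArg Prod.snd hτ.2
        constructor
        · refine Nat.primeFactors_mono ?_ ?_
          · rw [← e1]; exact Finset.dvd_prod_of_mem _ (Finset.mem_univ i)
          · rw [← e1]; exact Finset.prod_ne_zero_iff.2 fun i _ => (hu _ (hmem τ hτ.1 i)).ne'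
        · refine Nat.primeFactors_mono ?_ ?_
          · rw [← e2]; exact Finset.dvd_prod_of_mem _ (Finset.mem_univ i)
          · rw [← e2]; exact Finset.prod_ne_zero_iff.2 fun i _ => (hv _ (hmem τ hτ.1 i)).ne'
      · intro τ hτ τ' hτ' h
        rw [Finset.mem_coe, Finset.mem_filter] at hτ hτ'
        funext i
        have h4 := congrFun h i
        exact hinj _ (hmem τ hτ.1 i) _ (hmem τ' hτ'.1 i) (congrArg Prod.fst h4)
          (congrArg Prod.snd h4)
    rw [Fintype.card_piFinset_const] at h3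
    exact h3.trans (Nat.pow_le_pow_left hXc w)
  have himg : M0 < (P.image Φ).card := by
    have h1 := Finset.card_le_mul_card_image P _ hfib
    rw [hPc, mul_comm] at h1
    have h2 : M0 * (2 ^ (w * n)) ^ w < (P.image Φ).card * (2 ^ (w * n)) ^ w := hcard.trans_le h1
    exact Nat.lt_of_mul_lt_mul_right h2
  have hZ : (univ : Finset (ZMod M0)).card < (P.image Φ).card := by
    rw [Finset.card_univ, ZMod.card]
    exact himg
  obtain ⟨x, hx, y, hy, hxy, hval⟩ := Finset.exists_ne_map_eq_of_card_lt_of_maps_to hZ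
    (f := fun p : ℕ × ℕ => (p.1 : ZMod M0) * ((p.2 : ZMod M0))⁻¹) (fun _ _ => Finset.mem_univ _)
  obtain ⟨τ, hτ, rfl⟩ := Finset.mem_image.1 hx
  obtain ⟨τ', hτ', rfl⟩ := Finset.mem_image.1 hy
  have cop : ∀ σ ∈ P, ∀ σ' ∈ P, Nat.Coprime (∏ i, u (σ i)) (∏ i, v (σ' i)) := by
    intro σ hσ σ' hσ'
    refine Nat.Coprime.prod_left fun i _ => Nat.Coprime.prod_right fun j _ => ?_
    exact hcop _ (hmem σ hσ i) _ (hmem σ' hσ' j)
  have copM : ∀ σ ∈ P, Nat.Coprime (∏ i, v (σ i)) M0 := fun σ hσ =>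
    Nat.Coprime.prod_left fun i _ => (hM0 _ (hmem σ hσ i)).2
  have upos : ∀ σ ∈ P, 0 < ∏ i, u (σ i) := fun σ hσ =>
    Finset.prod_pos fun i _ => hu _ (hmem σ hσ i)
  refine ⟨τ, τ', hmem τ hτ, hmem τ' hτ', ?_, ?_⟩
  · intro h
    apply hxy
    have h1 : (∏ i, u (τ i)) ∣ ∏ i, u (τ' i) := by
      refine (cop τ hτ τ hτ).dvd_of_dvd_mul_left ?_
      rw [← h]
      exact Dvd.intro _ rfl
    have h2 : (∏ i, u (τ' i)) ∣ ∏ i, u (τ i) := by
      refine (cop τ' hτ' τ' hτ').dvd_of_dvd_mul_right ?_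
      rw [h]
      exact Dvd.intro_left _ rfl
    have h3 : ∏ i, u (τ i) = ∏ i, u (τ' i) := Nat.dvd_antisymm h1 h2
    have h4 : ∏ i, v (τ' i) = ∏ i, v (τ i) := by
      rw [h3, mul_comm (∏ i, v (τ i))] at h
      exact Nat.eq_of_mul_eq_mul_left (upos τ' hτ') h
    exact Prod.ext h3 h4.symm
  · have hval' : ((∏ i, u (τ i) : ℕ) : ZMod M0) * ((∏ i, v (τ i) : ℕ) : ZMod M0)⁻¹ =
        ((∏ i, u (τ' i) : ℕ) : ZMod M0) * ((∏ i, v (τ' i) : ℕ) : ZMod M0)⁻¹ := hval
    have i1 := ZMod.coe_mul_inv_eq_one (∏ i, v (τ i)) (copM τ hτ)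
    have i2 := ZMod.coe_mul_inv_eq_one (∏ i, v (τ' i)) (copM τ' hτ')
    rw [← ZMod.intCast_eq_intCast_iff_dvd_sub]
    rw [Int.cast_natCast, Int.cast_natCast, Nat.cast_mul, Nat.cast_mul]
    generalize ((∏ i, u (τ i) : ℕ) : ZMod M0) = a at *
    generalize ((∏ i, v (τ i) : ℕ) : ZMod M0) = b at *
    generalize ((∏ i, u (τ' i) : ℕ) : ZMod M0) = a' at *
    generalize ((∏ i, v (τ' i) : ℕ) : ZMod M0) = b' at *
    calc b * a' = b * a' * (b' * b'⁻¹) := by rw [i2, mul_one]
      _ = (a' * b'⁻¹) * (b * b') := by ring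
      _ = (a * b⁻¹) * (b * b') := by rw [hval']
      _ = a * b' * (b * b⁻¹) := by ring
      _ = a * b' := by rw [i1, mul_one]

end Pool.Agent.Lib.Pabc11
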