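import Mathlib
import Pool.Agent.Lib.AbcE.Core

/-!
# Numerical form of the transcendental core

`AbcE.core` with `S = 6`, `D = ⌊m / (48 b)⌋`, `d = ⌊m / (96 a)⌋`, `N = (D + 1) (d + 1) / 4`, `m = log M`.

`parN_lower`: `D + 1 ≥ m / (48 b)`, `d + 1 ≥ m / (96 a)`, and `N ≥ ((D + 1) (d + 1) - 3) / 4 ≥ (D + 1) (d + 1) / 8`
because `(D + 1) (d + 1) ≥ 11 * 2`.

`core_num`: `D ≥ 10`, `d ≥ 1`, `D < r` (from `m < 48 b r`). Size condition, in logarithms:
`2 log ((D+1)(d+1)) + (D + d r) log 4 + 6 D b + 6 d a < m`: `6 D b ≤ m / 8`, `6 d a ≤ m / 16`,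
`D log 4 ≤ 1.4 m / 96` (`b ≥ 2`), `d r log 4 ≤ 1.4 m / 96` (`r ≤ a`), `D + 1, d + 1 ≤ m` and
`4 log m ≤ m / 10`. Zero condition: `6 (N - d) ≥ (3/2) (D + 1) (d + 1) - 9/2 - 6 d > (d + 1) D` for `D ≥ 10`
(`4 N ≥ (D + 1) (d + 1) - 3`).
-/

namespace Pool.Agent.Lib.Pabc11

open Pool.Agent.AbcE

/-- The multiplicity parameter. -/
noncomputable def parN (m a b : ℝ) : ℕ := (⌊m / (48 * b)⌋₊ + 1) * (⌊m / (96 * a)⌋₊ + 1) / 4

theorem parN_lower (m a b : ℝ) (ha : 0 < a) (hb : 0 < b) (h1 : 480 * b ≤ m) (h2 : 96 * a ≤ m) :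
    m ^ 2 / (36864 * a * b) ≤ parN m a b := by
  unfold parN
  set D := ⌊m / (48 * b)⌋₊ with hD
  set d := ⌊m / (96 * a)⌋₊ with hd
  have hD1 : m / (48 * b) < (D : ℝ) + 1 := Nat.lt_floor_add_one _
  have hd1 : m / (96 * a) < (d : ℝ) + 1 := Nat.lt_floor_add_one _
  have hD10 : 10 ≤ D := by
    apply Nat.le_floor
    rw [le_div_iff₀ (by positivity)]
    push_cast
    linarith
  have hd10 : 1 ≤ d := by
    apply Nat.le_floor
    rw [le_div_iff₀ (by positivity)]
    push_cast
    linarith
  have hm : 0 < m := by linarith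
  set P := (D + 1) * (d + 1) with hP
  have hP22 : 22 ≤ P := by
    rw [hP]
    nlinarith
  have hN : P ≤ 4 * (P / 4) + 3 := by omega
  have hN' : (P : ℝ) ≤ 4 * ((P / 4 : ℕ) : ℝ) + 3 := by exact_mod_cast hN
  have hP22' : (22 : ℝ) ≤ P := by exact_mod_cast hP22
  have hPm : m ^ 2 / (4608 * a * b) ≤ P := by
    have e1 : m ^ 2 / (4608 * a * b) = (m / (48 * b)) * (m / (96 * a)) := by
      field_simp
      ring
    rw [e1, hP]
    push_cast
    exact mul_le_mul hD1.le hd1.le (by positivity) (by positivity)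
  have e2 : m ^ 2 / (36864 * a * b) = (m ^ 2 / (4608 * a * b)) / 8 := by
    field_simp
    ring
  rw [e2]
  linarith

theorem core_num (r M M0 B1 B2 A1 A2 : ℕ) (a b : ℝ) (hB1 : 0 < B1) (hB2 : 0 < B2) (hA1 : 0 < A1)
    (hA2 : 0 < A2) (h1 : 480 * b ≤ Real.log M) (h2 : 96 * a ≤ Real.log M) (h3 : (r : ℝ) ≤ a)
    (h4 : Real.log M < 48 * b * r) (h5 : 1000 ≤ Real.log M) (h6 : 2 ≤ b)
    (hb1 : Real.log B1 ≤ b) (hb2 : Real.log B2 ≤ b) (ha1 : Real.log A1 ≤ a)
    (ha2 : Real.log A2 ≤ a) (hM : M ∣ M0 ^ parN (Real.log M) a b)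
    (hB : (M0 : ℤ) ∣ (B1 : ℤ) - B2) (hne : B1 ≠ B2)
    (hrel : (M : ℤ) ∣ (A1 : ℤ) * B1 ^ r - A2 * B2 ^ r) (hMB : Nat.Coprime M B1)
    (hMA : Nat.Coprime M A2) : False := by
  set m := Real.log M with hm
  have hm0 : 0 < m := by linarith
  have hb0 : 0 < b := by linarith
  have hr0 : (0 : ℝ) < r := by
    by_contra hcon
    push Not at hcon
    have : 48 * b * r ≤ 0 := by nlinarith
    linarith
  have ha0 : 0 < a := by linarith
  have ha10 : 10 ≤ a := by
    have : 480 * b < 48 * b * r := lt_of_le_of_lt h1 h4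
    have h10 : (10 : ℝ) < r := by
      by_contra hcon
      push Not at hcon
      nlinarith
    linarith
  set D := ⌊m / (48 * b)⌋₊ with hD
  set d := ⌊m / (96 * a)⌋₊ with hd
  have hDle : (D : ℝ) ≤ m / (48 * b) := Nat.floor_le (by positivity)
  have hdle : (d : ℝ) ≤ m / (96 * a) := Nat.floor_le (by positivity)
  have hDb : 48 * b * (D : ℝ) ≤ m := by
    rw [le_div_iff₀ (by positivity)] at hDle
    linarith
  have hda : 96 * a * (d : ℝ) ≤ m := by
    rw [le_div_iff₀ (by positivity)] at hdle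
    linarith
  have hD10 : 10 ≤ D := by
    apply Nat.le_floor
    rw [le_div_iff₀ (by positivity)]
    push_cast
    linarith
  have hD0 : (0 : ℝ) ≤ D := Nat.cast_nonneg D
  have hd0 : (0 : ℝ) ≤ d := Nat.cast_nonneg d
  have hNdef : parN m a b = (D + 1) * (d + 1) / 4 := rfl
  set N := parN m a b with hN
  set P := (D + 1) * (d + 1) with hP
  have hDr : D < r := by
    have : (D : ℝ) < r := by
      by_contra hcon
      push Not at hcon
      have h7 : 48 * b * (r : ℝ) ≤ 48 * b * D := mul_le_mul_of_nonneg_left hcon (by positivity)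
      linarith
    exact_mod_cast this
  have hSieg : 2 * (2 * N) ≤ (D + 1) * (d + 1) := by
    rw [hNdef]
    omega
  have hP11 : 11 * (d + 1) ≤ P := by
    rw [hP]
    exact Nat.mul_le_mul_right _ (by omega)
  have hPD : (d + 1) * D + (d + 1) = P := by
    rw [hP]
    ring
  have hzero : (d + 1) * D < 6 * (N - d) := by
    rw [hNdef]
    generalize (d + 1) * D = X at hPD
    omega
  have hMpos : (0 : ℝ) < M := by
    by_contra hcon
    push Not at hcon
    have h0 : (M : ℝ) = 0 := le_antisymm hcon (Nat.cast_nonneg M)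
    rw [hm, h0, Real.log_zero] at hm0
    exact lt_irrefl _ hm0
  have hPpos : (0 : ℝ) < (P : ℝ) := by
    have : 0 < P := by rw [hP]; positivity
    exact_mod_cast this
  have hmaxB : Real.log ((max B1 B2 : ℕ) : ℝ) ≤ b := by
    rcases max_choice B1 B2 with h | h <;> rw [h] <;> assumption
  have hmaxA : Real.log ((max A1 A2 : ℕ) : ℝ) ≤ a := by
    rcases max_choice A1 A2 with h | h <;> rw [h] <;> assumption
  have hBpos : (0 : ℝ) < ((max B1 B2 : ℕ) : ℝ) := by
    exact_mod_cast lt_max_of_lt_left hB1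
  have hApos : (0 : ℝ) < ((max A1 A2 : ℕ) : ℝ) := by
    exact_mod_cast lt_max_of_lt_left hA1
  have hsize : ((D + 1) * (d + 1)) ^ 2 * 4 ^ (D + d * r) * (max B1 B2) ^ (6 * D) *
      (max A1 A2) ^ (6 * d) < M := by
    have hreal : (P : ℝ) ^ 2 * 4 ^ (D + d * r) * ((max B1 B2 : ℕ) : ℝ) ^ (6 * D) *
        ((max A1 A2 : ℕ) : ℝ) ^ (6 * d) < M := by
      rw [← Real.log_lt_log_iff (by positivity) hMpos, Real.log_mul (by positivity) (by positivity),
        Real.log_mul (by positivity) (by positivity), Real.log_mul (by positivity) (by positivity),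
        Real.log_pow, Real.log_pow, Real.log_pow, Real.log_pow, ← hm]
      have hl4 : Real.log 4 ≤ 1.4 := by
        have : Real.log 4 = 2 * Real.log 2 := by
          rw [show (4 : ℝ) = 2 ^ 2 by norm_num, Real.log_pow]
          norm_num
        rw [this]
        have := Real.log_two_lt_d9
        linarith
      have hl40 : 0 ≤ Real.log 4 := Real.log_nonneg (by norm_num)
      -- log P
      have hDm : (D : ℝ) + 1 ≤ m := by nlinarith
      have hdm : (d : ℝ) + 1 ≤ m := by nlinarith
      have hPm : (P : ℝ) ≤ m ^ 2 := by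
        rw [hP]
        push_cast
        rw [sq]
        exact mul_le_mul hDm hdm (by positivity) hm0.le
      have hlogm : Real.log m ≤ m / 40 := by
        have e1 : m = (m / 1000) * 1000 := by ring
        have h7 : Real.log m = Real.log (m / 1000) + Real.log 1000 := by
          rw [← Real.log_mul (by positivity) (by norm_num)]
          congr 1
        have h8 : Real.log (m / 1000) ≤ m / 1000 - 1 :=
          Real.log_le_sub_one_of_pos (by positivity)
        have h9 : Real.log 1000 ≤ 7 := by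
          have h10 : Real.log 1000 ≤ Real.log ((2 : ℝ) ^ 10) :=
            Real.log_le_log (by norm_num) (by norm_num)
          rw [Real.log_pow] at h10
          have := Real.log_two_lt_d9
          push_cast at h10
          linarith
        rw [h7]
        linarith
      have hlogP : Real.log P ≤ m / 20 := by
        have h7 : Real.log P ≤ Real.log (m ^ 2) := Real.log_le_log hPpos hPm
        rw [Real.log_pow] at h7
        push_cast at h7
        linarith
      -- the other terms
      have t2 : ((D + d * r : ℕ) : ℝ) * Real.log 4 ≤ 3 / 100 * m := by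
        push_cast
        have h7 : (D : ℝ) ≤ m / 96 := by
          rw [le_div_iff₀ (by norm_num)]
          nlinarith
        have h8 : (d : ℝ) * r ≤ m / 96 := by
          rw [le_div_iff₀ (by norm_num)]
          nlinarith [mul_le_mul_of_nonneg_left h3 hd0]
        calc ((D : ℝ) + d * r) * Real.log 4 ≤ (m / 96 + m / 96) * 1.4 := by gcongr
          _ ≤ 3 / 100 * m := by
            norm_num
            linarith
      have t3 : ((6 * D : ℕ) : ℝ) * Real.log ((max B1 B2 : ℕ) : ℝ) ≤ m / 8 := by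
        push_cast
        calc 6 * (D : ℝ) * Real.log (max (B1 : ℝ) (B2 : ℝ)) ≤ 6 * (D : ℝ) * b := by
              apply mul_le_mul_of_nonneg_left _ (by positivity)
              rw [← Nat.cast_max]
              exact hmaxB
          _ ≤ m / 8 := by linarith
      have t4 : ((6 * d : ℕ) : ℝ) * Real.log ((max A1 A2 : ℕ) : ℝ) ≤ m / 16 := by
        push_cast
        calc 6 * (d : ℝ) * Real.log (max (A1 : ℝ) (A2 : ℝ)) ≤ 6 * (d : ℝ) * a := by
              apply mul_le_mul_of_nonneg_left _ (by positivity)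
              rw [← Nat.cast_max]
              exact hmaxA
          _ ≤ m / 16 := by linarith
      have t1 : ((2 : ℕ) : ℝ) * Real.log (P : ℝ) ≤ m / 10 := by
        push_cast
        linarith
      refine lt_of_le_of_lt (add_le_add (add_le_add (add_le_add t1 t2) t3) t4) ?_
      clear t1 t2 t3 t4
      linarith
    rw [hP] at hreal
    exact_mod_cast hreal
  exact core r D d N 6 M M0 B1 B2 A1 A2 hB1 hB2 hA1 hA2 hDr hSieg hM hB hne hrel hMB hMA hsize
    hzero

end Pool.Agent.Lib.Pabc11
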