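import Mathlib
import Pool.Agent.Lib.AbcE.Core

/-!
# The archimedean core

`P(y) = ∑ c j l y^(j + l r)` the polynomial of Siegel's lemma (`AbcE.siegel`, `AbcE.aux`,
`AbcE.aux_dvd`): `(X - 1)^(2N)` divides `P`. `β = B2 / B1`, `α = A1 / A2`, `y = β^s`, `1 ≤ s ≤ S`.
`|log β| ≤ ρ`, `S ρ ≤ 1/4`, so `|y - 1| ≤ 2 S ρ`, `y ≤ 2`. Compare the integer
`I = AbcE.bigI r D d c B1 B2 A1 A2 s k = B1^(sD) A2^(sd) ∑ c j l choose(j + l r, k) β^(sj) α^(sl)` with
`J = B1^(sD) A2^(sd) ∑ c j l choose(j + l r, k) β^(s (j + l r))`, `k < N`.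
(a) `∑ c j l choose(j + l r, k) y^(j + l r)` is expanded in powers of `y - 1`; the terms of total
order less than `2 N` vanish; the absolute value is at most `A^2 8^(D + d r) (2 |y - 1|)^N`.
(b) `|α^(sl) - β^(r s l)| = α^(sl) |1 - exp (-s l log (α / β^r))| ≤ α^(sl) 2 S d exp (-m)`.
Together `|I| < 1`, so `I = 0`; conclude with `AbcE.zeroEst` exactly as in `AbcE.core`.
-/

open Finset

namespace Pool.Agent.Lib.Pabc11

open Pool.Agent.AbcE

namespace CoreRealAux

theorem expand (y : ℝ) (k deg n : ℕ) (hn : n ≤ deg) :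
    ((n.choose k : ℕ) : ℝ) * y ^ n = y ^ k * ∑ i ∈ range (deg + 1),
      (((k + i).choose k : ℕ) : ℝ) * ((n.choose (k + i) : ℕ) : ℝ) * (y - 1) ^ i := by
  rcases lt_or_ge n k with h | h
  · rw [Nat.choose_eq_zero_of_lt h]
    have : ∀ i ∈ range (deg + 1), (((k + i).choose k : ℕ) : ℝ) *
        ((n.choose (k + i) : ℕ) : ℝ) * (y - 1) ^ i = 0 := by
      intro i _
      rw [Nat.choose_eq_zero_of_lt (by omega : n < k + i)]
      simp
    rw [Finset.sum_eq_zero this]
    simp
  · obtain ⟨m, rfl⟩ := Nat.exists_eq_add_of_le h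
    have e1 : y ^ m = ∑ i ∈ range (m + 1), (y - 1) ^ i * ((m.choose i : ℕ) : ℝ) := by
      have := add_pow (y - 1) 1 m
      rw [sub_add_cancel] at this
      rw [this]
      apply Finset.sum_congr rfl
      intro i _
      rw [one_pow, mul_one]
    have e2 : ∑ i ∈ range (deg + 1), (((k + i).choose k : ℕ) : ℝ) *
        (((k + m).choose (k + i) : ℕ) : ℝ) * (y - 1) ^ i =
        ∑ i ∈ range (m + 1), (((k + i).choose k : ℕ) : ℝ) *
        (((k + m).choose (k + i) : ℕ) : ℝ) * (y - 1) ^ i := by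
      symm
      apply Finset.sum_subset
      · intro i hi
        rw [Finset.mem_range] at hi ⊢
        omega
      · intro i _ hi
        rw [Finset.mem_range, not_lt] at hi
        rw [Nat.choose_eq_zero_of_lt (by omega : k + m < k + i)]
        simp
    rw [e2, pow_add, e1, ← mul_assoc, mul_comm (((k + m).choose k : ℕ) : ℝ) (y ^ k), mul_assoc,
      Finset.mul_sum]
    congr 1
    apply Finset.sum_congr rfl
    intro i hi
    rw [Finset.mem_range] at hi
    have h3 : (k + m).choose (k + i) * (k + i).choose k = (k + m).choose k * m.choose i := by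
      have := Nat.choose_mul (n := k + m) (k := k + i) (s := k) (by omega)
      rw [this]
      congr 2
      · omega
      · omega
    have h4 : (((k + m).choose (k + i) : ℕ) : ℝ) * (((k + i).choose k : ℕ) : ℝ) =
        (((k + m).choose k : ℕ) : ℝ) * ((m.choose i : ℕ) : ℝ) := by exact_mod_cast h3
    calc (((k + m).choose k : ℕ) : ℝ) * ((y - 1) ^ i * ((m.choose i : ℕ) : ℝ)) =
        ((((k + m).choose k : ℕ) : ℝ) * ((m.choose i : ℕ) : ℝ)) * (y - 1) ^ i := by ring
      _ = _ := by rw [← h4]; ring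

theorem geo (N deg : ℕ) : ∑ i ∈ range (deg + 1), (if N < i then ((1 : ℝ) / 2) ^ (i - N) else 0) ≤ 1 := by
  have key : ∀ n : ℕ, ∑ i ∈ range n, (if N < i then ((1 : ℝ) / 2) ^ (i - N) else 0) ≤
      1 - ((1 : ℝ) / 2) ^ (n - 1 - N) := by
    intro n
    induction n with
    | zero => simp
    | succ n ih =>
      rw [Finset.sum_range_succ]
      by_cases h : N < n
      · rw [if_pos h]
        have e1 : n + 1 - 1 - N = n - N := by omega
        have e2 : n - N = (n - 1 - N) + 1 := by omega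
        rw [e1]
        have e3 : ((1 : ℝ) / 2) ^ (n - 1 - N) = 2 * ((1 : ℝ) / 2) ^ (n - N) := by
          rw [e2, pow_succ]
          ring
        rw [e3] at ih
        linarith
      · rw [if_neg h, add_zero]
        refine ih.trans ?_
        have e1 : n - 1 - N = 0 := by omega
        have e2 : n + 1 - 1 - N = 0 := by omega
        rw [e1, e2]
  refine (key (deg + 1)).trans ?_
  have : 0 ≤ ((1 : ℝ) / 2) ^ (deg + 1 - 1 - N) := by positivity
  linarith

/-- The estimate (a). -/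
theorem small_sum (r D d N : ℕ) (c : ℕ → ℕ → ℤ)
    (hcb : ∀ j l, |c j l| ≤ (((D + 1) * (d + 1) * 2 ^ (D + d * r) : ℕ) : ℤ))
    (hc : ∀ k < 2 * N, ∑ j ∈ range (D + 1), ∑ l ∈ range (d + 1),
        c j l * ((j + l * r).choose k : ℤ) = 0)
    (y : ℝ) (hy0 : 0 ≤ y) (hy2 : y ≤ 2) (hy : |y - 1| ≤ 1 / 2) (k : ℕ) (hk : k < N) :
    |∑ j ∈ range (D + 1), ∑ l ∈ range (d + 1),
      (c j l : ℝ) * (((j + l * r).choose k : ℕ) : ℝ) * y ^ (j + l * r)| ≤
      (((D + 1) * (d + 1) : ℕ) : ℝ) ^ 2 * 8 ^ (D + d * r) * (2 * |y - 1|) ^ N := by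
  set deg := D + d * r with hdeg
  set A0 : ℝ := (((D + 1) * (d + 1) : ℕ) : ℝ) with hA0
  have hA00 : 0 ≤ A0 := by positivity
  set z : ℝ := y - 1 with hz
  have hnle : ∀ j ∈ range (D + 1), ∀ l ∈ range (d + 1), j + l * r ≤ deg := by
    intro j hj l hl
    rw [Finset.mem_range] at hj hl
    have : l * r ≤ d * r := Nat.mul_le_mul_right r (by omega)
    omega
  have e1 : ∑ j ∈ range (D + 1), ∑ l ∈ range (d + 1),
      (c j l : ℝ) * (((j + l * r).choose k : ℕ) : ℝ) * y ^ (j + l * r) =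
      y ^ k * ∑ i ∈ range (deg + 1), (((k + i).choose k : ℕ) : ℝ) * z ^ i *
        ∑ j ∈ range (D + 1), ∑ l ∈ range (d + 1),
          (c j l : ℝ) * (((j + l * r).choose (k + i) : ℕ) : ℝ) := by
    have h1 : ∀ j ∈ range (D + 1), ∀ l ∈ range (d + 1),
        (c j l : ℝ) * (((j + l * r).choose k : ℕ) : ℝ) * y ^ (j + l * r) =
        ∑ i ∈ range (deg + 1), y ^ k * ((((k + i).choose k : ℕ) : ℝ) * z ^ i *
          ((c j l : ℝ) * (((j + l * r).choose (k + i) : ℕ) : ℝ))) := by
      intro j hj l hl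
      rw [mul_assoc, expand y k deg (j + l * r) (hnle j hj l hl), Finset.mul_sum, Finset.mul_sum]
      apply Finset.sum_congr rfl
      intro i _
      ring
    rw [Finset.sum_congr rfl (fun j hj => Finset.sum_congr rfl (fun l hl => h1 j hj l hl))]
    rw [Finset.sum_congr rfl (fun j _ => Finset.sum_comm), Finset.sum_comm]
    rw [Finset.mul_sum]
    apply Finset.sum_congr rfl
    intro i _
    simp only [Finset.mul_sum]
  rw [e1, abs_mul, abs_of_nonneg (pow_nonneg hy0 k)]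
  have hinner : ∀ i ∈ range (deg + 1), |(((k + i).choose k : ℕ) : ℝ) * z ^ i *
        ∑ j ∈ range (D + 1), ∑ l ∈ range (d + 1),
          (c j l : ℝ) * (((j + l * r).choose (k + i) : ℕ) : ℝ)| ≤
      (A0 ^ 2 * 8 ^ deg * |z| ^ N) * (if N < i then ((1 : ℝ) / 2) ^ (i - N) else 0) := by
    intro i _
    by_cases h2 : k + i < 2 * N
    · have h3 : ∑ j ∈ range (D + 1), ∑ l ∈ range (d + 1),
          (c j l : ℝ) * (((j + l * r).choose (k + i) : ℕ) : ℝ) = 0 := by
        have := hc (k + i) h2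
        have h4 : ((∑ j ∈ range (D + 1), ∑ l ∈ range (d + 1),
          c j l * ((j + l * r).choose (k + i) : ℤ) : ℤ) : ℝ) = 0 := by rw [this]; simp
        push_cast at h4
        exact h4
      rw [h3, mul_zero, abs_zero]
      apply mul_nonneg (by positivity)
      split_ifs
      · positivity
      · exact le_refl _
    · have hNi : N < i := by omega
      rw [if_pos hNi]
      by_cases h5 : deg < k + i
      · have h3 : ∑ j ∈ range (D + 1), ∑ l ∈ range (d + 1),
            (c j l : ℝ) * (((j + l * r).choose (k + i) : ℕ) : ℝ) = 0 := by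
          apply Finset.sum_eq_zero
          intro j hj
          apply Finset.sum_eq_zero
          intro l hl
          have := hnle j hj l hl
          rw [Nat.choose_eq_zero_of_lt (by omega)]
          simp
        rw [h3, mul_zero, abs_zero]
        positivity
      · push Not at h5
        have h6 : (((k + i).choose k : ℕ) : ℝ) ≤ 2 ^ deg := by
          have h7 : (k + i).choose k ≤ 2 ^ deg :=
            (Nat.choose_le_two_pow _ _).trans (Nat.pow_le_pow_right (by norm_num) h5)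
          exact_mod_cast h7
        have h8 : |∑ j ∈ range (D + 1), ∑ l ∈ range (d + 1),
            (c j l : ℝ) * (((j + l * r).choose (k + i) : ℕ) : ℝ)| ≤ A0 ^ 2 * 4 ^ deg := by
          have h9 : ∀ j ∈ range (D + 1), ∀ l ∈ range (d + 1),
              |(c j l : ℝ) * (((j + l * r).choose (k + i) : ℕ) : ℝ)| ≤ A0 * 4 ^ deg := by
            intro j hj l hl
            rw [abs_mul, Nat.abs_cast]
            have a1 : |(c j l : ℝ)| ≤ A0 * 2 ^ deg := by
              have := hcb j l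
              have h10 : ((|c j l| : ℤ) : ℝ) ≤
                (((((D + 1) * (d + 1) * 2 ^ (D + d * r) : ℕ) : ℤ)) : ℝ) := by
                exact_mod_cast this
              rw [Int.cast_abs] at h10
              rw [hA0, hdeg]
              push_cast at h10 ⊢
              exact h10
            have a2 : (((j + l * r).choose (k + i) : ℕ) : ℝ) ≤ 2 ^ deg := by
              have h7 : (j + l * r).choose (k + i) ≤ 2 ^ deg :=
                (Nat.choose_le_two_pow _ _).trans
                  (Nat.pow_le_pow_right (by norm_num) (hnle j hj l hl))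
              exact_mod_cast h7
            calc |(c j l : ℝ)| * (((j + l * r).choose (k + i) : ℕ) : ℝ) ≤
                (A0 * 2 ^ deg) * 2 ^ deg := by gcongr
              _ = A0 * 4 ^ deg := by
                rw [mul_assoc, ← mul_pow]
                norm_num
          calc |∑ j ∈ range (D + 1), ∑ l ∈ range (d + 1),
              (c j l : ℝ) * (((j + l * r).choose (k + i) : ℕ) : ℝ)| ≤
              ∑ j ∈ range (D + 1), ∑ l ∈ range (d + 1),
              |(c j l : ℝ) * (((j + l * r).choose (k + i) : ℕ) : ℝ)| :=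
                (Finset.abs_sum_le_sum_abs _ _).trans
                  (Finset.sum_le_sum (fun j _ => Finset.abs_sum_le_sum_abs _ _))
            _ ≤ ∑ _j ∈ range (D + 1), ∑ _l ∈ range (d + 1), A0 * 4 ^ deg :=
                Finset.sum_le_sum (fun j hj => Finset.sum_le_sum (fun l hl => h9 j hj l hl))
            _ = A0 ^ 2 * 4 ^ deg := by
                simp only [Finset.sum_const, Finset.card_range, nsmul_eq_mul]
                rw [hA0]
                push_cast
                ring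
        rw [abs_mul, abs_mul, Nat.abs_cast, abs_pow]
        have h10 : |z| ^ i ≤ |z| ^ N * ((1 : ℝ) / 2) ^ (i - N) := by
          have : |z| ^ i = |z| ^ N * |z| ^ (i - N) := by
            rw [← pow_add]
            congr 1
            omega
          rw [this]
          apply mul_le_mul_of_nonneg_left _ (by positivity)
          exact pow_le_pow_left₀ (abs_nonneg _) hy _
        calc (((k + i).choose k : ℕ) : ℝ) * |z| ^ i * |∑ j ∈ range (D + 1), ∑ l ∈ range (d + 1),
            (c j l : ℝ) * (((j + l * r).choose (k + i) : ℕ) : ℝ)| ≤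
            2 ^ deg * (|z| ^ N * ((1 : ℝ) / 2) ^ (i - N)) * (A0 ^ 2 * 4 ^ deg) := by gcongr
          _ = (A0 ^ 2 * (2 ^ deg * 4 ^ deg) * |z| ^ N) * ((1 : ℝ) / 2) ^ (i - N) := by ring
          _ = (A0 ^ 2 * 8 ^ deg * |z| ^ N) * ((1 : ℝ) / 2) ^ (i - N) := by
              rw [← mul_pow]
              norm_num
  have hsum : |∑ i ∈ range (deg + 1), (((k + i).choose k : ℕ) : ℝ) * z ^ i *
        ∑ j ∈ range (D + 1), ∑ l ∈ range (d + 1),
          (c j l : ℝ) * (((j + l * r).choose (k + i) : ℕ) : ℝ)| ≤ A0 ^ 2 * 8 ^ deg * |z| ^ N := by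
    refine (Finset.abs_sum_le_sum_abs _ _).trans ((Finset.sum_le_sum hinner).trans ?_)
    rw [← Finset.mul_sum]
    have := geo N deg
    have h0 : 0 ≤ A0 ^ 2 * 8 ^ deg * |z| ^ N := by positivity
    nlinarith
  have hyk : y ^ k ≤ 2 ^ N := by
    calc y ^ k ≤ 2 ^ k := pow_le_pow_left₀ hy0 hy2 k
      _ ≤ 2 ^ N := pow_le_pow_right₀ (by norm_num) hk.le
  calc y ^ k * |∑ i ∈ range (deg + 1), (((k + i).choose k : ℕ) : ℝ) * z ^ i *
        ∑ j ∈ range (D + 1), ∑ l ∈ range (d + 1),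
          (c j l : ℝ) * (((j + l * r).choose (k + i) : ℕ) : ℝ)| ≤
      2 ^ N * (A0 ^ 2 * 8 ^ deg * |z| ^ N) := by gcongr
    _ = A0 ^ 2 * 8 ^ deg * (2 * |z|) ^ N := by
      rw [mul_pow]
      ring

/-- The end of the argument (as in `AbcE.core`). -/
theorem finish (r D d N S B1 B2 A1 A2 : ℕ) (c : ℕ → ℕ → ℤ)
    (hB1 : 0 < B1) (hB2 : 0 < B2) (hA1 : 0 < A1) (hA2 : 0 < A2)
    (hr : D < r) (hne : B1 ≠ B2) (hc0 : ∃ j ≤ D, ∃ l ≤ d, c j l ≠ 0)
    (hI0 : ∀ s ≤ S, 1 ≤ s → ∀ k < N, bigI r D d c B1 B2 A1 A2 s k = 0)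
    (hzero : (d + 1) * D < S * (N - d)) : False := by
  set β : ℚ := (B2 : ℚ) / B1 with hβ
  set α : ℚ := (A1 : ℚ) / A2 with hα
  have hB1q : (B1 : ℚ) ≠ 0 := by exact_mod_cast hB1.ne'
  have hB2q : (B2 : ℚ) ≠ 0 := by exact_mod_cast hB2.ne'
  have hA1q : (A1 : ℚ) ≠ 0 := by exact_mod_cast hA1.ne'
  have hA2q : (A2 : ℚ) ≠ 0 := by exact_mod_cast hA2.ne'
  have hβ0 : 0 < β := by
    rw [hβ]
    positivity
  have hβ1 : β ≠ 1 := by
    rw [hβ]
    intro h
    rw [div_eq_one_iff_eq hB1q] at h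
    exact hne (by exact_mod_cast h.symm)
  have hα0 : 0 < α := by
    rw [hα]
    positivity
  have hz := zeroEst r D d N S hr (fun j l => ((c j l : ℤ) : ℚ)) (by
      obtain ⟨j, hj, l, hl, hjl⟩ := hc0
      exact ⟨j, hj, l, hl, by exact_mod_cast hjl⟩)
    (fun s : Fin S => β ^ ((s : ℕ) + 1)) (fun s : Fin S => α ^ ((s : ℕ) + 1))
    (by
      intro s t hst
      have h1 : β ^ ((s : ℕ) + 1) = β ^ ((t : ℕ) + 1) := hst
      have h2 := pow_right_injective₀ hβ0 hβ1 h1
      exact Fin.ext (by omega))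
    (fun s => (pow_pos hβ0 _).ne') (fun s => (pow_pos hα0 _).ne')
    (by
      intro s k hk
      have h1 := hI0 ((s : ℕ) + 1) (by have := s.2; omega) (by omega) k hk
      set σ := (s : ℕ) + 1 with hσ
      have h2 : ((bigI r D d c B1 B2 A1 A2 σ k : ℤ) : ℚ) = 0 := by rw [h1]; simp
      have h3 : ((bigI r D d c B1 B2 A1 A2 σ k : ℤ) : ℚ)
          = (B1 : ℚ) ^ (σ * D) * (A2 : ℚ) ^ (σ * d) *
            ∑ j ∈ range (D + 1), ∑ l ∈ range (d + 1),
              ((c j l : ℤ) : ℚ) * ((j + l * r).choose k : ℚ) * (β ^ σ) ^ j * (α ^ σ) ^ l := by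
        unfold bigI
        push_cast
        rw [Finset.mul_sum]
        refine Finset.sum_congr rfl ?_
        intro j hj
        rw [Finset.mul_sum]
        refine Finset.sum_congr rfl ?_
        intro l hl
        rw [Finset.mem_range] at hj hl
        have e1 : σ * D = σ * j + σ * (D - j) := by
          rw [← Nat.mul_add]; congr 1; omega
        have e2 : σ * d = σ * l + σ * (d - l) := by
          rw [← Nat.mul_add]; congr 1; omega
        rw [e1, e2, pow_add, pow_add]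
        have e3 : (B2 : ℚ) ^ (σ * j) = (B1 : ℚ) ^ (σ * j) * (β ^ σ) ^ j := by
          rw [← pow_mul, ← mul_pow, hβ, mul_div_cancel₀ _ hB1q]
        have e4 : (A1 : ℚ) ^ (σ * l) = (A2 : ℚ) ^ (σ * l) * (α ^ σ) ^ l := by
          rw [← pow_mul, ← mul_pow, hα, mul_div_cancel₀ _ hA2q]
        rw [e3, e4]
        ring
      rw [h3] at h2
      have h4 : (B1 : ℚ) ^ (σ * D) * (A2 : ℚ) ^ (σ * d) ≠ 0 :=
        mul_ne_zero (pow_ne_zero _ hB1q) (pow_ne_zero _ hA2q)
      exact (mul_eq_zero.1 h2).resolve_left h4)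
  omega

theorem pow_eq_exp {B : ℕ} (hB : 0 < B) (n : ℕ) :
    (B : ℝ) ^ n = Real.exp (n * Real.log B) := by
  rw [Real.exp_nat_mul, Real.exp_log (by exact_mod_cast hB)]

end CoreRealAux

open CoreRealAux in
/-- Archimedean analogue of `AbcE.core`. -/
theorem core_real (r D d N S B1 B2 A1 A2 : ℕ) (ρ m : ℝ)
    (hB1 : 0 < B1) (hB2 : 0 < B2) (hA1 : 0 < A1) (hA2 : 0 < A2)
    (hr : D < r) (hSieg : 2 * (2 * N) ≤ (D + 1) * (d + 1)) (hS : 1 ≤ S) (hρ0 : 0 ≤ ρ)
    (hρ1 : 4 * S * ρ ≤ 1) (hclose : |Real.log B1 - Real.log B2| ≤ ρ) (hne : B1 ≠ B2)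
    (hρm : (4 * S * ρ) ^ N ≤ Real.exp (-m))
    (hrel : |(Real.log A1 + r * Real.log B1) - (Real.log A2 + r * Real.log B2)| ≤ Real.exp (-m))
    (hsize : (((D + 1) * (d + 1) : ℕ) : ℝ) ^ 2 * 8 ^ (D + d * r) *
      ((max B1 B2 : ℕ) : ℝ) ^ (S * D) * ((max A1 A2 : ℕ) : ℝ) ^ (S * d) * (4 * S * (d + 1)) <
      Real.exp m)
    (hzero : (d + 1) * D < S * (N - d)) : False := by
  have hN : 0 < N := by
    by_contra h
    have : N - d = 0 := by omega
    rw [this, mul_zero] at hzero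
    omega
  obtain ⟨c, hc0, hcK, hc⟩ := siegel r D d N hN hSieg
  refine finish r D d N S B1 B2 A1 A2 c hB1 hB2 hA1 hA2 hr hne hc0 ?_ hzero
  intro s hs hs1 k hk
  set A0 : ℝ := (((D + 1) * (d + 1) : ℕ) : ℝ) with hA0
  set deg := D + d * r with hdeg
  set Bm : ℝ := ((max B1 B2 : ℕ) : ℝ) with hBm
  set Am : ℝ := ((max A1 A2 : ℕ) : ℝ) with hAm
  have hA01 : 1 ≤ A0 := by
    rw [hA0]
    exact_mod_cast Nat.succ_le_of_lt (by positivity)
  have hBm1 : 1 ≤ Bm := by
    rw [hBm]
    exact_mod_cast (le_max_of_le_left hB1 : 1 ≤ max B1 B2)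
  have hAm1 : 1 ≤ Am := by
    rw [hAm]
    exact_mod_cast (le_max_of_le_left hA1 : 1 ≤ max A1 A2)
  have hB1m : (B1 : ℝ) ≤ Bm := by
    rw [hBm]
    exact_mod_cast le_max_left B1 B2
  have hB2m : (B2 : ℝ) ≤ Bm := by
    rw [hBm]
    exact_mod_cast le_max_right B1 B2
  have hA1m : (A1 : ℝ) ≤ Am := by
    rw [hAm]
    exact_mod_cast le_max_left A1 A2
  have hA2m : (A2 : ℝ) ≤ Am := by
    rw [hAm]
    exact_mod_cast le_max_right A1 A2
  have hS1 : (1 : ℝ) ≤ S := by exact_mod_cast hS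
  have hs1' : (1 : ℝ) ≤ s := by exact_mod_cast hs1
  have hsS : (s : ℝ) ≤ S := by exact_mod_cast hs
  set G : ℝ := A0 ^ 2 * 8 ^ deg * Bm ^ (S * D) * Am ^ (S * d) with hG
  have hG0 : 1 ≤ G := by
    rw [hG]
    have h1 : 1 ≤ A0 ^ 2 := one_le_pow₀ hA01
    have h2 : (1 : ℝ) ≤ 8 ^ deg := one_le_pow₀ (by norm_num)
    have h3 : 1 ≤ Bm ^ (S * D) := one_le_pow₀ hBm1
    have h4 : 1 ≤ Am ^ (S * d) := one_le_pow₀ hAm1
    exact one_le_mul_of_one_le_of_one_le (one_le_mul_of_one_le_of_one_le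
      (one_le_mul_of_one_le_of_one_le h1 h2) h3) h4
  have hem : Real.exp (-m) = (Real.exp m)⁻¹ := Real.exp_neg m
  have hem0 : 0 < Real.exp m := Real.exp_pos m
  have hGm : G * (4 * S * (d + 1)) < Real.exp m := hsize
  set b1 := Real.log (B1 : ℝ) with hb1
  set b2 := Real.log (B2 : ℝ) with hb2
  set a1 := Real.log (A1 : ℝ) with ha1
  set a2 := Real.log (A2 : ℝ) with ha2
  set e : ℝ := (a1 + r * b1) - (a2 + r * b2) with he
  have hem' : 0 < Real.exp (-m) := Real.exp_pos _
  have hGe : G * (4 * S * (d + 1)) * Real.exp (-m) < 1 := by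
    rw [hem, mul_inv_lt_iff₀ hem0, one_mul]
    exact hGm
  have hd0 : (0 : ℝ) ≤ d := Nat.cast_nonneg d
  have hSde : 4 * S * (d + 1) * Real.exp (-m) < 1 := by
    refine lt_of_le_of_lt ?_ hGe
    have : 0 ≤ 4 * (S : ℝ) * (d + 1) * Real.exp (-m) := by positivity
    nlinarith
  -- the number y
  set y : ℝ := Real.exp (s * (b2 - b1)) with hy
  have hy0 : 0 ≤ y := (Real.exp_pos _).le
  have hsb : |(s : ℝ) * (b2 - b1)| ≤ S * ρ := by
    rw [abs_mul, Nat.abs_cast, abs_sub_comm]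
    exact mul_le_mul hsS hclose (abs_nonneg _) (by positivity)
  have hy1 : |y - 1| ≤ 2 * (S * ρ) := by
    have := Real.abs_exp_sub_one_le (x := s * (b2 - b1)) (by linarith)
    linarith
  have hyh : |y - 1| ≤ 1 / 2 := by linarith
  have hy2 : y ≤ 2 := by
    have := (abs_le.mp hyh).2
    linarith
  have hJ := small_sum r D d N c hcK hc y hy0 hy2 hyh k hk
  have hJ2 : (2 * |y - 1|) ^ N ≤ Real.exp (-m) := by
    refine le_trans (pow_le_pow_left₀ (by positivity) ?_ N) hρm
    linarith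
  -- the terms
  set T : ℕ → ℕ → ℝ := fun j l => ((B2 : ℝ) ^ (s * j) * (B1 : ℝ) ^ (s * (D - j))) *
    ((A1 : ℝ) ^ (s * l) * (A2 : ℝ) ^ (s * (d - l))) with hT
  have hT0 : ∀ j l, 0 ≤ T j l := by
    intro j l
    rw [hT]
    positivity
  have hTle : ∀ j ∈ range (D + 1), ∀ l ∈ range (d + 1), T j l ≤ Bm ^ (S * D) * Am ^ (S * d) := by
    intro j hj l hl
    rw [Finset.mem_range] at hj hl
    have h1 : (B2 : ℝ) ^ (s * j) * (B1 : ℝ) ^ (s * (D - j)) ≤ Bm ^ (S * D) := by
      calc (B2 : ℝ) ^ (s * j) * (B1 : ℝ) ^ (s * (D - j)) ≤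
          Bm ^ (s * j) * Bm ^ (s * (D - j)) := by gcongr
        _ = Bm ^ (s * D) := by
            rw [← pow_add, ← Nat.mul_add]
            congr 2
            omega
        _ ≤ Bm ^ (S * D) := pow_le_pow_right₀ hBm1 (Nat.mul_le_mul_right D hs)
    have h2 : (A1 : ℝ) ^ (s * l) * (A2 : ℝ) ^ (s * (d - l)) ≤ Am ^ (S * d) := by
      calc (A1 : ℝ) ^ (s * l) * (A2 : ℝ) ^ (s * (d - l)) ≤
          Am ^ (s * l) * Am ^ (s * (d - l)) := by gcongr
        _ = Am ^ (s * d) := by
            rw [← pow_add, ← Nat.mul_add]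
            congr 2
            omega
        _ ≤ Am ^ (S * d) := pow_le_pow_right₀ hAm1 (Nat.mul_le_mul_right d hs)
    rw [hT]
    exact mul_le_mul h1 h2 (by positivity) (by positivity)
  -- the coefficients
  set q : ℕ → ℕ → ℝ := fun j l => (c j l : ℝ) * (((j + l * r).choose k : ℕ) : ℝ) with hq
  have hqle : ∀ j ∈ range (D + 1), ∀ l ∈ range (d + 1), |q j l| ≤ A0 * 4 ^ deg := by
    intro j hj l hl
    rw [Finset.mem_range] at hj hl
    rw [hq]
    simp only
    rw [abs_mul, Nat.abs_cast]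
    have u1 : |(c j l : ℝ)| ≤ A0 * 2 ^ deg := by
      have h10 : ((|c j l| : ℤ) : ℝ) ≤
        (((((D + 1) * (d + 1) * 2 ^ (D + d * r) : ℕ) : ℤ)) : ℝ) := by
        exact_mod_cast hcK j l
      rw [Int.cast_abs] at h10
      rw [hA0, hdeg]
      push_cast at h10 ⊢
      exact h10
    have u2 : (((j + l * r).choose k : ℕ) : ℝ) ≤ 2 ^ deg := by
      have h7 : (j + l * r).choose k ≤ 2 ^ deg := by
        refine (Nat.choose_le_two_pow _ _).trans (Nat.pow_le_pow_right (by norm_num) ?_)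
        have : l * r ≤ d * r := Nat.mul_le_mul_right r (by omega)
        omega
      exact_mod_cast h7
    calc |(c j l : ℝ)| * (((j + l * r).choose k : ℕ) : ℝ) ≤ (A0 * 2 ^ deg) * 2 ^ deg := by gcongr
      _ = A0 * 4 ^ deg := by
        rw [mul_assoc, ← mul_pow]
        norm_num
  have hbig : ((bigI r D d c B1 B2 A1 A2 s k : ℤ) : ℝ) =
      ∑ j ∈ range (D + 1), ∑ l ∈ range (d + 1), q j l * T j l := by
    unfold bigI
    push_cast
    apply Finset.sum_congr rfl
    intro j _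
    apply Finset.sum_congr rfl
    intro l _
    rw [hq, hT]
    ring
  -- the comparison sum
  have hJterm : ∀ j ∈ range (D + 1), ∀ l ∈ range (d + 1),
      (B1 : ℝ) ^ (s * D) * (A2 : ℝ) ^ (s * d) * y ^ (j + l * r) =
        T j l * Real.exp (-((s * l : ℕ) : ℝ) * e) := by
    intro j hj l hl
    rw [Finset.mem_range] at hj hl
    rw [hT]
    simp only
    rw [pow_eq_exp hB1, pow_eq_exp hA2, pow_eq_exp hB2, pow_eq_exp hB1, pow_eq_exp hA1,
      pow_eq_exp hA2, hy, ← Real.exp_nat_mul]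
    simp only [← Real.exp_add]
    congr 1
    rw [← hb1, ← hb2, ← ha1, ← ha2, he]
    have e1 : ((D - j : ℕ) : ℝ) = D - j := by
      rw [Nat.cast_sub (by omega)]
    have e2 : ((d - l : ℕ) : ℝ) = d - l := by
      rw [Nat.cast_sub (by omega)]
    push_cast
    rw [e1, e2]
    ring
  have hJval : ∑ j ∈ range (D + 1), ∑ l ∈ range (d + 1),
      q j l * (T j l * Real.exp (-((s * l : ℕ) : ℝ) * e)) =
      (B1 : ℝ) ^ (s * D) * (A2 : ℝ) ^ (s * d) * ∑ j ∈ range (D + 1), ∑ l ∈ range (d + 1),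
        (c j l : ℝ) * (((j + l * r).choose k : ℕ) : ℝ) * y ^ (j + l * r) := by
    rw [Finset.mul_sum]
    apply Finset.sum_congr rfl
    intro j hj
    rw [Finset.mul_sum]
    apply Finset.sum_congr rfl
    intro l hl
    rw [← hJterm j hj l hl, hq]
    ring
  have hJabs : |∑ j ∈ range (D + 1), ∑ l ∈ range (d + 1),
      q j l * (T j l * Real.exp (-((s * l : ℕ) : ℝ) * e))| ≤ G * Real.exp (-m) := by
    rw [hJval, abs_mul, abs_of_nonneg (by positivity)]
    have h1 : (B1 : ℝ) ^ (s * D) ≤ Bm ^ (S * D) := by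
      calc (B1 : ℝ) ^ (s * D) ≤ Bm ^ (s * D) := by gcongr
        _ ≤ Bm ^ (S * D) := pow_le_pow_right₀ hBm1 (Nat.mul_le_mul_right D hs)
    have h2 : (A2 : ℝ) ^ (s * d) ≤ Am ^ (S * d) := by
      calc (A2 : ℝ) ^ (s * d) ≤ Am ^ (s * d) := by gcongr
        _ ≤ Am ^ (S * d) := pow_le_pow_right₀ hAm1 (Nat.mul_le_mul_right d hs)
    calc (B1 : ℝ) ^ (s * D) * (A2 : ℝ) ^ (s * d) * |∑ j ∈ range (D + 1), ∑ l ∈ range (d + 1),
        (c j l : ℝ) * (((j + l * r).choose k : ℕ) : ℝ) * y ^ (j + l * r)| ≤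
        (Bm ^ (S * D) * Am ^ (S * d)) * (A0 ^ 2 * 8 ^ deg * Real.exp (-m)) := by
          apply mul_le_mul _ _ (abs_nonneg _) (by positivity)
          · gcongr
          · refine hJ.trans ?_
            apply mul_le_mul_of_nonneg_left hJ2 (by positivity)
      _ = G * Real.exp (-m) := by
          rw [hG]
          ring
  have hdiff : |(∑ j ∈ range (D + 1), ∑ l ∈ range (d + 1), q j l * T j l) -
      ∑ j ∈ range (D + 1), ∑ l ∈ range (d + 1),
      q j l * (T j l * Real.exp (-((s * l : ℕ) : ℝ) * e))| ≤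
      G * (2 * (S * d) * Real.exp (-m)) := by
    rw [← Finset.sum_sub_distrib]
    have hterm : ∀ j ∈ range (D + 1), ∀ l ∈ range (d + 1),
        |q j l * T j l - q j l * (T j l * Real.exp (-((s * l : ℕ) : ℝ) * e))| ≤
        (A0 * 4 ^ deg) * ((Bm ^ (S * D) * Am ^ (S * d)) * (2 * (S * d) * Real.exp (-m))) := by
      intro j hj l hl
      have hl' := hl
      rw [Finset.mem_range] at hl'
      have hld : (l : ℝ) ≤ d := by exact_mod_cast (by omega : l ≤ d)
      have hsl : ((s * l : ℕ) : ℝ) ≤ S * d := by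
        push_cast
        exact mul_le_mul hsS hld (Nat.cast_nonneg l) (by linarith)
      have hx : |(-((s * l : ℕ) : ℝ) * e)| ≤ S * d * Real.exp (-m) := by
        rw [abs_mul, abs_neg, Nat.abs_cast]
        exact mul_le_mul hsl hrel (abs_nonneg _) (by positivity)
      have hx1 : |(-((s * l : ℕ) : ℝ) * e)| ≤ 1 := by
        refine hx.trans ?_
        nlinarith [mul_pos (show (0 : ℝ) < S by linarith) hem']
      have h3 := Real.abs_exp_sub_one_le hx1
      have e1 : q j l * T j l - q j l * (T j l * Real.exp (-((s * l : ℕ) : ℝ) * e)) =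
          -(q j l * (T j l * (Real.exp (-((s * l : ℕ) : ℝ) * e) - 1))) := by ring
      rw [e1, abs_neg, abs_mul (q j l), abs_mul (T j l), abs_of_nonneg (hT0 j l)]
      apply mul_le_mul (hqle j hj l hl) _ (by
        apply mul_nonneg (hT0 j l) (abs_nonneg _)) (by positivity)
      apply mul_le_mul (hTle j hj l hl) _ (abs_nonneg _) (by positivity)
      linarith
    refine (Finset.abs_sum_le_sum_abs _ _).trans ?_
    have h4 : ∀ j ∈ range (D + 1), |∑ l ∈ range (d + 1), q j l * T j l -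
        ∑ l ∈ range (d + 1), q j l * (T j l * Real.exp (-((s * l : ℕ) : ℝ) * e))| ≤
        ∑ _l ∈ range (d + 1), (A0 * 4 ^ deg) *
          ((Bm ^ (S * D) * Am ^ (S * d)) * (2 * (S * d) * Real.exp (-m))) := by
      intro j hj
      rw [← Finset.sum_sub_distrib]
      refine (Finset.abs_sum_le_sum_abs _ _).trans ?_
      exact Finset.sum_le_sum (fun l hl => hterm j hj l hl)
    refine (Finset.sum_le_sum h4).trans ?_
    simp only [Finset.sum_const, Finset.card_range, nsmul_eq_mul]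
    have h5 : ((D + 1 : ℕ) : ℝ) * (((d + 1 : ℕ) : ℝ) * ((A0 * 4 ^ deg) *
          ((Bm ^ (S * D) * Am ^ (S * d)) * (2 * (S * d) * Real.exp (-m))))) =
        (A0 ^ 2 * 4 ^ deg) * ((Bm ^ (S * D) * Am ^ (S * d)) * (2 * (S * d) * Real.exp (-m))) := by
      rw [hA0]
      push_cast
      ring
    rw [h5, hG]
    have h6 : (4 : ℝ) ^ deg ≤ 8 ^ deg := pow_le_pow_left₀ (by norm_num) (by norm_num) _
    calc (A0 ^ 2 * 4 ^ deg) * ((Bm ^ (S * D) * Am ^ (S * d)) * (2 * (S * d) * Real.exp (-m))) ≤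
        (A0 ^ 2 * 8 ^ deg) * ((Bm ^ (S * D) * Am ^ (S * d)) * (2 * (S * d) * Real.exp (-m))) := by
          gcongr
      _ = _ := by ring
  have hfin : |((bigI r D d c B1 B2 A1 A2 s k : ℤ) : ℝ)| < 1 := by
    rw [hbig]
    have h7 : |∑ j ∈ range (D + 1), ∑ l ∈ range (d + 1), q j l * T j l| ≤
        G * (2 * (S * d) * Real.exp (-m)) + G * Real.exp (-m) := by
      have h8 := abs_sub_abs_le_abs_sub (∑ j ∈ range (D + 1), ∑ l ∈ range (d + 1), q j l * T j l)
        (∑ j ∈ range (D + 1), ∑ l ∈ range (d + 1),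
        q j l * (T j l * Real.exp (-((s * l : ℕ) : ℝ) * e)))
      linarith
    refine lt_of_le_of_lt (h7.trans ?_) hGe
    have h9 : 0 ≤ G * Real.exp (-m) := by positivity
    have h10 : 2 * (S * d) + 1 ≤ 4 * (S : ℝ) * (d + 1) := by nlinarith
    calc G * (2 * (S * d) * Real.exp (-m)) + G * Real.exp (-m) =
        (2 * (S * d) + 1) * (G * Real.exp (-m)) := by ring
      _ ≤ (4 * (S : ℝ) * (d + 1)) * (G * Real.exp (-m)) := mul_le_mul_of_nonneg_right h10 h9
      _ = G * (4 * S * (d + 1)) * Real.exp (-m) := by ring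
  have hint : |bigI r D d c B1 B2 A1 A2 s k| < 1 := by
    have : ((|bigI r D d c B1 B2 A1 A2 s k| : ℤ) : ℝ) < ((1 : ℤ) : ℝ) := by
      rw [Int.cast_abs]
      simpa using hfin
    exact_mod_cast this
  exact Int.abs_lt_one_iff.mp hint

end Pool.Agent.Lib.Pabc11
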