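import Pool.Agent.Lib.Pabc11.Setup

/-!
# Distance of two pairs

`ratio_le`: `n1 = P * Q'`, `n2 = P' * Q`, `g = gcd n1 n2`; `log (n1 / g) = ∑ p, (v_p n1 - v_p n2)⁺ log p`
is at most `dst P P' + dst Q Q'`, and the same for `n2`.

`dst_ge_of_dvd`: `M` divides `(n1 - n2) / g ≠ 0` (`M` is coprime to `g`), so
`M ≤ max (n1 / g) (n2 / g)` (see `AbcE.natAbs_sub_lt_max`). `n1 ≠ n2`: otherwise `P / Q = P' / Q'` in
lowest terms.

`dst_ge_of_close`: `n1 / g ≠ n2 / g` are positive integers whose logarithms differ by at most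
`exp (-m)`; for integers `a < b`: `log b - log a ≥ 1 / b`, so the larger one is at least `exp m`.
-/

open Finset

namespace Pool.Agent.Lib.Pabc11

namespace GapAux

theorem fac_zero {P p : ℕ} (h : p ∉ P.primeFactors) : P.factorization p = 0 := by
  rw [← Nat.support_factorization, Finsupp.notMem_support_iff] at h
  exact h

theorem dst_eq {P P' : ℕ} {S : Finset ℕ} (h : P.primeFactors ⊆ S) (h' : P'.primeFactors ⊆ S) :
    dst P P' = ∑ p ∈ S, |(P.factorization p : ℝ) - P'.factorization p| * Real.log p := by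
  unfold dst
  refine Finset.sum_subset (Finset.union_subset h h') ?_
  intro p _ hp
  rw [Finset.mem_union, not_or] at hp
  rw [fac_zero hp.1, fac_zero hp.2]
  simp

theorem log_eq (m : ℕ) {S : Finset ℕ} (h : m.primeFactors ⊆ S) :
    Real.log m = ∑ p ∈ S, (m.factorization p : ℝ) * Real.log p := by
  rw [Real.log_nat_eq_sum_factorization, Finsupp.sum, Nat.support_factorization]
  refine Finset.sum_subset h ?_
  intro p _ hp
  rw [fac_zero hp]
  simp

theorem half {a b : ℕ} (ha : 0 < a) (hb : 0 < b) {S : Finset ℕ} (hS : a.primeFactors ⊆ S) :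
    Real.log ((a / Nat.gcd a b : ℕ) : ℝ) ≤
      ∑ p ∈ S, |(a.factorization p : ℝ) - b.factorization p| * Real.log p := by
  have hd : a / Nat.gcd a b ∣ a := Nat.div_dvd_of_dvd (Nat.gcd_dvd_left a b)
  have hs : (a / Nat.gcd a b).primeFactors ⊆ S :=
    (Nat.primeFactors_mono hd ha.ne').trans hS
  rw [log_eq _ hs]
  refine Finset.sum_le_sum fun p _ => ?_
  refine mul_le_mul_of_nonneg_right ?_ (Real.log_natCast_nonneg p)
  rw [Nat.factorization_div (Nat.gcd_dvd_left a b), Nat.factorization_gcd ha.ne' hb.ne']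
  rw [Finsupp.tsub_apply, Finsupp.inf_apply]
  rcases le_total (a.factorization p) (b.factorization p) with h | h
  · rw [inf_eq_left.2 h, Nat.sub_self, Nat.cast_zero]
    exact abs_nonneg _
  · rw [inf_eq_right.2 h, Nat.cast_sub h]
    exact le_abs_self _

theorem fac_sum {P Q P' Q' : ℕ} (hP : 0 < P) (hQ : 0 < Q) (hP' : 0 < P') (hQ' : 0 < Q')
    {S : Finset ℕ} (h1 : P.primeFactors ⊆ S) (h2 : Q.primeFactors ⊆ S)
    (h3 : P'.primeFactors ⊆ S) (h4 : Q'.primeFactors ⊆ S) :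
    ∑ p ∈ S, |((P * Q').factorization p : ℝ) - (P' * Q).factorization p| * Real.log p ≤
      dst P P' + dst Q Q' := by
  rw [dst_eq h1 h3, dst_eq h2 h4, ← Finset.sum_add_distrib]
  refine Finset.sum_le_sum fun p _ => ?_
  rw [← add_mul]
  refine mul_le_mul_of_nonneg_right ?_ (Real.log_natCast_nonneg p)
  rw [Nat.factorization_mul hP.ne' hQ'.ne', Nat.factorization_mul hP'.ne' hQ.ne']
  rw [Finsupp.add_apply, Finsupp.add_apply]
  push_cast
  have e : (P.factorization p : ℝ) + Q'.factorization p - (P'.factorization p + Q.factorization p) =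
      ((P.factorization p : ℝ) - P'.factorization p) -
        ((Q.factorization p : ℝ) - Q'.factorization p) := by ring
  rw [e]
  exact abs_sub _ _

theorem eq_of_cross {P Q P' Q' : ℕ} (hP : 0 < P)
    (hc : Nat.Coprime P Q) (hc' : Nat.Coprime P' Q') (h : P * Q' = P' * Q) :
    P = P' ∧ Q = Q' := by
  have h1 : P ∣ P' := by
    have : P ∣ P' * Q := ⟨Q', h.symm⟩
    exact hc.dvd_of_dvd_mul_right this
  have h2 : P' ∣ P := by
    have : P' ∣ P * Q' := ⟨Q, h⟩
    exact hc'.dvd_of_dvd_mul_right this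
  have h3 := Nat.dvd_antisymm h1 h2
  subst h3
  exact ⟨rfl, (Nat.eq_of_mul_eq_mul_left hP h).symm⟩

theorem close_aux {a b : ℕ} (m : ℝ) (ha : 0 < a) (hab : a < b)
    (h : |Real.log a - Real.log b| ≤ Real.exp (-m)) : m ≤ Real.log b := by
  have ha' : (0 : ℝ) < a := by exact_mod_cast ha
  have hb' : (0 : ℝ) < b := by exact_mod_cast ha.trans hab
  have hab' : (a : ℝ) + 1 ≤ b := by exact_mod_cast hab
  have h1 : Real.log ((a : ℝ) / b) ≤ (a : ℝ) / b - 1 := Real.log_le_sub_one_of_pos (by positivity)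
  rw [Real.log_div ha'.ne' hb'.ne'] at h1
  have h2 : (a : ℝ) / b - 1 ≤ - (1 / b) := by
    rw [div_sub_one hb'.ne', ← neg_div]
    exact (div_le_div_iff_of_pos_right hb').2 (by linarith)
  have h3 : (1 : ℝ) / b ≤ Real.exp (-m) := by
    have := neg_abs_le (Real.log a - Real.log b)
    linarith
  have h4 := Real.log_le_log (by positivity) h3
  rw [Real.log_exp, one_div, Real.log_inv] at h4
  linarith

end GapAux

open GapAux

theorem ratio_le (P Q P' Q' : ℕ) (hP : 0 < P) (hQ : 0 < Q) (hP' : 0 < P') (hQ' : 0 < Q') :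
    ∃ g n1 n2 : ℕ, 0 < g ∧ 0 < n1 ∧ 0 < n2 ∧ P * Q' = g * n1 ∧ P' * Q = g * n2 ∧
      Real.log n1 ≤ dst P P' + dst Q Q' ∧ Real.log n2 ≤ dst P P' + dst Q Q' := by
  have ha : 0 < P * Q' := Nat.mul_pos hP hQ'
  have hb : 0 < P' * Q := Nat.mul_pos hP' hQ
  have hg : 0 < Nat.gcd (P * Q') (P' * Q) := Nat.gcd_pos_of_pos_left _ ha
  have hgl : Nat.gcd (P * Q') (P' * Q) ∣ P * Q' := Nat.gcd_dvd_left _ _
  have hgr : Nat.gcd (P * Q') (P' * Q) ∣ P' * Q := Nat.gcd_dvd_right _ _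
  obtain ⟨S, hS⟩ : ∃ S : Finset ℕ,
      S = (P.primeFactors ∪ Q.primeFactors) ∪ (P'.primeFactors ∪ Q'.primeFactors) := ⟨_, rfl⟩
  have h1 : P.primeFactors ⊆ S := by
    rw [hS]; intro p hp; simp only [Finset.mem_union]; exact Or.inl (Or.inl hp)
  have h2 : Q.primeFactors ⊆ S := by
    rw [hS]; intro p hp; simp only [Finset.mem_union]; exact Or.inl (Or.inr hp)
  have h3 : P'.primeFactors ⊆ S := by
    rw [hS]; intro p hp; simp only [Finset.mem_union]; exact Or.inr (Or.inl hp)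
  have h4 : Q'.primeFactors ⊆ S := by
    rw [hS]; intro p hp; simp only [Finset.mem_union]; exact Or.inr (Or.inr hp)
  have h5 : (P * Q').primeFactors ⊆ S := by
    rw [Nat.primeFactors_mul hP.ne' hQ'.ne']
    exact Finset.union_subset h1 h4
  have h6 : (P' * Q).primeFactors ⊆ S := by
    rw [Nat.primeFactors_mul hP'.ne' hQ.ne']
    exact Finset.union_subset h3 h2
  have h7 := fac_sum hP hQ hP' hQ' h1 h2 h3 h4
  refine ⟨Nat.gcd (P * Q') (P' * Q), P * Q' / Nat.gcd (P * Q') (P' * Q),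
    P' * Q / Nat.gcd (P * Q') (P' * Q), hg, Nat.div_pos (Nat.le_of_dvd ha hgl) hg,
    Nat.div_pos (Nat.le_of_dvd hb hgr) hg, (Nat.mul_div_cancel' hgl).symm,
    (Nat.mul_div_cancel' hgr).symm, ?_, ?_⟩
  · exact (half ha hb h5).trans h7
  · rw [Nat.gcd_comm]
    refine (half hb ha h6).trans (le_trans (le_of_eq ?_) h7)
    refine Finset.sum_congr rfl fun p _ => ?_
    rw [abs_sub_comm]

theorem dst_ge_of_dvd (P Q P' Q' M : ℕ) (hP : 0 < P) (hQ : 0 < Q) (hP' : 0 < P') (hQ' : 0 < Q')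
    (hc : Nat.Coprime P Q) (hc' : Nat.Coprime P' Q') (hne : P ≠ P' ∨ Q ≠ Q')
    (hPM : Nat.Coprime P M) (hQM : Nat.Coprime Q M) (hPM' : Nat.Coprime P' M)
    (hQM' : Nat.Coprime Q' M) (hM : 0 < M) (hd : (M : ℤ) ∣ (P : ℤ) * Q' - P' * Q) :
    Real.log M ≤ dst P P' + dst Q Q' := by
  obtain ⟨g, n1, n2, hg, h1, h2, e1, e2, l1, l2⟩ := ratio_le P Q P' Q' hP hQ hP' hQ'
  have hne' : n1 ≠ n2 := by
    intro h
    rw [h, ← e2] at e1
    obtain ⟨r1, r2⟩ := eq_of_cross hP hc hc' e1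
    rcases hne with h' | h'
    · exact h' r1
    · exact h' r2
  have hgM : Nat.Coprime g M := by
    have h3 : Nat.Coprime (P * Q') M := Nat.Coprime.mul_left hPM hQM'
    rw [e1] at h3
    exact Nat.Coprime.coprime_mul_right h3
  have hd2 : (M : ℤ) ∣ (n1 : ℤ) - n2 := by
    have e3 : (P : ℤ) * Q' - P' * Q = g * ((n1 : ℤ) - n2) := by
      have e4 : (P : ℤ) * Q' = g * n1 := by exact_mod_cast e1
      have e5 : (P' : ℤ) * Q = g * n2 := by exact_mod_cast e2
      rw [e4, e5]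
      ring
    rw [e3] at hd
    have h3 : IsCoprime (M : ℤ) (g : ℤ) := (Nat.isCoprime_iff_coprime.2 hgM).symm
    exact h3.dvd_of_dvd_mul_left hd
  have h4 : (n1 : ℤ) - n2 ≠ 0 := by
    intro h
    exact hne' (by omega)
  have h5 := Nat.le_of_dvd (Int.natAbs_pos.2 h4) (Int.natAbs_dvd_natAbs.2 hd2)
  rw [Int.natAbs_natCast] at h5
  have hM' : (0 : ℝ) < M := by exact_mod_cast hM
  rcases le_total n1 n2 with h | h
  · have h6 : M ≤ n2 := by omega
    exact (Real.log_le_log hM' (by exact_mod_cast h6)).trans l2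
  · have h6 : M ≤ n1 := by omega
    exact (Real.log_le_log hM' (by exact_mod_cast h6)).trans l1

theorem dst_ge_of_close (P Q P' Q' : ℕ) (m : ℝ) (hP : 0 < P) (hQ : 0 < Q) (hP' : 0 < P')
    (hQ' : 0 < Q') (hc : Nat.Coprime P Q) (hc' : Nat.Coprime P' Q') (hne : P ≠ P' ∨ Q ≠ Q')
    (hd : |(Real.log P + Real.log Q') - (Real.log P' + Real.log Q)| ≤ Real.exp (-m)) :
    m ≤ dst P P' + dst Q Q' := by
  obtain ⟨g, n1, n2, hg, h1, h2, e1, e2, l1, l2⟩ := ratio_le P Q P' Q' hP hQ hP' hQ'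
  have hne' : n1 ≠ n2 := by
    intro h
    rw [h, ← e2] at e1
    obtain ⟨r1, r2⟩ := eq_of_cross hP hc hc' e1
    rcases hne with h' | h'
    · exact h' r1
    · exact h' r2
  have hP0 : (P : ℝ) ≠ 0 := by exact_mod_cast hP.ne'
  have hQ0 : (Q : ℝ) ≠ 0 := by exact_mod_cast hQ.ne'
  have hP0' : (P' : ℝ) ≠ 0 := by exact_mod_cast hP'.ne'
  have hQ0' : (Q' : ℝ) ≠ 0 := by exact_mod_cast hQ'.ne'
  have hg0 : (g : ℝ) ≠ 0 := by exact_mod_cast hg.ne'
  have h10 : (n1 : ℝ) ≠ 0 := by exact_mod_cast h1.ne'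
  have h20 : (n2 : ℝ) ≠ 0 := by exact_mod_cast h2.ne'
  have e3 : Real.log P + Real.log Q' = Real.log g + Real.log n1 := by
    rw [← Real.log_mul hP0 hQ0', ← Real.log_mul hg0 h10]
    congr 1
    exact_mod_cast e1
  have e4 : Real.log P' + Real.log Q = Real.log g + Real.log n2 := by
    rw [← Real.log_mul hP0' hQ0, ← Real.log_mul hg0 h20]
    congr 1
    exact_mod_cast e2
  rw [e3, e4, add_sub_add_left_eq_sub] at hd
  rcases lt_or_gt_of_ne hne' with h | h
  · exact (close_aux m h1 h hd).trans l2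
  · rw [abs_sub_comm] at hd
    exact (close_aux m h2 h hd).trans l1

end Pool.Agent.Lib.Pabc11
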