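import Pool.Agent.Lib.Pabc11.Setup

/-!
# Separated pairs with the same approximate supports

All `t ∈ T` have the same sets `Su`, `Sv` of primes `p` of `P t`, `Q t` with `F t p ≠ 0`
(`primeFactors_Bf` in Approx). The exponents of the other primes are errors. Code of `t` on
`S = Su ∪ Sv` (disjoint if `T` is nonempty): `(0, ⌊E p * log p * (4 * S.card / m)⌋₊)` with
`E p = (P t * Q t).factorization p`. Equal codes give `∑ p ∈ S, |E_t p - E_s p| log p ≤ m / 4`
(`abs_sub_le_of_floor_eq` in Pabc2.Cell; trivial for `S = ∅`), hence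
`dst (P t) (P s) + dst (Q t) (Q s) ≤ m / 4 + 2 W < m`, so `t = s`. The sum of a code is at most
`4 * S.card / m * (log (P t) + log (Q t)) ≤ 8 H S.card / m ≤ K * S.card`: `card_codesD_le` (Pabc1.Cell).
-/

open Finset

namespace Pool.Agent.Lib.Pabc11

open Pool.Agent.Lib.Pabc2 Pool.Agent.Lib.Pabc1

namespace SepAux

theorem fac_zero {P p : ℕ} (h : p ∉ P.primeFactors) : P.factorization p = 0 := by
  rw [← Nat.support_factorization, Finsupp.notMem_support_iff] at h
  exact h

theorem tail_le {r P : ℕ} {F : ℕ → ℕ} {Su U : Finset ℕ}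
    (hS : P.primeFactors.filter (fun p => F p ≠ 0) = Su) (hU : P.primeFactors ⊆ U) :
    ∑ p ∈ U \ Su, (P.factorization p : ℝ) * Real.log p ≤ err r P F := by
  have h1 : ∑ p ∈ U \ Su, (P.factorization p : ℝ) * Real.log p =
      ∑ p ∈ P.primeFactors \ Su, (P.factorization p : ℝ) * Real.log p := by
    symm
    refine Finset.sum_subset (Finset.sdiff_subset_sdiff hU (Finset.Subset.refl _)) ?_
    intro p hp hp'
    rw [Finset.mem_sdiff] at hp hp'
    have : p ∉ P.primeFactors := fun hh => hp' ⟨hh, hp.2⟩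
    rw [fac_zero this]
    simp
  rw [h1]
  unfold err
  refine le_trans (Finset.sum_le_sum (g := fun p =>
    |(P.factorization p : ℝ) - r * F p| * Real.log p) ?_)
    (Finset.sum_le_sum_of_subset_of_nonneg Finset.sdiff_subset
      (fun p _ _ => mul_nonneg (abs_nonneg _) (Real.log_natCast_nonneg p)))
  intro p hp
  rw [Finset.mem_sdiff, ← hS, Finset.mem_filter, not_and, not_not] at hp
  have h0 : F p = 0 := hp.2 hp.1
  refine mul_le_mul_of_nonneg_right ?_ (Real.log_natCast_nonneg p)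
  rw [h0]
  simp

theorem dst_le {r P P' : ℕ} {F F' : ℕ → ℕ} {Su : Finset ℕ}
    (hS : P.primeFactors.filter (fun p => F p ≠ 0) = Su)
    (hS' : P'.primeFactors.filter (fun p => F' p ≠ 0) = Su) :
    dst P P' ≤ ∑ p ∈ Su, |(P.factorization p : ℝ) * Real.log p -
      (P'.factorization p : ℝ) * Real.log p| + (err r P F + err r P' F') := by
  have hsub : Su ⊆ P.primeFactors ∪ P'.primeFactors := by
    rw [← hS]
    exact (Finset.filter_subset _ _).trans Finset.subset_union_left
  have h1 := tail_le (r := r) hS (Finset.subset_union_left (s₂ := P'.primeFactors))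
  have h2 := tail_le (r := r) hS' (Finset.subset_union_right (s₁ := P.primeFactors))
  unfold dst
  rw [← Finset.sum_sdiff hsub, add_comm]
  refine add_le_add (le_of_eq ?_) ?_
  · refine Finset.sum_congr rfl fun p _ => ?_
    rw [← sub_mul, abs_mul, abs_of_nonneg (Real.log_natCast_nonneg p)]
  · refine le_trans ?_ (add_le_add h1 h2)
    rw [← Finset.sum_add_distrib]
    refine Finset.sum_le_sum fun p _ => ?_
    rw [← add_mul]
    refine mul_le_mul_of_nonneg_right ?_ (Real.log_natCast_nonneg p)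
    refine (abs_sub _ _).trans ?_
    rw [Nat.abs_cast, Nat.abs_cast]

theorem sum_log_le {m : ℕ} (hm : m ≠ 0) {S : Finset ℕ} (h : S ⊆ m.primeFactors) :
    ∑ p ∈ S, (m.factorization p : ℝ) * Real.log p ≤ Real.log m := by
  rw [Real.log_nat_eq_sum_factorization, Finsupp.sum, Nat.support_factorization]
  exact Finset.sum_le_sum_of_subset_of_nonneg h
    (fun p _ _ => mul_nonneg (Nat.cast_nonneg _) (Real.log_natCast_nonneg p))

/-- the weight of a prime -/
noncomputable def wgt (P Q : ℕ) (p : ℕ) : ℝ := ((P * Q).factorization p : ℝ) * Real.log p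

theorem wgt_nonneg (P Q p : ℕ) : 0 ≤ wgt P Q p :=
  mul_nonneg (Nat.cast_nonneg _) (Real.log_natCast_nonneg p)

theorem wgt_left {P Q p : ℕ} (hP : P ≠ 0) (hQ : Q ≠ 0) (hc : Nat.Coprime P Q)
    (hp : p ∈ P.primeFactors) : wgt P Q p = (P.factorization p : ℝ) * Real.log p := by
  have h0 : Q.factorization p = 0 := by
    refine fac_zero fun hh => ?_
    exact Finset.disjoint_left.1 hc.disjoint_primeFactors hp hh
  unfold wgt
  rw [Nat.factorization_mul hP hQ, Finsupp.add_apply, h0, add_zero]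

theorem wgt_right {P Q p : ℕ} (hP : P ≠ 0) (hQ : Q ≠ 0) (hc : Nat.Coprime P Q)
    (hp : p ∈ Q.primeFactors) : wgt P Q p = (Q.factorization p : ℝ) * Real.log p := by
  have h0 : P.factorization p = 0 := by
    refine fac_zero fun hh => ?_
    exact Finset.disjoint_left.1 hc.disjoint_primeFactors hh hp
  unfold wgt
  rw [Nat.factorization_mul hP hQ, Finsupp.add_apply, h0, zero_add]

/-- the code -/
noncomputable def cod (m : ℝ) (S : Finset ℕ) (P Q : ℕ) : (p : ℕ) → p ∈ S → Fin 3 × ℕ :=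
  fun p _ => (0, ⌊wgt P Q p * (4 * S.card / m)⌋₊)

theorem sum_diff_le {m : ℝ} (hm : 0 < m) {S : Finset ℕ} {P Q P' Q' : ℕ}
    (h : cod m S P Q = cod m S P' Q') :
    ∑ p ∈ S, |wgt P Q p - wgt P' Q' p| ≤ m / 4 := by
  rcases S.eq_empty_or_nonempty with rfl | hne
  · rw [Finset.sum_empty]
    positivity
  · have hcard : (0 : ℝ) < S.card := by exact_mod_cast hne.card_pos
    calc ∑ p ∈ S, |wgt P Q p - wgt P' Q' p| ≤ ∑ _p ∈ S, 1 / (4 * (S.card : ℝ) / m) := by
          apply Finset.sum_le_sum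
          intro p hp
          refine abs_sub_le_of_floor_eq (wgt_nonneg _ _ _) (wgt_nonneg _ _ _) (by positivity) ?_
          have h1 := congrFun (congrFun h p) hp
          exact (Prod.ext_iff.mp h1).2
      _ = m / 4 := by
          rw [Finset.sum_const, nsmul_eq_mul]
          field_simp

theorem cod_sum {m : ℝ} (hm : 0 < m) {S : Finset ℕ} {P Q : ℕ} (hP : P ≠ 0) (hQ : Q ≠ 0)
    (hS : S ⊆ (P * Q).primeFactors) {H : ℝ} (h1 : Real.log P ≤ H) (h2 : Real.log Q ≤ H) {K : ℕ}
    (hK : 8 * H ≤ K * m) :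
    ∑ x ∈ S.attach, (cod m S P Q x.1 x.2).2 ≤ 3 * K * S.card := by
  have e : ∑ x ∈ S.attach, (cod m S P Q x.1 x.2).2 =
      ∑ p ∈ S, ⌊wgt P Q p * (4 * S.card / m)⌋₊ := by
    rw [← Finset.sum_attach S (fun p => ⌊wgt P Q p * (4 * S.card / m)⌋₊)]
    rfl
  rw [e]
  have hP0 : (P : ℝ) ≠ 0 := by exact_mod_cast hP
  have hQ0 : (Q : ℝ) ≠ 0 := by exact_mod_cast hQ
  have h3 : ((∑ p ∈ S, ⌊wgt P Q p * (4 * S.card / m)⌋₊ : ℕ) : ℝ) ≤ K * S.card := by
    push_cast
    calc ∑ p ∈ S, (⌊wgt P Q p * (4 * S.card / m)⌋₊ : ℝ)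
        ≤ ∑ p ∈ S, wgt P Q p * (4 * S.card / m) :=
          Finset.sum_le_sum fun p _ => Nat.floor_le
            (mul_nonneg (wgt_nonneg _ _ _) (by positivity))
      _ = (∑ p ∈ S, wgt P Q p) * (4 * S.card / m) := by rw [Finset.sum_mul]
      _ ≤ (2 * H) * (4 * S.card / m) := by
          refine mul_le_mul_of_nonneg_right ?_ (by positivity)
          have h4 := sum_log_le (Nat.mul_ne_zero hP hQ) hS
          rw [Nat.cast_mul, Real.log_mul hP0 hQ0] at h4
          unfold wgt
          linarith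
      _ = (8 * H) / m * S.card := by ring
      _ ≤ K * S.card := by
          refine mul_le_mul_of_nonneg_right ?_ (Nat.cast_nonneg _)
          rw [div_le_iff₀ hm]
          exact hK
  have h4 : ∑ p ∈ S, ⌊wgt P Q p * (4 * S.card / m)⌋₊ ≤ K * S.card := by exact_mod_cast h3
  calc ∑ p ∈ S, ⌊wgt P Q p * (4 * S.card / m)⌋₊ ≤ K * S.card := h4
    _ ≤ 3 * (K * S.card) := by omega
    _ = 3 * K * S.card := by ring

end SepAux

open SepAux

theorem card_sep {ι : Type*} [DecidableEq ι] {T : Finset ι} {P Q : ι → ℕ} {F : ι → ℕ → ℕ}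
    {r n : ℕ} {H W : ℝ} (hF : Fam T P Q F r n H W) (m : ℝ) (hm : 0 < m) (hW : 4 * W ≤ m) (K : ℕ)
    (hK : 8 * H ≤ K * m)
    (hsep : ∀ t ∈ T, ∀ s ∈ T, t ≠ s → m ≤ dst (P t) (P s) + dst (Q t) (Q s))
    (Su Sv : Finset ℕ) (hu : ∀ t ∈ T, (P t).primeFactors.filter (fun p => F t p ≠ 0) = Su)
    (hv : ∀ t ∈ T, (Q t).primeFactors.filter (fun p => F t p ≠ 0) = Sv) :
    (T.card : ℝ) ≤ BconD K ^ n := by
  classical
  rcases T.eq_empty_or_nonempty with rfl | ⟨t0, ht0⟩
  · rw [Finset.card_empty, Nat.cast_zero]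
    exact pow_nonneg (BconD_pos K).le n
  have hsu : ∀ t ∈ T, Su ⊆ (P t).primeFactors := fun t ht => by
    rw [← hu t ht]; exact Finset.filter_subset _ _
  have hsv : ∀ t ∈ T, Sv ⊆ (Q t).primeFactors := fun t ht => by
    rw [← hv t ht]; exact Finset.filter_subset _ _
  have hdis : Disjoint Su Sv :=
    Finset.disjoint_of_subset_left (hsu t0 ht0)
      (Finset.disjoint_of_subset_right (hsv t0 ht0) (hF.cop t0 ht0).disjoint_primeFactors)
  have hSn : (Su ∪ Sv).card ≤ n := by
    refine (Finset.card_union_le _ _).trans (le_trans ?_ (hF.num t0 ht0))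
    exact add_le_add (Finset.card_le_card (hsu t0 ht0)) (Finset.card_le_card (hsv t0 ht0))
  have hinj : Set.InjOn (fun t => cod m (Su ∪ Sv) (P t) (Q t)) (T : Set ι) := by
    intro t ht s hs hts
    have ht' : t ∈ T := ht
    have hs' : s ∈ T := hs
    by_contra hne
    have h1 := hsep t ht' s hs' hne
    have h2 := sum_diff_le hm hts
    rw [Finset.sum_union hdis] at h2
    have h3 := dst_le (r := r) (hu t ht') (hu s hs')
    have h4 := dst_le (r := r) (hv t ht') (hv s hs')
    have e1 : ∑ p ∈ Su, |wgt (P t) (Q t) p - wgt (P s) (Q s) p| =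
        ∑ p ∈ Su, |((P t).factorization p : ℝ) * Real.log p -
          ((P s).factorization p : ℝ) * Real.log p| := by
      refine Finset.sum_congr rfl fun p hp => ?_
      rw [wgt_left (hF.posP t ht').ne' (hF.posQ t ht').ne' (hF.cop t ht') (hsu t ht' hp),
        wgt_left (hF.posP s hs').ne' (hF.posQ s hs').ne' (hF.cop s hs') (hsu s hs' hp)]
    have e2 : ∑ p ∈ Sv, |wgt (P t) (Q t) p - wgt (P s) (Q s) p| =
        ∑ p ∈ Sv, |((Q t).factorization p : ℝ) * Real.log p -
          ((Q s).factorization p : ℝ) * Real.log p| := by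
      refine Finset.sum_congr rfl fun p hp => ?_
      rw [wgt_right (hF.posP t ht').ne' (hF.posQ t ht').ne' (hF.cop t ht') (hsv t ht' hp),
        wgt_right (hF.posP s hs').ne' (hF.posQ s hs').ne' (hF.cop s hs') (hsv s hs' hp)]
    rw [e1, e2] at h2
    have h5 := hF.err_le t ht'
    have h6 := hF.err_le s hs'
    linarith
  have hcard : T.card = (T.image (fun t => cod m (Su ∪ Sv) (P t) (Q t))).card :=
    (Finset.card_image_of_injOn hinj).symm
  have h7 := card_codesD_le K (Su ∪ Sv) (T.image (fun t => cod m (Su ∪ Sv) (P t) (Q t))) (by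
    intro f hf
    rw [Finset.mem_image] at hf
    obtain ⟨t, ht, rfl⟩ := hf
    refine cod_sum hm (hF.posP t ht).ne' (hF.posQ t ht).ne' ?_ (hF.logP t ht) (hF.logQ t ht) hK
    rw [Nat.primeFactors_mul (hF.posP t ht).ne' (hF.posQ t ht).ne']
    exact Finset.union_subset_union (hsu t ht) (hsv t ht))
  rw [hcard]
  exact h7.trans (pow_le_pow_right₀ (BconD_ge_one K) hSn)

end Pool.Agent.Lib.Pabc11
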