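import Pool.Agent.Lib.Pabc11.Approx
import Pool.Agent.Lib.Pabc11.Comb
import Pool.Agent.Lib.Pabc11.Gap
import Pool.Agent.Lib.Pabc11.Sep
import Pool.Agent.Lib.Pabc11.CoreNum
import Pool.Agent.Lib.AbcE.TheoremE

/-!
# The family lemma (a common modulus)

1. `exists_free` with `A t = (Bf (P t) (F t)).primeFactors`, `B t = (Bf (Q t) (F t)).primeFactors`
(`primeFactors_Bf`): `T1 ⊆ T`, `T.card ≤ 2 ^ n * T1.card`, and `Bf (P t) (F t)`, `Bf (Q s) (F s)` are
coprime for all `t, s ∈ T1`.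
2. `exists_rep` with `f t = (A t, B t)`: the fibres have at most `BconD K ^ n` elements by `card_sep` with
`m = log M`; the separation is `dst_ge_of_dvd`: `P t ≡ σ Q t`, `P s ≡ σ Q s` give
`M ∣ P t * Q s - P s * Q t`. So `T2 ⊆ T1`, `T1.card ≤ BconD K ^ n * T2.card`, `f` injective on `T2`.
3. `M0` from `AbcE.exists_M0 M N`, `N = parN (log M) a b`:
`log M0 ≤ log M / N + log (rad M) ≤ 36864 a b / log M + log (rad M)` (`parN_lower`).
4. If `M0 * (2 ^ (w * n)) ^ w < T2.card ^ w`, `exists_collision` with `u t = Bf (P t) (F t)`,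
`v t = Bf (Q t) (F t)` gives `τ, τ'`, and `core_num` is contradicted with
`B1 = (∏ u (τ i)) (∏ v (τ' i))`, `B2 = (∏ v (τ i)) (∏ u (τ' i))`,
`A1 = (∏ An (P) Ad (Q) (τ i)) (∏ Ad (P) An (Q) (τ' i))`,
`A2 = (∏ Ad (P) An (Q) (τ i)) (∏ An (P) Ad (Q) (τ' i))`. Relation: `P t * Ad = An * Bf ^ r` (`mul_Ad`) for
`P t` and `Q t` gives `M ∣ An(P) Ad(Q) Bf(P) ^ r - σ Ad(P) An(Q) Bf(Q) ^ r` (cancel `Q t`, a unit), take
products over `τ` and `τ'`. Sizes: `log Bf ≤ (H + err) / r` (`log_Bf_le`), so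
`log B1, log B2 ≤ 2 w (H + W) / r ≤ b`; `log A1, log A2 ≤ 2 w W ≤ a`.
5. So `T2.card ^ w ≤ M0 * (2 ^ (w * n)) ^ w`; take `w`-th roots (logarithms).
-/

open Finset

namespace Pool.Agent.Lib.Pabc11

open Pool.Agent.Lib.Pabc2 Pool.Agent.Lib.Pabc1

/-- The relation of one member of the family. -/
theorem rel_one (r P Q M : ℕ) (F : ℕ → ℕ) (σ : ℤ) (hP : P ≠ 0) (hQ : Q ≠ 0)
    (hd : (M : ℤ) ∣ (P : ℤ) - σ * Q) :
    ((An r P F * Ad r Q F * Bf P F ^ r : ℕ) : ZMod M) =
      (σ : ZMod M) * ((Ad r P F * An r Q F * Bf Q F ^ r : ℕ) : ZMod M) := by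
  have e1 := mul_Ad r P F hP
  have e2 := mul_Ad r Q F hQ
  have h1 : ((P : ℕ) : ZMod M) = (σ : ZMod M) * ((Q : ℕ) : ZMod M) := by
    have h := (ZMod.intCast_zmod_eq_zero_iff_dvd _ _).2 hd
    push_cast at h
    linear_combination h
  have h2 : ((P * Ad r P F : ℕ) : ZMod M) = ((An r P F * Bf P F ^ r : ℕ) : ZMod M) := by rw [e1]
  have h3 : ((Q * Ad r Q F : ℕ) : ZMod M) = ((An r Q F * Bf Q F ^ r : ℕ) : ZMod M) := by rw [e2]
  push_cast at h2 h3 ⊢
  rw [h1] at h2
  linear_combination (-(Ad r Q F : ZMod M)) * h2 + (σ : ZMod M) * (Ad r P F : ZMod M) * h3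

/-- The relation of a pair of `w`-tuples. -/
theorem rel_pair {w : ℕ} (M : ℕ) (c : ZMod M) (r : ℕ) (a1 a2 b1 b2 a1' a2' b1' b2' : Fin w → ℕ)
    (h : ∀ i, ((a1 i * b1 i ^ r : ℕ) : ZMod M) = c * ((a2 i * b2 i ^ r : ℕ) : ZMod M))
    (h' : ∀ i, ((a1' i * b1' i ^ r : ℕ) : ZMod M) = c * ((a2' i * b2' i ^ r : ℕ) : ZMod M)) :
    (M : ℤ) ∣ ((((∏ i, a1 i) * ∏ i, a2' i : ℕ) : ℤ)) * (((∏ i, b1 i) * ∏ i, b2' i : ℕ) : ℤ) ^ r -
      ((((∏ i, a2 i) * ∏ i, a1' i : ℕ) : ℤ)) * (((∏ i, b2 i) * ∏ i, b1' i : ℕ) : ℤ) ^ r := by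
  rw [← ZMod.intCast_zmod_eq_zero_iff_dvd]
  have h1 : (∏ i, ((a1 i * b1 i ^ r : ℕ) : ZMod M)) =
      c ^ w * ∏ i, ((a2 i * b2 i ^ r : ℕ) : ZMod M) := by
    rw [Finset.prod_congr rfl (fun i _ => h i), Finset.prod_mul_distrib, Finset.prod_const,
      Finset.card_univ, Fintype.card_fin]
  have h1' : (∏ i, ((a1' i * b1' i ^ r : ℕ) : ZMod M)) =
      c ^ w * ∏ i, ((a2' i * b2' i ^ r : ℕ) : ZMod M) := by
    rw [Finset.prod_congr rfl (fun i _ => h' i), Finset.prod_mul_distrib, Finset.prod_const,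
      Finset.card_univ, Fintype.card_fin]
  push_cast at h1 h1' ⊢
  simp only [Finset.prod_mul_distrib, Finset.prod_pow] at h1 h1'
  rw [mul_pow, mul_pow]
  linear_combination (∏ i, (a2' i : ZMod M)) * (∏ i, (b2' i : ZMod M)) ^ r * h1 -
    (∏ i, (a2 i : ZMod M)) * (∏ i, (b2 i : ZMod M)) ^ r * h1'

theorem log_prod_fin {w : ℕ} (f : Fin w → ℕ) (hf : ∀ i, 0 < f i) (B : ℝ)
    (hB : ∀ i, Real.log (f i) ≤ B) : Real.log ((∏ i, f i : ℕ) : ℝ) ≤ w * B := by
  push_cast
  rw [Real.log_prod (fun i _ => by exact_mod_cast (hf i).ne')]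
  calc ∑ i, Real.log (f i) ≤ ∑ _i : Fin w, B := Finset.sum_le_sum fun i _ => hB i
    _ = w * B := by rw [Finset.sum_const, Finset.card_univ, Fintype.card_fin, nsmul_eq_mul]

theorem family_padic {ι : Type*} [DecidableEq ι] {T : Finset ι} {P Q : ι → ℕ} {F : ι → ℕ → ℕ}
    {r n : ℕ} {H W : ℝ} (hF : Fam T P Q F r n H W) (M : ℕ) (σ : ℤ) (hσ : σ * σ = 1)
    (hPM : ∀ t ∈ T, Nat.Coprime (P t) M) (hQM : ∀ t ∈ T, Nat.Coprime (Q t) M)
    (hdvd : ∀ t ∈ T, (M : ℤ) ∣ (P t : ℤ) - σ * Q t)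
    (w K : ℕ) (hw : 1 ≤ w) (a b : ℝ)
    (hb : 2 * w * (H + W) ≤ b * r) (ha : 2 * w * W ≤ a)
    (h1 : 480 * b ≤ Real.log M) (h2 : 96 * a ≤ Real.log M) (h3 : (r : ℝ) ≤ a)
    (h4 : Real.log M < 48 * b * r) (h5 : 1000 ≤ Real.log M) (h6 : 2 ≤ b)
    (hW : 4 * W ≤ Real.log M) (hK : 8 * H ≤ K * Real.log M) :
    (T.card : ℝ) ≤ (2 ^ (w + 1) * BconD K) ^ n *
      Real.exp ((Real.log ((∏ q ∈ M.primeFactors, q : ℕ) : ℝ) + 36864 * a * b / Real.log M) / w) := by
  have hm0 : 0 < Real.log M := by linarith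
  have hMpos : 0 < M := by
    rcases Nat.eq_zero_or_pos M with h | h
    · rw [h] at hm0; simp at hm0
    · exact h
  have hb0 : 0 < b := by linarith
  have hr0 : (0 : ℝ) < r := by
    by_contra hc
    have : (r : ℝ) = 0 := le_antisymm (not_lt.1 hc) (Nat.cast_nonneg r)
    rw [this, mul_zero] at h4
    linarith
  have ha0 : 0 < a := by linarith
  have hw0 : (0 : ℝ) < w := by exact_mod_cast hw
  set A : ι → Finset ℕ := fun t => (Bf (P t) (F t)).primeFactors with hA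
  set B : ι → Finset ℕ := fun t => (Bf (Q t) (F t)).primeFactors with hBdef
  have hAsub : ∀ t, A t ⊆ (P t).primeFactors := fun t => by
    rw [hA]; simp only [primeFactors_Bf]; exact Finset.filter_subset _ _
  have hBsub : ∀ t, B t ⊆ (Q t).primeFactors := fun t => by
    rw [hBdef]; simp only [primeFactors_Bf]; exact Finset.filter_subset _ _
  -- step 1
  obtain ⟨T1, hT1, hc1, hfree⟩ := exists_free T A B n
    (fun t ht => Finset.disjoint_of_subset_left (hAsub t) (Finset.disjoint_of_subset_right (hBsub t)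
      (Nat.Coprime.disjoint_primeFactors (hF.cop t ht))))
    (fun t ht => (Nat.add_le_add (Finset.card_le_card (hAsub t))
      (Finset.card_le_card (hBsub t))).trans (hF.num t ht))
  -- step 2
  have hsep : ∀ t ∈ T, ∀ s ∈ T, t ≠ s →
      Real.log M ≤ dst (P t) (P s) + dst (Q t) (Q s) := by
    intro t ht s hs hts
    refine dst_ge_of_dvd (P t) (Q t) (P s) (Q s) M (hF.posP t ht) (hF.posQ t ht) (hF.posP s hs)
      (hF.posQ s hs) (hF.cop t ht) (hF.cop s hs) ?_ (hPM t ht) (hQM t ht) (hPM s hs) (hQM s hs)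
      hMpos ?_
    · by_contra hc
      rw [not_or, not_not, not_not] at hc
      exact hts (hF.inj t ht s hs hc.1 hc.2)
    · have e : (P t : ℤ) * Q s - P s * Q t =
          ((P t : ℤ) - σ * Q t) * Q s - ((P s : ℤ) - σ * Q s) * Q t := by ring
      rw [e]
      exact dvd_sub (Dvd.dvd.mul_right (hdvd t ht) _) (Dvd.dvd.mul_right (hdvd s hs) _)
  obtain ⟨T2, hT2, hc2, hinj⟩ := exists_rep T1 (fun t => (A t, B t)) (BconD K ^ n) (by
    rintro ⟨Su, Sv⟩
    have hsub : T1.filter (fun t => (A t, B t) = (Su, Sv)) ⊆ T :=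
      (Finset.filter_subset _ _).trans hT1
    refine card_sep (hF.mono hsub) (Real.log M) hm0 hW K hK
      (fun t ht s hs => hsep t (hsub ht) s (hsub hs)) Su Sv ?_ ?_
    · intro t ht
      have h := (Finset.mem_filter.1 ht).2
      rw [Prod.mk.injEq] at h
      rw [← primeFactors_Bf]
      exact h.1
    · intro t ht
      have h := (Finset.mem_filter.1 ht).2
      rw [Prod.mk.injEq] at h
      rw [← primeFactors_Bf]
      exact h.2)
  have hT2T : T2 ⊆ T := hT2.trans hT1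
  -- step 3
  set N := parN (Real.log M) a b with hN
  have hNlow := parN_lower (Real.log M) a b ha0 hb0 h1 h2
  rw [← hN] at hNlow
  have hNpos : (0 : ℝ) < N := lt_of_lt_of_le (by positivity) hNlow
  have hNpos' : 0 < N := by exact_mod_cast hNpos
  obtain ⟨M0, hM0pos, hMM0, hM0le, hM0cop⟩ := AbcE.exists_M0 M N hMpos hNpos'
  set R : ℕ := ∏ q ∈ M.primeFactors, q with hR
  have hRpos : 0 < R := Finset.prod_pos fun q hq => (Nat.prime_of_mem_primeFactors hq).pos
  have hlogM0 : Real.log M0 ≤ Real.log R + 36864 * a * b / Real.log M := by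
    have h7 : ((M0 : ℝ)) ^ N ≤ M * (R : ℝ) ^ N := by exact_mod_cast hM0le
    have hM0r : (0 : ℝ) < M0 := by exact_mod_cast hM0pos
    have hRr : (0 : ℝ) < R := by exact_mod_cast hRpos
    have hMr : (0 : ℝ) < M := by exact_mod_cast hMpos
    have h8 := Real.log_le_log (by positivity) h7
    rw [Real.log_pow, Real.log_mul hMr.ne' (by positivity), Real.log_pow] at h8
    have h9 : Real.log M ≤ N * (36864 * a * b / Real.log M) := by
      have h10 : Real.log M ^ 2 / (36864 * a * b) * (36864 * a * b / Real.log M) =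
          Real.log M := by
        field_simp
      calc Real.log M = Real.log M ^ 2 / (36864 * a * b) * (36864 * a * b / Real.log M) := h10.symm
        _ ≤ N * (36864 * a * b / Real.log M) := by gcongr
    have h11 : (N : ℝ) * Real.log M0 ≤ N * (Real.log R + 36864 * a * b / Real.log M) := by
      rw [mul_add]; linarith
    exact le_of_mul_le_mul_left h11 hNpos
  -- step 4
  have hcopM0 : ∀ x : ℕ, Nat.Coprime x M → Nat.Coprime x M0 := hM0cop
  have hmain : T2.card ^ w ≤ M0 * (2 ^ (w * n)) ^ w := by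
    by_contra hcon
    rw [not_le] at hcon
    obtain ⟨τ, τ', hτ, hτ', hne, hcong⟩ := exists_collision T2 (fun t => Bf (P t) (F t))
      (fun t => Bf (Q t) (F t)) n w M0 hM0pos (fun t _ => Bf_pos _ _) (fun t _ => Bf_pos _ _)
      (fun t ht => (Nat.add_le_add (Finset.card_le_card (hAsub t))
        (Finset.card_le_card (hBsub t))).trans (hF.num t (hT2T ht)))
      (fun t ht s hs => by
        rw [← Nat.disjoint_primeFactors (Bf_pos _ _).ne' (Bf_pos _ _).ne']
        exact hfree t (hT2 ht) s (hT2 hs))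
      (fun t ht s hs h7 h8 => hinj ht hs (by simp only [hA, hBdef, h7, h8]))
      (fun t ht => ⟨hcopM0 _ (Bf_coprime (hPM t (hT2T ht)) _),
        hcopM0 _ (Bf_coprime (hQM t (hT2T ht)) _)⟩) hcon
    have hτT : ∀ i, τ i ∈ T := fun i => hT2T (hτ i)
    have hτT' : ∀ i, τ' i ∈ T := fun i => hT2T (hτ' i)
    have hBfP : ∀ t ∈ T, Real.log (Bf (P t) (F t)) ≤ (H + W) / r := by
      intro t ht
      rw [le_div_iff₀ hr0, mul_comm]
      have h7 := log_Bf_le r (P t) (F t) (hF.posP t ht).ne'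
      have h8 := hF.logP t ht
      have h9 := hF.err_le t ht
      have h10 := err_nonneg r (Q t) (F t)
      linarith
    have hBfQ : ∀ t ∈ T, Real.log (Bf (Q t) (F t)) ≤ (H + W) / r := by
      intro t ht
      rw [le_div_iff₀ hr0, mul_comm]
      have h7 := log_Bf_le r (Q t) (F t) (hF.posQ t ht).ne'
      have h8 := hF.logQ t ht
      have h9 := hF.err_le t ht
      have h10 := err_nonneg r (P t) (F t)
      linarith
    have hA1 : ∀ t ∈ T, Real.log ((An r (P t) (F t) * Ad r (Q t) (F t) : ℕ) : ℝ) ≤ W := by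
      intro t ht
      push_cast
      rw [Real.log_mul (by exact_mod_cast (An_pos _ _ _).ne') (by exact_mod_cast (Ad_pos _ _ _).ne')]
      have h7 := log_An_le r (P t) (F t)
      have h8 := log_Ad_le r (Q t) (F t)
      have h9 := hF.err_le t ht
      linarith
    have hA2 : ∀ t ∈ T, Real.log ((Ad r (P t) (F t) * An r (Q t) (F t) : ℕ) : ℝ) ≤ W := by
      intro t ht
      push_cast
      rw [Real.log_mul (by exact_mod_cast (Ad_pos _ _ _).ne') (by exact_mod_cast (An_pos _ _ _).ne')]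
      have h7 := log_Ad_le r (P t) (F t)
      have h8 := log_An_le r (Q t) (F t)
      have h9 := hF.err_le t ht
      linarith
    have hbb : (w : ℝ) * ((H + W) / r) + w * ((H + W) / r) ≤ b := by
      have : (w : ℝ) * ((H + W) / r) + w * ((H + W) / r) = 2 * w * (H + W) / r := by ring
      rw [this, div_le_iff₀ hr0]
      exact hb
    have hposP : ∀ i, 0 < Bf (P (τ i)) (F (τ i)) := fun i => Bf_pos _ _
    have logmul : ∀ (f g : Fin w → ℕ) (X : ℝ), (∀ i, 0 < f i) → (∀ i, 0 < g i) →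
        (∀ i, Real.log (f i) ≤ X) → (∀ i, Real.log (g i) ≤ X) →
        Real.log (((∏ i, f i) * ∏ i, g i : ℕ) : ℝ) ≤ w * X + w * X := by
      intro f g X hf hg hfX hgX
      have e1 : (((∏ i, f i : ℕ) : ℝ)) ≠ 0 := by
        exact_mod_cast (Finset.prod_pos fun i _ => hf i).ne'
      have e2 : (((∏ i, g i : ℕ) : ℝ)) ≠ 0 := by
        exact_mod_cast (Finset.prod_pos fun i _ => hg i).ne'
      rw [Nat.cast_mul, Real.log_mul e1 e2]
      exact add_le_add (log_prod_fin f hf X hfX) (log_prod_fin g hg X hgX)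
    refine core_num r M M0
      ((∏ i, Bf (P (τ i)) (F (τ i))) * ∏ i, Bf (Q (τ' i)) (F (τ' i)))
      ((∏ i, Bf (Q (τ i)) (F (τ i))) * ∏ i, Bf (P (τ' i)) (F (τ' i)))
      ((∏ i, (An r (P (τ i)) (F (τ i)) * Ad r (Q (τ i)) (F (τ i)))) *
        ∏ i, (Ad r (P (τ' i)) (F (τ' i)) * An r (Q (τ' i)) (F (τ' i))))
      ((∏ i, (Ad r (P (τ i)) (F (τ i)) * An r (Q (τ i)) (F (τ i)))) *
        ∏ i, (An r (P (τ' i)) (F (τ' i)) * Ad r (Q (τ' i)) (F (τ' i))))
      a b ?_ ?_ ?_ ?_ h1 h2 h3 h4 h5 h6 ?_ ?_ ?_ ?_ hMM0 hcong hne ?_ ?_ ?_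
    · exact Nat.mul_pos (Finset.prod_pos fun i _ => Bf_pos _ _)
        (Finset.prod_pos fun i _ => Bf_pos _ _)
    · exact Nat.mul_pos (Finset.prod_pos fun i _ => Bf_pos _ _)
        (Finset.prod_pos fun i _ => Bf_pos _ _)
    · exact Nat.mul_pos (Finset.prod_pos fun i _ => Nat.mul_pos (An_pos _ _ _) (Ad_pos _ _ _))
        (Finset.prod_pos fun i _ => Nat.mul_pos (Ad_pos _ _ _) (An_pos _ _ _))
    · exact Nat.mul_pos (Finset.prod_pos fun i _ => Nat.mul_pos (Ad_pos _ _ _) (An_pos _ _ _))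
        (Finset.prod_pos fun i _ => Nat.mul_pos (An_pos _ _ _) (Ad_pos _ _ _))
    · exact (logmul _ _ _ (fun i => Bf_pos _ _) (fun i => Bf_pos _ _)
        (fun i => hBfP _ (hτT i)) (fun i => hBfQ _ (hτT' i))).trans hbb
    · exact (logmul _ _ _ (fun i => Bf_pos _ _) (fun i => Bf_pos _ _)
        (fun i => hBfQ _ (hτT i)) (fun i => hBfP _ (hτT' i))).trans hbb
    · refine (logmul _ _ W (fun i => Nat.mul_pos (An_pos _ _ _) (Ad_pos _ _ _))
        (fun i => Nat.mul_pos (Ad_pos _ _ _) (An_pos _ _ _))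
        (fun i => hA1 _ (hτT i)) (fun i => hA2 _ (hτT' i))).trans ?_
      linarith
    · refine (logmul _ _ W (fun i => Nat.mul_pos (Ad_pos _ _ _) (An_pos _ _ _))
        (fun i => Nat.mul_pos (An_pos _ _ _) (Ad_pos _ _ _))
        (fun i => hA2 _ (hτT i)) (fun i => hA1 _ (hτT' i))).trans ?_
      linarith
    · exact rel_pair M (σ : ZMod M) r _ _ _ _ _ _ _ _
        (fun i => rel_one r _ _ M _ σ (hF.posP _ (hτT i)).ne' (hF.posQ _ (hτT i)).ne'
          (hdvd _ (hτT i)))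
        (fun i => rel_one r _ _ M _ σ (hF.posP _ (hτT' i)).ne' (hF.posQ _ (hτT' i)).ne'
          (hdvd _ (hτT' i)))
    · refine Nat.Coprime.mul_right ?_ ?_
      · exact Nat.Coprime.prod_right fun i _ => (Bf_coprime (hPM _ (hτT i)) _).symm
      · exact Nat.Coprime.prod_right fun i _ => (Bf_coprime (hQM _ (hτT' i)) _).symm
    · refine Nat.Coprime.mul_right ?_ ?_
      · exact Nat.Coprime.prod_right fun i _ => Nat.Coprime.mul_right
          (Ad_coprime (hPM _ (hτT i)) _ _).symm (An_coprime (hQM _ (hτT i)) _ _).symm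
      · exact Nat.Coprime.prod_right fun i _ => Nat.Coprime.mul_right
          (An_coprime (hPM _ (hτT' i)) _ _).symm (Ad_coprime (hQM _ (hτT' i)) _ _).symm
  -- step 5
  set E : ℝ := Real.exp ((Real.log R + 36864 * a * b / Real.log M) / w) with hE
  have hE0 : 0 < E := Real.exp_pos _
  have hEw : (M0 : ℝ) ≤ E ^ w := by
    rw [hE, ← Real.exp_nat_mul]
    have e : (w : ℝ) * ((Real.log R + 36864 * a * b / Real.log M) / w) =
        Real.log R + 36864 * a * b / Real.log M := by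
      field_simp
    rw [e, ← Real.log_le_iff_le_exp (by exact_mod_cast hM0pos)]
    exact hlogM0
  have h7 : ((T2.card : ℝ)) ≤ E * 2 ^ (w * n) := by
    have h8 : ((T2.card : ℝ)) ^ w ≤ (E * 2 ^ (w * n)) ^ w := by
      have h9 : ((T2.card : ℝ)) ^ w ≤ M0 * (2 ^ (w * n)) ^ w := by exact_mod_cast hmain
      rw [mul_pow]
      exact h9.trans (mul_le_mul_of_nonneg_right hEw (by positivity))
    exact le_of_pow_le_pow_left₀ (by omega) (by positivity) h8
  have h8 : (T.card : ℝ) ≤ 2 ^ n * T1.card := by exact_mod_cast hc1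
  have hBc : 0 < BconD K := BconD_pos K
  calc (T.card : ℝ) ≤ 2 ^ n * T1.card := h8
    _ ≤ 2 ^ n * (BconD K ^ n * (E * 2 ^ (w * n))) := by
        refine mul_le_mul_of_nonneg_left (hc2.trans ?_) (by positivity)
        exact mul_le_mul_of_nonneg_left h7 (by positivity)
    _ = (2 ^ (w + 1) * BconD K) ^ n * E := by
        rw [mul_pow, ← pow_mul]
        ring

end Pool.Agent.Lib.Pabc11
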