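import Pool.Agent.Lib.Pabc11.Approx
import Pool.Agent.Lib.Pabc11.Comb
import Pool.Agent.Lib.Pabc11.Gap
import Pool.Agent.Lib.Pabc11.Sep
import Pool.Agent.Lib.Pabc11.CoreNum
import Pool.Agent.Lib.Pabc11.CoreReal

/-!
# The family lemma at the archimedean place

`core_num_real`: as `core_num` (S = 6, the same `D`, `d`, `N`), from `core_real`:
`(24 ρ)^N ≤ exp (-m)`, and `log 8 ≤ 2.08`, `log (24 (d + 1)) ≤ m / 20`.

`family_real`: `exists_rep` with `f t = ((Bf (P t) (F t)).primeFactors, (Bf (Q t) (F t)).primeFactors)`, fibres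
at most `BconD K ^ n` by `card_sep` with this `m` (separation: `dst_ge_of_close`, the two relations add up
to `exp (-m)`). On `T2` the numbers `λ t = log (Bf (P t)) - log (Bf (Q t))` satisfy
`r λ t = log (P t) - log (Q t) + (log Ad - log An)(P) - (log Ad - log An)(Q)` (`log_mul_Ad`), so
`|λ t| ≤ (W + 1) / r` (`r ≥ 1`). Cells of width `ρ = exp (-36864 a b / m) / 24`: if `T2` has more elements than cells
(`≤ 48 ((W + 1) / r) exp (36864 a b / m) + 1`), two elements `t ≠ s` lie in one cell, and `core_num_real`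
is contradicted with `B1 = Bf(P t) Bf(Q s)`, `B2 = Bf(Q t) Bf(P s)`,
`A1 = An(P t) Ad(Q t) Ad(P s) An(Q s)`, `A2 = Ad(P t) An(Q t) An(P s) Ad(Q s)`. `B1 ≠ B2`: otherwise the two
reduced fractions `Bf(P t) / Bf(Q t)`, `Bf(P s) / Bf(Q s)` are equal and `f t = f s`.
-/

open Finset

namespace Pool.Agent.Lib.Pabc11

open Pool.Agent.Lib.Pabc2 Pool.Agent.Lib.Pabc1

theorem log_le_of_large {m : ℝ} (h : 1000 ≤ m) : Real.log m ≤ 7 * m / 1000 := by
  have hm : 0 < m := by linarith
  have h1 : Real.log (m / 1024) ≤ m / 1024 - 1 := Real.log_le_sub_one_of_pos (by positivity)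
  rw [Real.log_div hm.ne' (by norm_num)] at h1
  have h2 : Real.log 1024 = 10 * Real.log 2 := by
    rw [show (1024 : ℝ) = 2 ^ 10 by norm_num, Real.log_pow]; norm_num
  have h3 := Real.log_two_lt_d9
  rw [h2] at h1
  linarith

theorem core_num_real (r B1 B2 A1 A2 : ℕ) (m a b ρ : ℝ) (hB1 : 0 < B1) (hB2 : 0 < B2)
    (hA1 : 0 < A1) (hA2 : 0 < A2) (h1 : 480 * b ≤ m) (h2 : 96 * a ≤ m) (h3 : (r : ℝ) ≤ a)
    (h4 : m < 48 * b * r) (h5 : 1000 ≤ m) (h6 : 2 ≤ b)
    (hb1 : Real.log B1 ≤ b) (hb2 : Real.log B2 ≤ b) (ha1 : Real.log A1 ≤ a)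
    (ha2 : Real.log A2 ≤ a) (hρ0 : 0 ≤ ρ) (hρ : 24 * ρ ≤ Real.exp (-(m / parN m a b)))
    (hclose : |Real.log B1 - Real.log B2| ≤ ρ) (hne : B1 ≠ B2)
    (hrel : |(Real.log A1 + r * Real.log B1) - (Real.log A2 + r * Real.log B2)| ≤ Real.exp (-m)) :
    False := by
  have hm : 0 < m := by linarith
  have hb0 : 0 < b := by linarith
  have hr0 : 0 < r := by
    rcases Nat.eq_zero_or_pos r with h | h
    · exfalso
      rw [h, Nat.cast_zero, mul_zero] at h4
      linarith
    · exact h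
  have hr1 : (1 : ℝ) ≤ r := by exact_mod_cast hr0
  have ha0 : 0 < a := by linarith
  have ha1' : 1 ≤ a := by linarith
  set D : ℕ := ⌊m / (48 * b)⌋₊ with hD
  set d : ℕ := ⌊m / (96 * a)⌋₊ with hd
  set N : ℕ := (D + 1) * (d + 1) / 4 with hN
  have hNp : parN m a b = N := rfl
  have hDle : (D : ℝ) ≤ m / (48 * b) := Nat.floor_le (by positivity)
  have hdle : (d : ℝ) ≤ m / (96 * a) := Nat.floor_le (by positivity)
  have hD10 : 10 ≤ D := by
    apply Nat.le_floor
    rw [le_div_iff₀ (by positivity)]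
    push_cast
    linarith
  have hd1 : 1 ≤ d := by
    apply Nat.le_floor
    rw [le_div_iff₀ (by positivity)]
    push_cast
    linarith
  have hDb : D * b ≤ m / 48 := by
    have := mul_le_mul_of_nonneg_right hDle hb0.le
    have e : m / (48 * b) * b = m / 48 := by field_simp
    rwa [e] at this
  have hda : d * a ≤ m / 96 := by
    have := mul_le_mul_of_nonneg_right hdle ha0.le
    have e : m / (96 * a) * a = m / 96 := by field_simp
    rwa [e] at this
  have hD2 : (D : ℝ) ≤ m / 96 := by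
    have : (D : ℝ) * 2 ≤ D * b := mul_le_mul_of_nonneg_left h6 (Nat.cast_nonneg _)
    linarith
  have hdr : (d : ℝ) * r ≤ m / 96 :=
    (mul_le_mul_of_nonneg_left h3 (Nat.cast_nonneg _)).trans hda
  have hd2 : (d : ℝ) ≤ m / 96 := by
    have : (d : ℝ) * 1 ≤ d * r := mul_le_mul_of_nonneg_left hr1 (Nat.cast_nonneg _)
    linarith
  have hDr : D < r := by
    have : (D : ℝ) < r := by
      refine lt_of_le_of_lt hDle ?_
      rw [div_lt_iff₀ (by positivity)]
      linarith
    exact_mod_cast this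
  have h4N : 4 * N ≤ (D + 1) * (d + 1) := by
    rw [hN]; exact Nat.mul_div_le _ _
  have h4N' : (D + 1) * (d + 1) ≤ 4 * N + 3 := by
    rw [hN]
    have := Nat.div_add_mod ((D + 1) * (d + 1)) 4
    have h7 := Nat.mod_lt ((D + 1) * (d + 1)) (show 0 < 4 by norm_num)
    omega
  have hprod : 11 * (d + 1) ≤ (D + 1) * (d + 1) := Nat.mul_le_mul_right _ (by omega)
  have hNd : d ≤ N := by omega
  have hNpos : 0 < N := by omega
  have hzero : (d + 1) * D < 6 * (N - d) := by
    zify [hNd]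
    zify at h4N' hprod hD10
    have h7 : (d + 1 : ℤ) * D = (D + 1) * (d + 1) - (d + 1) := by ring
    rw [h7]
    nlinarith
  have hNR : (0 : ℝ) < N := by exact_mod_cast hNpos
  have h24 : 24 * ρ ≤ 1 := by
    refine hρ.trans ?_
    rw [← Real.exp_zero]
    apply Real.exp_le_exp.2
    rw [hNp]
    have : 0 ≤ m / N := by positivity
    linarith
  refine core_real r D d N 6 B1 B2 A1 A2 ρ m hB1 hB2 hA1 hA2 hDr (by omega) (by norm_num) hρ0
    (by push_cast; linarith) hclose hne ?_ hrel ?_ hzero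
  · have e : (4 * ((6 : ℕ) : ℝ) * ρ) = 24 * ρ := by push_cast; ring
    rw [e]
    calc (24 * ρ) ^ N ≤ Real.exp (-(m / parN m a b)) ^ N :=
          pow_le_pow_left₀ (by positivity) hρ N
      _ = Real.exp (-m) := by
          rw [← Real.exp_nat_mul, hNp]
          congr 1
          field_simp
  · -- size
    have hx : (0 : ℝ) < (((D + 1) * (d + 1) : ℕ) : ℝ) := by positivity
    have hmB : (0 : ℝ) < ((max B1 B2 : ℕ) : ℝ) := by
      exact_mod_cast lt_of_lt_of_le hB1 (le_max_left _ _)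
    have hmA : (0 : ℝ) < ((max A1 A2 : ℕ) : ℝ) := by
      exact_mod_cast lt_of_lt_of_le hA1 (le_max_left _ _)
    have hLB : Real.log ((max B1 B2 : ℕ) : ℝ) ≤ b := by
      rcases le_total B1 B2 with h | h
      · rw [max_eq_right h]; exact hb2
      · rw [max_eq_left h]; exact hb1
    have hLA : Real.log ((max A1 A2 : ℕ) : ℝ) ≤ a := by
      rcases le_total A1 A2 with h | h
      · rw [max_eq_right h]; exact ha2
      · rw [max_eq_left h]; exact ha1
    have hlogm := log_le_of_large h5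
    have e1 : Real.log (((D + 1) * (d + 1) : ℕ) : ℝ) ≤ 2 * (7 * m / 1000) := by
      push_cast
      rw [Real.log_mul (by positivity) (by positivity)]
      have e2 : Real.log ((D : ℝ) + 1) ≤ Real.log m :=
        Real.log_le_log (by positivity) (by linarith)
      have e3 : Real.log ((d : ℝ) + 1) ≤ Real.log m :=
        Real.log_le_log (by positivity) (by linarith)
      linarith
    have e4 : Real.log (4 * ((6 : ℕ) : ℝ) * (d + 1)) ≤ 7 * m / 1000 := by
      refine (Real.log_le_log (by positivity) (?_ : _ ≤ m)).trans hlogm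
      push_cast
      linarith
    have e8 : Real.log 8 ≤ 2.08 := by
      rw [show (8 : ℝ) = 2 ^ 3 by norm_num, Real.log_pow]
      have := Real.log_two_lt_d9
      push_cast
      linarith
    have e8' : 0 ≤ Real.log 8 := Real.log_nonneg (by norm_num)
    rw [← Real.log_lt_iff_lt_exp (by positivity)]
    rw [Real.log_mul (by positivity) (by positivity), Real.log_mul (by positivity) (by positivity),
      Real.log_mul (by positivity) (by positivity), Real.log_mul (by positivity) (by positivity),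
      Real.log_pow, Real.log_pow, Real.log_pow, Real.log_pow]
    have f1 : ((D + d * r : ℕ) : ℝ) * Real.log 8 ≤ (m / 96 + m / 96) * 2.08 := by
      push_cast
      exact mul_le_mul (by linarith) e8 e8' (by positivity)
    have f2 : ((6 * D : ℕ) : ℝ) * Real.log ((max B1 B2 : ℕ) : ℝ) ≤ 6 * (m / 48) := by
      push_cast
      have := mul_le_mul_of_nonneg_left hLB (show (0 : ℝ) ≤ 6 * D by positivity)
      push_cast at this
      linarith
    have f3 : ((6 * d : ℕ) : ℝ) * Real.log ((max A1 A2 : ℕ) : ℝ) ≤ 6 * (m / 96) := by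
      push_cast
      have := mul_le_mul_of_nonneg_left hLA (show (0 : ℝ) ≤ 6 * d by positivity)
      push_cast at this
      linarith
    clear_value D d N
    generalize Real.log (((D + 1) * (d + 1) : ℕ) : ℝ) = x1 at e1 ⊢
    generalize Real.log (4 * ((6 : ℕ) : ℝ) * (d + 1)) = x2 at e4 ⊢
    generalize ((D + d * r : ℕ) : ℝ) * Real.log 8 = x3 at f1 ⊢
    generalize ((6 * D : ℕ) : ℝ) * Real.log ((max B1 B2 : ℕ) : ℝ) = x4 at f2 ⊢
    generalize ((6 * d : ℕ) : ℝ) * Real.log ((max A1 A2 : ℕ) : ℝ) = x5 at f3 ⊢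
    push_cast
    linarith

theorem family_real {ι : Type*} [DecidableEq ι] {T : Finset ι} {P Q : ι → ℕ} {F : ι → ℕ → ℕ}
    {r n : ℕ} {H W : ℝ} (hF : Fam T P Q F r n H W) (m : ℝ)
    (hrel : ∀ t ∈ T, |Real.log (P t) - Real.log (Q t)| ≤ Real.exp (-m) / 2)
    (K : ℕ) (a b : ℝ) (hb : 2 * (H + W) ≤ b * r) (ha : 2 * W ≤ a)
    (h1 : 480 * b ≤ m) (h2 : 96 * a ≤ m) (h3 : (r : ℝ) ≤ a)
    (h4 : m < 48 * b * r) (h5 : 1000 ≤ m) (h6 : 2 ≤ b)
    (hW : 4 * W ≤ m) (hK : 8 * H ≤ K * m) (hWn : 0 ≤ W) :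
    (T.card : ℝ) ≤ BconD K ^ n *
      (48 * ((W + 1) / r) * Real.exp (36864 * a * b / m) + 1) := by
  have hm : 0 < m := by linarith
  have hb0 : 0 < b := by linarith
  have hr0 : 0 < r := by
    rcases Nat.eq_zero_or_pos r with h | h
    · exfalso
      rw [h, Nat.cast_zero, mul_zero] at h4
      linarith
    · exact h
  have hr1 : (1 : ℝ) ≤ r := by exact_mod_cast hr0
  have hrR : (0 : ℝ) < r := by linarith
  have ha0 : 0 < a := by linarith
  have hexp : Real.exp (-m) ≤ 1 := by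
    rw [← Real.exp_zero]; exact Real.exp_le_exp.2 (by linarith)
  have hexp0 : 0 < Real.exp (-m) := Real.exp_pos _
  -- separation
  have hsep : ∀ t ∈ T, ∀ s ∈ T, t ≠ s → m ≤ dst (P t) (P s) + dst (Q t) (Q s) := by
    intro t ht s hs hts
    apply dst_ge_of_close (P t) (Q t) (P s) (Q s) m (hF.posP t ht) (hF.posQ t ht)
      (hF.posP s hs) (hF.posQ s hs) (hF.cop t ht) (hF.cop s hs)
    · by_contra hcon
      push Not at hcon
      exact hts (hF.inj t ht s hs hcon.1 hcon.2)
    · have e1 := abs_le.1 (hrel t ht)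
      have e2 := abs_le.1 (hrel s hs)
      rw [abs_le]
      constructor <;> linarith [e1.1, e1.2, e2.1, e2.2]
  obtain ⟨T2, hT2, hcard, hinj⟩ := exists_rep T
    (fun t => ((Bf (P t) (F t)).primeFactors, (Bf (Q t) (F t)).primeFactors)) (BconD K ^ n)
    (by
      rintro ⟨b1, b2⟩
      refine card_sep (hF.mono (filter_subset _ T)) m hm hW K hK ?_ b1 b2 ?_ ?_
      · intro t ht s hs hts
        exact hsep t (mem_of_mem_filter t ht) s (mem_of_mem_filter s hs) hts
      · intro t ht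
        have := (mem_filter.1 ht).2
        rw [← primeFactors_Bf]
        exact (Prod.mk.inj this).1
      · intro t ht
        have := (mem_filter.1 ht).2
        rw [← primeFactors_Bf]
        exact (Prod.mk.inj this).2)
  have hB0 : (0 : ℝ) ≤ BconD K ^ n := pow_nonneg (by linarith [BconD_ge_one K]) _
  refine hcard.trans (mul_le_mul_of_nonneg_left ?_ hB0)
  by_contra hcon
  push Not at hcon
  -- errors
  have herrP : ∀ t ∈ T, err r (P t) (F t) ≤ W := fun t ht => by
    have h7 := hF.err_le t ht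
    have h8 := err_nonneg r (Q t) (F t)
    linarith
  have herrQ : ∀ t ∈ T, err r (Q t) (F t) ≤ W := fun t ht => by
    have h7 := hF.err_le t ht
    have h8 := err_nonneg r (P t) (F t)
    linarith
  set lam : ι → ℝ := fun t => Real.log (Bf (P t) (F t)) - Real.log (Bf (Q t) (F t)) with hlam
  set L : ℝ := (W + 1) / r with hL
  have hL0 : 0 < L := by positivity
  have hlamle : ∀ t ∈ T, |lam t| ≤ L := by
    intro t ht
    have e1 := log_mul_Ad r (P t) (F t) (hF.posP t ht).ne'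
    have e2 := log_mul_Ad r (Q t) (F t) (hF.posQ t ht).ne'
    have e3 := abs_le.1 (hrel t ht)
    have e4 := log_An_add_log_Ad r (P t) (F t)
    have e5 := log_An_add_log_Ad r (Q t) (F t)
    have e6 := hF.err_le t ht
    have e7 := log_An_nonneg r (P t) (F t)
    have e8 := log_An_nonneg r (Q t) (F t)
    have e9 := log_Ad_nonneg r (P t) (F t)
    have e10 := log_Ad_nonneg r (Q t) (F t)
    have e11 : |r * lam t| ≤ W + 1 := by
      have : r * lam t = r * Real.log (Bf (P t) (F t)) - r * Real.log (Bf (Q t) (F t)) := by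
        rw [hlam]; ring
      rw [this, abs_le]
      constructor <;> linarith [e3.1, e3.2]
    rw [abs_mul, abs_of_pos hrR] at e11
    rw [hL, le_div_iff₀ hrR]
    linarith
  set ρ : ℝ := Real.exp (-(36864 * a * b / m)) / 24 with hρ
  have hρ0 : 0 < ρ := by positivity
  have hcells : 48 * L * Real.exp (36864 * a * b / m) + 1 = 2 * L / ρ + 1 := by
    rw [hρ, Real.exp_neg]
    field_simp
    ring
  rw [hcells] at hcon
  -- pigeonhole
  obtain ⟨t, ht, s, hs, hts, hfl⟩ : ∃ t ∈ T2, ∃ s ∈ T2, t ≠ s ∧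
      ⌊(lam t + L) / ρ⌋₊ = ⌊(lam s + L) / ρ⌋₊ := by
    apply exists_ne_map_eq_of_card_lt_of_maps_to (t := range (⌊2 * L / ρ⌋₊ + 1))
    · rw [card_range]
      have h7 : ((⌊2 * L / ρ⌋₊ + 1 : ℕ) : ℝ) < T2.card := by
        push_cast
        have := Nat.floor_le (show 0 ≤ 2 * L / ρ by positivity)
        linarith
      exact_mod_cast h7
    · intro t ht
      rw [mem_coe, mem_range, Nat.lt_succ_iff]
      apply Nat.floor_le_floor
      have := abs_le.1 (hlamle t (hT2 ht))
      apply div_le_div_of_nonneg_right _ hρ0.le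
      linarith [this.2]
  have htT := hT2 ht
  have hsT := hT2 hs
  have hclose : |lam t - lam s| ≤ ρ := by
    have g1 := abs_le.1 (hlamle t htT)
    have g2 := abs_le.1 (hlamle s hsT)
    have n1 : 0 ≤ (lam t + L) / ρ := div_nonneg (by linarith [g1.1]) hρ0.le
    have n2 : 0 ≤ (lam s + L) / ρ := div_nonneg (by linarith [g2.1]) hρ0.le
    have f1 := Nat.floor_le n1
    have f2 := Nat.floor_le n2
    have f3 := Nat.lt_floor_add_one ((lam t + L) / ρ)
    have f4 := Nat.lt_floor_add_one ((lam s + L) / ρ)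
    rw [hfl] at f1 f3
    have f5 : |(lam t + L) / ρ - (lam s + L) / ρ| ≤ 1 := by
      rw [abs_le]
      constructor <;> linarith
    have f6 : (lam t + L) / ρ - (lam s + L) / ρ = (lam t - lam s) / ρ := by ring
    rw [f6, abs_div, abs_of_pos hρ0, div_le_iff₀ hρ0, one_mul] at f5
    exact f5
  have pos1 := Bf_pos (P t) (F t)
  have pos2 := Bf_pos (Q t) (F t)
  have pos3 := Bf_pos (P s) (F s)
  have pos4 := Bf_pos (Q s) (F s)
  have a1 := An_pos r (P t) (F t)
  have a2 := An_pos r (Q t) (F t)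
  have a3 := An_pos r (P s) (F s)
  have a4 := An_pos r (Q s) (F s)
  have d1 := Ad_pos r (P t) (F t)
  have d2 := Ad_pos r (Q t) (F t)
  have d3 := Ad_pos r (P s) (F s)
  have d4 := Ad_pos r (Q s) (F s)
  have pR1 : (Bf (P t) (F t) : ℝ) ≠ 0 := by exact_mod_cast pos1.ne'
  have pR2 : (Bf (Q t) (F t) : ℝ) ≠ 0 := by exact_mod_cast pos2.ne'
  have pR3 : (Bf (P s) (F s) : ℝ) ≠ 0 := by exact_mod_cast pos3.ne'
  have pR4 : (Bf (Q s) (F s) : ℝ) ≠ 0 := by exact_mod_cast pos4.ne'
  have aR1 : (An r (P t) (F t) : ℝ) ≠ 0 := by exact_mod_cast a1.ne'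
  have aR2 : (An r (Q t) (F t) : ℝ) ≠ 0 := by exact_mod_cast a2.ne'
  have aR3 : (An r (P s) (F s) : ℝ) ≠ 0 := by exact_mod_cast a3.ne'
  have aR4 : (An r (Q s) (F s) : ℝ) ≠ 0 := by exact_mod_cast a4.ne'
  have dR1 : (Ad r (P t) (F t) : ℝ) ≠ 0 := by exact_mod_cast d1.ne'
  have dR2 : (Ad r (Q t) (F t) : ℝ) ≠ 0 := by exact_mod_cast d2.ne'
  have dR3 : (Ad r (P s) (F s) : ℝ) ≠ 0 := by exact_mod_cast d3.ne'
  have dR4 : (Ad r (Q s) (F s) : ℝ) ≠ 0 := by exact_mod_cast d4.ne'
  have lB1 : Real.log ((Bf (P t) (F t) * Bf (Q s) (F s) : ℕ) : ℝ) =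
      Real.log (Bf (P t) (F t)) + Real.log (Bf (Q s) (F s)) := by
    rw [Nat.cast_mul, Real.log_mul pR1 pR4]
  have lB2 : Real.log ((Bf (Q t) (F t) * Bf (P s) (F s) : ℕ) : ℝ) =
      Real.log (Bf (Q t) (F t)) + Real.log (Bf (P s) (F s)) := by
    rw [Nat.cast_mul, Real.log_mul pR2 pR3]
  have lA1 : Real.log ((An r (P t) (F t) * Ad r (Q t) (F t) * Ad r (P s) (F s) *
      An r (Q s) (F s) : ℕ) : ℝ) = Real.log (An r (P t) (F t)) + Real.log (Ad r (Q t) (F t)) +
        Real.log (Ad r (P s) (F s)) + Real.log (An r (Q s) (F s)) := by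
    rw [Nat.cast_mul, Nat.cast_mul, Nat.cast_mul,
      Real.log_mul (mul_ne_zero (mul_ne_zero aR1 dR2) dR3) aR4,
      Real.log_mul (mul_ne_zero aR1 dR2) dR3, Real.log_mul aR1 dR2]
  have lA2 : Real.log ((Ad r (P t) (F t) * An r (Q t) (F t) * An r (P s) (F s) *
      Ad r (Q s) (F s) : ℕ) : ℝ) = Real.log (Ad r (P t) (F t)) + Real.log (An r (Q t) (F t)) +
        Real.log (An r (P s) (F s)) + Real.log (Ad r (Q s) (F s)) := by
    rw [Nat.cast_mul, Nat.cast_mul, Nat.cast_mul,
      Real.log_mul (mul_ne_zero (mul_ne_zero dR1 aR2) aR3) dR4,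
      Real.log_mul (mul_ne_zero dR1 aR2) aR3, Real.log_mul dR1 aR2]
  have eP := log_mul_Ad r (P t) (F t) (hF.posP t htT).ne'
  have eQ := log_mul_Ad r (Q t) (F t) (hF.posQ t htT).ne'
  have eP' := log_mul_Ad r (P s) (F s) (hF.posP s hsT).ne'
  have eQ' := log_mul_Ad r (Q s) (F s) (hF.posQ s hsT).ne'
  have uP := log_Bf_le r (P t) (F t) (hF.posP t htT).ne'
  have uQ := log_Bf_le r (Q t) (F t) (hF.posQ t htT).ne'
  have uP' := log_Bf_le r (P s) (F s) (hF.posP s hsT).ne'
  have uQ' := log_Bf_le r (Q s) (F s) (hF.posQ s hsT).ne'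
  have vP := hF.logP t htT
  have vQ := hF.logQ t htT
  have vP' := hF.logP s hsT
  have vQ' := hF.logQ s hsT
  have wt := hF.err_le t htT
  have ws := hF.err_le s hsT
  have wP := herrP t htT
  have wQ := herrQ t htT
  have wP' := herrP s hsT
  have wQ' := herrQ s hsT
  refine core_num_real r (Bf (P t) (F t) * Bf (Q s) (F s)) (Bf (Q t) (F t) * Bf (P s) (F s))
    (An r (P t) (F t) * Ad r (Q t) (F t) * Ad r (P s) (F s) * An r (Q s) (F s))
    (Ad r (P t) (F t) * An r (Q t) (F t) * An r (P s) (F s) * Ad r (Q s) (F s)) m a b ρ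
    (by positivity) (by positivity) (by positivity) (by positivity) h1 h2 h3 h4 h5 h6
    ?_ ?_ ?_ ?_ hρ0.le ?_ ?_ ?_ ?_
  · rw [lB1]
    have : (Real.log (Bf (P t) (F t)) + Real.log (Bf (Q s) (F s))) * r ≤ b * r := by linarith
    exact le_of_mul_le_mul_right this hrR
  · rw [lB2]
    have : (Real.log (Bf (Q t) (F t)) + Real.log (Bf (P s) (F s))) * r ≤ b * r := by linarith
    exact le_of_mul_le_mul_right this hrR
  · rw [lA1]
    have g1 := log_An_le r (P t) (F t)
    have g2 := log_Ad_le r (Q t) (F t)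
    have g3 := log_Ad_le r (P s) (F s)
    have g4 := log_An_le r (Q s) (F s)
    linarith
  · rw [lA2]
    have g1 := log_Ad_le r (P t) (F t)
    have g2 := log_An_le r (Q t) (F t)
    have g3 := log_An_le r (P s) (F s)
    have g4 := log_Ad_le r (Q s) (F s)
    linarith
  · rw [hρ, mul_div_cancel₀ _ (by norm_num : (24 : ℝ) ≠ 0)]
    apply Real.exp_le_exp.2
    have g1 := parN_lower m a b ha0 hb0 h1 h2
    have g2 : 0 < m ^ 2 / (36864 * a * b) := by positivity
    have g3 : m / parN m a b ≤ m / (m ^ 2 / (36864 * a * b)) :=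
      div_le_div_of_nonneg_left hm.le g2 g1
    have g4 : m / (m ^ 2 / (36864 * a * b)) = 36864 * a * b / m := by
      field_simp
    linarith
  · rw [lB1, lB2]
    have : Real.log (Bf (P t) (F t)) + Real.log (Bf (Q s) (F s)) -
        (Real.log (Bf (Q t) (F t)) + Real.log (Bf (P s) (F s))) = lam t - lam s := by
      rw [hlam]; ring
    rw [this]
    exact hclose
  · intro heq
    have c1 : Nat.Coprime (Bf (P t) (F t)) (Bf (Q t) (F t)) :=
      (Bf_coprime ((Bf_coprime (hF.cop t htT) (F t)).symm) (F t)).symm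
    have c2 : Nat.Coprime (Bf (P s) (F s)) (Bf (Q s) (F s)) :=
      (Bf_coprime ((Bf_coprime (hF.cop s hsT) (F s)).symm) (F s)).symm
    have k1 : Bf (P t) (F t) ∣ Bf (P s) (F s) := by
      have : Bf (P t) (F t) ∣ Bf (Q t) (F t) * Bf (P s) (F s) := ⟨_, heq.symm⟩
      exact c1.dvd_of_dvd_mul_left this
    have k2 : Bf (P s) (F s) ∣ Bf (P t) (F t) := by
      have : Bf (P s) (F s) ∣ Bf (P t) (F t) * Bf (Q s) (F s) :=
        ⟨Bf (Q t) (F t), by rw [heq]; ring⟩
      exact c2.dvd_of_dvd_mul_right this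
    have k3 := Nat.dvd_antisymm k1 k2
    have k4 : Bf (Q t) (F t) = Bf (Q s) (F s) := by
      rw [k3, mul_comm] at heq
      exact (Nat.eq_of_mul_eq_mul_right pos3 heq).symm
    apply hts
    apply hinj ht hs
    simp only [k3, k4]
  · rw [lB1, lB2, lA1, lA2]
    have g1 := abs_le.1 (hrel t htT)
    have g2 := abs_le.1 (hrel s hsT)
    rw [abs_le]
    constructor <;> linarith [g1.1, g1.2, g2.1, g2.2]

end Pool.Agent.Lib.Pabc11
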