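import Pool.Agent.Lib.Pabc11.Final

/-!
# Triples whose members are not nearly prime powers

If some member `m` of a balanced triple is not of the form `A * p ^ e` with `A < c ^ δ`, it is a
product of two coprime factors `≥ c ^ (δ / 2)`, and one of four coprime divisors of `abc` has radical
at most `n ^ (1/4)`.
-/

open Finset Filter

namespace Pool.Agent.Lib.Pabc11

open Pool.Agent.Lib.Pabc2 Pool.Agent.Lib.Pabc1

theorem greedy (S : Finset ℕ) (w : ℕ → ℝ) (τ : ℝ) (hτ : 0 < τ)
    (h3 : 3 * τ ≤ ∑ p ∈ S, w p) (h2 : ∀ p ∈ S, w p ≤ ∑ q ∈ S, w q - 2 * τ) :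
    ∃ U ⊆ S, τ ≤ ∑ p ∈ U, w p ∧ ∑ p ∈ U, w p ≤ ∑ p ∈ S, w p - τ := by
  classical
  by_cases hex : ∃ p ∈ S, τ ≤ w p
  · obtain ⟨p, hp, hpτ⟩ := hex
    refine ⟨{p}, Finset.singleton_subset_iff.2 hp, ?_, ?_⟩
    · rw [Finset.sum_singleton]; exact hpτ
    · rw [Finset.sum_singleton]
      have := h2 p hp
      linarith
  · push Not at hex
    have hne : (S.powerset.filter (fun U => τ ≤ ∑ p ∈ U, w p)).Nonempty :=
      ⟨S, Finset.mem_filter.2 ⟨Finset.mem_powerset.2 subset_rfl, by linarith⟩⟩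
    obtain ⟨U, hU, hmin⟩ := Finset.exists_min_image _ Finset.card hne
    obtain ⟨hU1, hU2⟩ := Finset.mem_filter.1 hU
    have hUS := Finset.mem_powerset.1 hU1
    refine ⟨U, hUS, hU2, ?_⟩
    rcases U.eq_empty_or_nonempty with rfl | ⟨p, hp⟩
    · rw [Finset.sum_empty] at hU2
      linarith
    · have h4 : ∑ q ∈ U.erase p, w q < τ := by
        by_contra hcon
        have h5 := hmin (U.erase p) (Finset.mem_filter.2
          ⟨Finset.mem_powerset.2 ((Finset.erase_subset _ _).trans hUS), not_lt.1 hcon⟩)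
        have h6 := Finset.card_erase_lt_of_mem hp
        omega
      have h7 := Finset.add_sum_erase U w hp
      have h8 := hex p (hUS hp)
      linarith

theorem small_quarter {n : ℕ} {t : ℕ × ℕ} {δ : ℝ} (h : IsT t) (hr : rd t ≤ n) (hδ0 : 0 < δ)
    (hδ1 : δ ≤ 2 / 5) (l : Fin 3)
    (hl : ∀ p ∈ (comp t l).primeFactors,
      ((comp t l).factorization p : ℝ) * Real.log p ≤ Real.log (comp t l) - δ * ht t) :
    Small (δ / 2) ((n : ℝ) ^ (1 / 4 : ℝ)) t := by
  classical
  unfold Small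
  by_cases hb : Real.log t.1 ≤ (1 - δ / 2) * ht t
  · exact Or.inl hb
  right
  have hb' := not_le.1 hb
  have hh0 : 0 ≤ ht t := by
    have := log_a_le h
    have h3 : (1 : ℝ) ≤ t.1 := by exact_mod_cast h.1
    have h4 := Real.log_nonneg h3
    linarith
  have hh : 0 < ht t := by
    unfold ht
    apply Real.log_pos
    have h3 : (1 : ℝ) ≤ t.1 := by exact_mod_cast h.1
    have h4 : (1 : ℝ) ≤ t.2 := by exact_mod_cast h.pos2
    linarith
  set S := (comp t l).primeFactors with hS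
  set w : ℕ → ℝ := fun p => ((comp t l).factorization p : ℝ) * Real.log p with hw
  have hlogS : ∀ U ⊆ S, Real.log ((∏ p ∈ U, p ^ (comp t l).factorization p : ℕ) : ℝ) =
      ∑ p ∈ U, w p := by
    intro U hU
    push_cast
    rw [Real.log_prod]
    · exact Finset.sum_congr rfl fun p _ => Real.log_pow _ _
    · intro p hp
      exact pow_ne_zero _ (by
        exact_mod_cast (Nat.prime_of_mem_primeFactors (hU hp)).ne_zero)
  have hprodS : (∏ p ∈ S, p ^ (comp t l).factorization p) = comp t l := by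
    have h2 := Nat.prod_factorization_pow_eq_self (comp_pos h l).ne'
    rw [Finsupp.prod, Nat.support_factorization] at h2
    exact h2
  have htot : ∑ p ∈ S, w p = Real.log (comp t l) := by
    rw [← hlogS S subset_rfl, hprodS]
  have hge := cb_log_comp_ge h l
  obtain ⟨U, hUS, hU1, hU2⟩ := greedy S w (δ / 2 * ht t) (by positivity)
    (by rw [htot]; nlinarith) (by
      intro p hp
      have := hl p hp
      rw [htot]
      linarith)
  -- the two divisors
  have hUd : ∀ V ⊆ S, (∏ p ∈ V, p ^ (comp t l).factorization p) ∣ comp t l := by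
    intro V hV
    conv_rhs => rw [← hprodS]
    exact Finset.prod_dvd_prod_of_subset _ _ _ hV
  have hUr : ∀ V ⊆ S, (∏ q ∈ (∏ p ∈ V, p ^ (comp t l).factorization p).primeFactors, (q : ℝ)) ≤
      ∏ p ∈ V, (p : ℝ) := by
    intro V hV
    have hsub : (∏ p ∈ V, p ^ (comp t l).factorization p).primeFactors ⊆ V := by
      intro q hq
      have hqp := Nat.prime_of_mem_primeFactors hq
      obtain ⟨p, hp, hqd⟩ := (Prime.dvd_finsetProd_iff hqp.prime _).1
        (Nat.dvd_of_mem_primeFactors hq)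
      have hqd' := hqp.dvd_of_dvd_pow hqd
      have := (Nat.prime_dvd_prime_iff_eq hqp (Nat.prime_of_mem_primeFactors (hV hp))).1 hqd'
      rw [this]; exact hp
    have h5 : (∏ q ∈ (∏ p ∈ V, p ^ (comp t l).factorization p).primeFactors, q) ≤ ∏ p ∈ V, p :=
      Finset.prod_le_prod_of_subset_of_one_le' hsub
        (fun p hp' _ => (Nat.prime_of_mem_primeFactors (hV hp')).one_le)
    have h6 : ((∏ q ∈ (∏ p ∈ V, p ^ (comp t l).factorization p).primeFactors, q : ℕ) : ℝ) ≤
      ((∏ p ∈ V, p : ℕ) : ℝ) := by exact_mod_cast h5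
    push_cast at h6
    exact h6
  have hlogU : δ / 2 * ht t ≤
      Real.log ((∏ p ∈ U, p ^ (comp t l).factorization p : ℕ) : ℝ) := by
    rw [hlogS U hUS]; exact hU1
  have hlogV : δ / 2 * ht t ≤
      Real.log ((∏ p ∈ S \ U, p ^ (comp t l).factorization p : ℕ) : ℝ) := by
    rw [hlogS _ Finset.sdiff_subset]
    have h7 := Finset.sum_sdiff (f := w) hUS
    linarith
  by_contra hcon
  push Not at hcon
  have hn0 : (0 : ℝ) ≤ n := Nat.cast_nonneg n
  set y : ℝ := (n : ℝ) ^ (1 / 4 : ℝ) with hy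
  have hy0 : 0 ≤ y := Real.rpow_nonneg hn0 _
  have hy4 : y * y * (y * y) = n := by
    have e : y * y * (y * y) = y ^ 4 := by ring
    rw [e, hy, ← Real.rpow_natCast, ← Real.rpow_mul hn0]
    norm_num
  -- the four radicals
  have r1 : y < ∏ p ∈ U, (p : ℝ) := by
    by_contra hc
    have := hcon l _ (hUd U hUS) ((hUr U hUS).trans (not_lt.1 hc))
    linarith
  have r2 : y < ∏ p ∈ S \ U, (p : ℝ) := by
    by_contra hc
    have := hcon l _ (hUd _ Finset.sdiff_subset) ((hUr _ Finset.sdiff_subset).trans (not_lt.1 hc))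
    linarith
  have r3 : ∀ l', y < ∏ p ∈ (comp t l').primeFactors, (p : ℝ) := by
    intro l'
    by_contra hc
    have h8 := hcon l' (comp t l') dvd_rfl (not_lt.1 hc)
    have h9 := cb_log_comp_ge h l'
    nlinarith
  have hS12 : (∏ p ∈ S, (p : ℝ)) = (∏ p ∈ S \ U, (p : ℝ)) * ∏ p ∈ U, (p : ℝ) :=
    (Finset.prod_sdiff hUS).symm
  have hrd := cb_rd h
  have hyy : y * y < ∏ p ∈ S, (p : ℝ) := by
    rw [hS12]
    exact mul_lt_mul'' r2 r1 hy0 hy0
  have hyy0 : 0 ≤ y * y := mul_nonneg hy0 hy0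
  have hrn : (rd t : ℝ) ≤ n := by exact_mod_cast hr
  have hfin : (n : ℝ) < rd t := by
    rw [hrd, ← hy4]
    have h0 := r3 0
    have h1 := r3 1
    have h2 := r3 2
    have hl3 : l = 0 ∨ l = 1 ∨ l = 2 := by omega
    rcases hl3 with rfl | rfl | rfl
    · calc y * y * (y * y) < (∏ p ∈ (comp t 0).primeFactors, (p : ℝ)) *
            ((∏ p ∈ (comp t 1).primeFactors, (p : ℝ)) *
              ∏ p ∈ (comp t 2).primeFactors, (p : ℝ)) :=
            mul_lt_mul'' hyy (mul_lt_mul'' h1 h2 hy0 hy0) hyy0 hyy0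
        _ = _ := by ring
    · calc y * y * (y * y) < (∏ p ∈ (comp t 1).primeFactors, (p : ℝ)) *
            ((∏ p ∈ (comp t 0).primeFactors, (p : ℝ)) *
              ∏ p ∈ (comp t 2).primeFactors, (p : ℝ)) :=
            mul_lt_mul'' hyy (mul_lt_mul'' h0 h2 hy0 hy0) hyy0 hyy0
        _ = _ := by ring
    · calc y * y * (y * y) < (∏ p ∈ (comp t 2).primeFactors, (p : ℝ)) *
            ((∏ p ∈ (comp t 0).primeFactors, (p : ℝ)) *
              ∏ p ∈ (comp t 1).primeFactors, (p : ℝ)) :=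
            mul_lt_mul'' hyy (mul_lt_mul'' h0 h1 hy0 hy0) hyy0 hyy0
        _ = _ := by ring
  linarith

end Pool.Agent.Lib.Pabc11
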